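import Pool.Agent.Helper48.WT.Eig
import Pool.Agent.Helper48.GC8.Arith

/-!
# WT-ARITH: the arithmetic contradiction

`arith`. PROOF. `De = {i | e_i in y}`, `Df = {i | f_i in y}` are disjoint with at most `p` elements,
`d = 2p`: choose `S'` with `De ⊆ S' ⊆ Dfᶜ`, `|S'| = p` (`Finset.exists_subsuperset_card_eq`).
`S = S' ∩ tor` satisfies `|S| ≤ p`, `|tor \ S| ≤ p`; take `z = (q, g)`, `P` from `Units`.
`l` from `exists_eig`: `det g = ∏ l i = q ^ p`. Let `E = {i | l i ∉ P}` (membership in the sense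
`∀ x ∈ P, (x : ℂ) ≠ l i`; the `l i`, `q / l i` are algebraic integers). As `l i * (q / l i) = q ∈ P`
and `IsOrd`, exactly one of `l i`, `q / l i` is outside of `P`. `|E| = p`: from
`∏_{E} l i * ∏_{Eᶜ} l i = q ^ p`, `l i = q / (q / l i)` on `Eᶜ`, so
`∏_E l i * q ^ |Eᶜ| = q ^ p * ∏_{Eᶜ} (q / l i)`; if `|E| < p` divide by `q ^ p`: the right side is a
product of elements outside of the prime `P`, the left side is divisible by `q`; same if `|E| > p`.
`E ∩ tor = S`. So `|E \ tor| = |S' \ tor|` and there is a permutation `π` fixing `tor` with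
`π i ∈ E ↔ i ∈ S'`. Take `Y` for `π`; `D = diagonal (l ∘ π)`. `frob q g * frob 1 Y =
frob 1 Y * frob q D` (`frob_mul`), `frob q D` is diagonal (`frob_diagonal`) and in the group;
with `Q` from `Good`: `Q (rho (frob q D)) u = rho(Y)⁻¹ Q (rho (frob q g)) rho(Y) u = 0` since
`rho (frob 1 Y) u ∈ U`. `rho (frob q D)` is diagonal with eigenvalue `η = ∏ a, μ (y a)` at `y`,
`μ (e_i) = l (π i)`, `μ (f_i) = q / l (π i)` (`rho_diag`), so `Q (η) * u y = 0`, `Q` has the root
`η` and `η / q ^ t` is integral. But `η` is a product of elements outside of `P`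
(`e_i` in `y` → `i ∈ S'`; `f_i` in `y` → `i ∉ S'`), while `η = q ^ t * (η / q ^ t) ∈ P`.
See `arith_final` in Helper48/GC8/Arith.lean for the style.
-/

set_option autoImplicit false

namespace Pool.Agent.Helper48.WT

open Polynomial Pool.Agent.Helper48.GC8

variable {d p : ℕ} {tor : Finset (Fin d)} {ι : Type} [Fintype ι] [DecidableEq ι]

/-- (helper52) if the product of the eigenvalues is `q ^ p`, exactly `p` of them are outside of `P` -/
private lemma card_units {q : ℕ} (hq : 2 ≤ q) {p : ℕ} (L L' : Fin d → integralClosure ℤ ℂ)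
    (hd : d = 2 * p) (hmul : ∀ i, L i * L' i = (q : integralClosure ℤ ℂ))
    (hprod : ∏ i, L i = (q : integralClosure ℤ ℂ) ^ p) {P : Ideal (integralClosure ℤ ℂ)}
    (hP : P.IsPrime) (hqP : (q : integralClosure ℤ ℂ) ∈ P) (E : Finset (Fin d))
    (hE : ∀ i ∈ E, L i ∉ P) (hE' : ∀ i ∉ E, L' i ∉ P) : E.card = p := by
  classical
  have hq0 : (q : integralClosure ℤ ℂ) ≠ 0 := by
    have : q ≠ 0 := by omega
    exact_mod_cast this
  have hcard : E.card + Eᶜ.card = 2 * p := by
    rw [Finset.card_add_card_compl, Fintype.card_fin, hd]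
  have h1 : (∏ i ∈ E, L i) * (q : integralClosure ℤ ℂ) ^ Eᶜ.card =
      (q : integralClosure ℤ ℂ) ^ p * ∏ i ∈ Eᶜ, L' i := by
    rw [← hprod, ← Finset.prod_mul_prod_compl E, mul_assoc, ← Finset.prod_mul_distrib,
      Finset.prod_congr rfl fun i _ => hmul i, Finset.prod_const]
  rcases Nat.lt_trichotomy E.card p with h | h | h
  · exfalso
    have h2 : Eᶜ.card = p + (Eᶜ.card - p) := by omega
    rw [h2, pow_add, ← mul_assoc, mul_comm (∏ i ∈ E, L i), mul_assoc] at h1
    have h3 := mul_left_cancel₀ (pow_ne_zero p hq0) h1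
    have h4 : ∏ i ∈ Eᶜ, L' i ∈ P := by
      rw [← h3]
      refine P.mul_mem_left _ ?_
      obtain ⟨m, hm⟩ : ∃ m, Eᶜ.card - p = m + 1 := ⟨Eᶜ.card - p - 1, by omega⟩
      rw [hm, pow_succ]
      exact P.mul_mem_left _ hqP
    rw [hP.prod_mem_iff] at h4
    obtain ⟨i, hi, h5⟩ := h4
    exact hE' i (Finset.mem_compl.1 hi) h5
  · exact h
  · exfalso
    have h2 : p = Eᶜ.card + (p - Eᶜ.card) := by omega
    have h1' : (q : integralClosure ℤ ℂ) ^ Eᶜ.card * (∏ i ∈ E, L i) =
        (q : integralClosure ℤ ℂ) ^ Eᶜ.card * ((q : integralClosure ℤ ℂ) ^ (p - Eᶜ.card) *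
          ∏ i ∈ Eᶜ, L' i) := by
      rw [← mul_assoc, ← pow_add, ← h2, ← h1, mul_comm]
    have h3 := mul_left_cancel₀ (pow_ne_zero _ hq0) h1'
    have h4 : ∏ i ∈ E, L i ∈ P := by
      rw [h3]
      refine P.mul_mem_right _ ?_
      obtain ⟨m, hm⟩ : ∃ m, p - Eᶜ.card = m + 1 := ⟨p - Eᶜ.card - 1, by omega⟩
      rw [hm, pow_succ]
      exact P.mul_mem_left _ hqP
    rw [hP.prod_mem_iff] at h4
    obtain ⟨i, hi, h5⟩ := h4
    exact hE i hi h5

/-- (helper52) the permutation -/
private lemma exists_pi (tor E S' : Finset (Fin d)) (hcard : (S' \ tor).card = (E \ tor).card)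
    (htor : ∀ i ∈ tor, i ∈ E ↔ i ∈ S') :
    ∃ π : Equiv.Perm (Fin d), (∀ i ∈ tor, π i = i) ∧ ∀ i, π i ∈ E ↔ i ∈ S' := by
  classical
  set col : Fin d → Option (Fin d) := fun i => if i ∈ tor then some i else none with hcol
  set P' : Option (Fin d) → Finset (Fin d) := fun c => if c = none then E \ tor else ∅ with hP'
  obtain ⟨σ, hσ1, hσ2⟩ := exists_perm col (S' \ tor) P' (by
    intro c i hi
    by_cases hc : c = none
    · subst hc
      simp only [hP', if_true] at hi
      simp only [hcol, if_neg (Finset.mem_sdiff.1 hi).2]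
    · simp only [hP', if_neg hc] at hi
      exact absurd hi (Finset.notMem_empty i)) (by
    intro c
    by_cases hc : c = none
    · subst hc
      simp only [hP', if_true]
      rw [← hcard]
      congr 1
      refine Finset.filter_true_of_mem fun i hi => ?_
      simp only [hcol, if_neg (Finset.mem_sdiff.1 hi).2]
    · simp only [hP', if_neg hc]
      rw [Finset.card_empty, Finset.card_eq_zero]
      refine Finset.filter_false_of_mem fun i hi => ?_
      simp only [hcol, if_neg (Finset.mem_sdiff.1 hi).2]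
      exact fun h => hc h.symm)
  have hfix : ∀ i ∈ tor, σ i = i := by
    intro i hi
    have h1 := hσ1 i
    simp only [hcol, if_pos hi] at h1
    by_cases h2 : σ i ∈ tor
    · rw [if_pos h2] at h1
      exact Option.some.inj h1
    · rw [if_neg h2] at h1
      exact absurd h1 (by simp)
  have hntor : ∀ i, i ∉ tor → σ i ∉ tor := by
    intro i hi h
    have h1 := hfix _ h
    exact hi (by rw [← σ.injective h1]; exact h)
  have himg : (S' \ tor).image σ = E \ tor := by
    apply Finset.eq_of_subset_of_card_le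
    · intro j hj
      obtain ⟨i, hi, rfl⟩ := Finset.mem_image.1 hj
      have h1 := hσ2 i hi
      simpa only [hcol, if_neg (Finset.mem_sdiff.1 hi).2, hP', if_true] using h1
    · rw [Finset.card_image_of_injective _ σ.injective, hcard]
  refine ⟨σ, hfix, fun i => ?_⟩
  by_cases hi : i ∈ tor
  · rw [hfix i hi]
    exact htor i hi
  · constructor
    · intro h
      have h1 : σ i ∈ (S' \ tor).image σ := by
        rw [himg]
        exact Finset.mem_sdiff.2 ⟨h, hntor i hi⟩
      obtain ⟨j, hj, hji⟩ := Finset.mem_image.1 h1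
      rw [← σ.injective hji]
      exact (Finset.mem_sdiff.1 hj).1
    · intro h
      have h1 : σ i ∈ (S' \ tor).image σ :=
        Finset.mem_image_of_mem _ (Finset.mem_sdiff.2 ⟨h, hi⟩)
      rw [himg] at h1
      exact (Finset.mem_sdiff.1 h1).1

theorem arith (hd : d = 2 * p) {𝓕 : Set (ℕ × Matrix (Fin d) (Fin d) ℂ)}
    (h𝓕 : ∀ z ∈ 𝓕, IsFrob p tor z) (hun : Units p tor 𝓕) {t : ℕ} (ht : 1 ≤ t)
    {U : Submodule ℂ (Ten ι (Le d))} (hst : Stab p tor U) (hgood : Good 𝓕 t U)
    {u : Ten ι (Le d)} (hu : u ∈ U) {y : ι → Le d} (hy : u y ≠ 0)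
    (hdis : ∀ i a b, y a = Sum.inl i → y b ≠ Sum.inr i)
    (he : ((Finset.univ : Finset (Fin d)).filter (fun i => ∃ a, y a = Sum.inl i)).card ≤ p)
    (hf : ((Finset.univ : Finset (Fin d)).filter (fun i => ∃ a, y a = Sum.inr i)).card ≤ p) :
    False := by
  classical
  -- the set `S'`
  set De : Finset (Fin d) := Finset.univ.filter (fun i => ∃ a, y a = Sum.inl i) with hDe
  set Df : Finset (Fin d) := Finset.univ.filter (fun i => ∃ a, y a = Sum.inr i) with hDf
  have hsub : De ⊆ Dfᶜ := by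
    intro i hi
    rw [Finset.mem_compl]
    intro hi'
    obtain ⟨a, ha⟩ := (Finset.mem_filter.1 hi).2
    obtain ⟨b, hb⟩ := (Finset.mem_filter.1 hi').2
    exact hdis i a b ha hb
  have hDfc : p ≤ Dfᶜ.card := by
    rw [Finset.card_compl, Fintype.card_fin]
    omega
  obtain ⟨S', hS1, hS2, hS3⟩ := Finset.exists_subsuperset_card_eq hsub he hDfc
  have hScard : (tor \ (S' ∩ tor)).card ≤ p := by
    have h1 : tor \ (S' ∩ tor) ⊆ S'ᶜ := by
      intro i hi
      rw [Finset.mem_compl]
      intro h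
      exact (Finset.mem_sdiff.1 hi).2 (Finset.mem_inter.2 ⟨h, (Finset.mem_sdiff.1 hi).1⟩)
    refine (Finset.card_le_card h1).trans ?_
    rw [Finset.card_compl, Fintype.card_fin, hS3]
    omega
  obtain ⟨z, hz, P, hP, hqP, hord, hu1, hu2⟩ := hun (S' ∩ tor) Finset.inter_subset_right
    ((Finset.card_le_card Finset.inter_subset_left).trans hS3.le) hScard
  have hF := h𝓕 z hz
  obtain ⟨l, hl1, hl2, hl3⟩ := exists_eig hF.inG hF.semisimple
  have hq0 : (z.1 : ℂ) ≠ 0 := hF.inG.ne
  -- the product of the eigenvalues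
  have hdet : ∏ i, l i = (z.1 : ℂ) ^ p := by
    obtain ⟨Y, hY1, hY2⟩ := hl3 1 (fun i _ => rfl)
    have h1 := congrArg Matrix.det hY2
    rw [Matrix.det_mul, Matrix.det_mul, hY1.det, one_pow, mul_one, one_mul, Matrix.det_diagonal,
      hF.inG.det] at h1
    simpa using h1.symm
  have hroot : ∀ i, z.2.charpoly.IsRoot (l i) := by
    intro i
    rw [hl2, Polynomial.IsRoot.def, Polynomial.eval_prod]
    exact Finset.prod_eq_zero (Finset.mem_univ i) (by simp)
  have hl0 : ∀ i, l i ≠ 0 := by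
    intro i h
    have h1 : ∏ i, l i = 0 := Finset.prod_eq_zero (Finset.mem_univ i) h
    rw [hdet] at h1
    exact pow_ne_zero p hq0 h1
  set L : Fin d → integralClosure ℤ ℂ := fun i => ⟨l i, (hF.integral _ (hroot i)).1⟩ with hL
  set L' : Fin d → integralClosure ℤ ℂ := fun i => ⟨(z.1 : ℂ) / l i, (hF.integral _ (hroot i)).2⟩
    with hL'
  have hmul : ∀ i, L i * L' i = (z.1 : integralClosure ℤ ℂ) := by
    intro i
    apply Subtype.ext
    show l i * ((z.1 : ℂ) / l i) = _
    rw [mul_div_cancel₀ _ (hl0 i)]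
    simp
  have hordL : ∀ i, L i ∉ P ∨ L' i ∉ P := by
    intro i
    rcases hord _ (hroot i) with h | h
    · exact Or.inl fun h' => h _ h' rfl
    · exact Or.inr fun h' => h _ h' rfl
  have hLL' : ∀ i, L' i ∉ P → L i ∈ P := by
    intro i h
    have h1 : L i * L' i ∈ P := by rw [hmul]; exact hqP
    exact (hP.mem_or_mem h1).resolve_right h
  set E : Finset (Fin d) := Finset.univ.filter (fun i => L i ∉ P) with hE
  have hEmem : ∀ i, i ∈ E ↔ L i ∉ P := fun i => by simp [hE]
  have hEcard : E.card = p := by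
    refine card_units hF.two_le L L' hd hmul ?_ hP hqP E (fun i hi => (hEmem i).1 hi) ?_
    · apply Subtype.ext
      push_cast
      simpa [hL] using hdet
    · intro i hi
      rcases hordL i with h | h
      · exact absurd ((hEmem i).2 h) hi
      · exact h
  have htor : ∀ i ∈ tor, i ∈ E ↔ i ∈ S' := by
    intro i hi
    constructor
    · intro h
      by_contra hS
      have h1 : L' i ∉ P := by
        intro h'
        refine hu2 i (Finset.mem_sdiff.2 ⟨hi, fun h2 => hS (Finset.mem_inter.1 h2).1⟩) _ h' ?_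
        show (z.1 : ℂ) / l i = _
        rw [hl1 i hi]
      exact (hEmem i).1 h (hLL' i h1)
    · intro h
      rw [hEmem]
      intro h'
      exact hu1 i (Finset.mem_inter.2 ⟨h, hi⟩) _ h' (hl1 i hi)
  have hEt : (S' \ tor).card = (E \ tor).card := by
    have h1 : S' ∩ tor = E ∩ tor := by
      ext i
      rw [Finset.mem_inter, Finset.mem_inter]
      constructor
      · rintro ⟨h1, h2⟩; exact ⟨(htor i h2).2 h1, h2⟩
      · rintro ⟨h1, h2⟩; exact ⟨(htor i h2).1 h1, h2⟩
    have h2 := Finset.card_sdiff_add_card_inter S' tor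
    have h3 := Finset.card_sdiff_add_card_inter E tor
    rw [h1, hS3] at h2
    rw [hEcard] at h3
    omega
  obtain ⟨π, hπ1, hπ2⟩ := exists_pi tor E S' hEt htor
  obtain ⟨Y, hY1, hY2⟩ := hl3 π hπ1
  -- the eigenvalue
  obtain ⟨Q, hQ1, hQ2⟩ := hgood z hz
  set D : Matrix (Fin d) (Fin d) ℂ := Matrix.diagonal (fun i => l (π i)) with hD
  have hsemi : frob (z.1 : ℂ) z.2 * frob 1 Y = frob 1 Y * frob (z.1 : ℂ) D := by
    rw [← frob_mul, ← frob_mul, hY2, mul_one, one_mul]
  have hinv : frob 1 Y⁻¹ * frob 1 Y = 1 := by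
    rw [← frob_mul, Matrix.nonsing_inv_mul _ hY1.isUnit, mul_one, frob_one]
  have hdiag : frob (z.1 : ℂ) D =
      Matrix.diagonal (Sum.elim (fun i => l (π i)) (fun i => (z.1 : ℂ) / l (π i))) :=
    frob_diagonal _ _ (fun i => hl0 _)
  set w : Le d → ℂ := Sum.elim (fun i => l (π i)) (fun i => (z.1 : ℂ) / l (π i)) with hw
  have h1 := hQ2 _ (hst 1 Y hY1 u hu)
  have h2 := aeval_semiconj (rho Finset.univ (frob 1 Y)) (rho Finset.univ (Matrix.diagonal w))
    (rho Finset.univ (frob (z.1 : ℂ) z.2)) (fun v => by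
      rw [← Module.End.mul_apply, ← Module.End.mul_apply, ← rho_mul, ← rho_mul, hsemi, hdiag]) Q u
  rw [h1] at h2
  have h3 : aeval (rho Finset.univ (Matrix.diagonal w)) Q u = 0 := by
    have h4 := congrArg (rho Finset.univ (frob 1 Y⁻¹)) h2
    rw [← Module.End.mul_apply, ← rho_mul, hinv, rho_one, map_zero] at h4
    exact h4
  let ev : Ten ι (Le d) →ₗ[ℂ] ℂ := LinearMap.proj y
  have h4 := aeval_semiconj ev (rho Finset.univ (Matrix.diagonal w))
    (algebraMap ℂ (Module.End ℂ ℂ) (∏ k, w (y k))) (fun v => by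
      simp only [ev, LinearMap.proj_apply]
      rw [rho_diag]
      simp) Q u
  rw [h3, map_zero, aeval_algebraMap_apply] at h4
  have h5 : eval (∏ k, w (y k)) Q * u y = 0 := by
    have h6 := h4.symm
    simpa [ev, Polynomial.aeval_def] using h6
  have h6 : Q.IsRoot (∏ k, w (y k)) := (mul_eq_zero.1 h5).resolve_right hy
  have h7 := hQ1 _ h6
  -- the contradiction
  set H : Le d → integralClosure ℤ ℂ := Sum.elim (fun i => L (π i)) (fun i => L' (π i)) with hH
  have hHw : ∀ r, ((H r : integralClosure ℤ ℂ) : ℂ) = w r := by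
    rintro (i | i)
    · rfl
    · rfl
  have h8 : ∏ k, H (y k) = (z.1 : integralClosure ℤ ℂ) ^ t *
      (⟨(∏ k, w (y k)) / (z.1 : ℂ) ^ t, h7⟩ : integralClosure ℤ ℂ) := by
    apply Subtype.ext
    push_cast
    rw [mul_div_cancel₀ _ (pow_ne_zero t hq0)]
    exact Finset.prod_congr rfl fun k _ => hHw _
  have h9 : ∏ k, H (y k) ∈ P := by
    rw [h8]
    refine P.mul_mem_right _ ?_
    obtain ⟨m, rfl⟩ : ∃ m, t = m + 1 := ⟨t - 1, by omega⟩
    rw [pow_succ]
    exact P.mul_mem_left _ hqP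
  rw [hP.prod_mem_iff] at h9
  obtain ⟨a, -, h10⟩ := h9
  rcases hya : y a with i | i
  · rw [hya] at h10
    have h11 : i ∈ De := Finset.mem_filter.2 ⟨Finset.mem_univ _, a, hya⟩
    exact (hEmem (π i)).1 ((hπ2 i).2 (hS1 h11)) h10
  · rw [hya] at h10
    have h11 : i ∈ Df := Finset.mem_filter.2 ⟨Finset.mem_univ _, a, hya⟩
    have h12 : i ∉ S' := fun h => Finset.mem_compl.1 (hS2 h) h11
    have h13 : π i ∉ E := fun h => h12 ((hπ2 i).1 h)
    have h14 : L (π i) ∈ P := by
      by_contra h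
      exact h13 ((hEmem _).2 h)
    exact (hordL (π i)).elim (fun h => h h14) (fun h => h h10)

end Pool.Agent.Helper48.WT
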