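import Pool.Agent.Helper48.WT.Basic

/-!
# WT-HIGH: highest weight vectors

`exists_high`. PROOF (compare `Pool.Agent.Helper60.GC9.exists_highestT`). For a word `x` let
`bb x = ∑ a, wt (x a)`, `wt (inl i) = i`, `wt (inr i) = d - i`. Choose `m` minimal such that some
nonzero `u ∈ U` has `bb x ≤ m` for all `x` with `u x ≠ 0` (`Nat.find`). For `i < j` outside of
`tor` the matrix `1 + t B`, `B = fromBlocks (single i j 1) 0 0 (-single j i 1)`, equals
`frob 1 (1 + t single i j 1)`, and `InG p tor 1 (1 + t single i j 1)` (determinant one: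
`Matrix.det_transvection_of_ne`). By `der_mem` the tensor `der univ B u` is in `U`, and by
`der_apply` its value at `x` is `Pe u i j x - Qe u i j x`; every word in its support has
`bb x ≤ m - 1` (in fact `bb` drops by `j - i`). By minimality it is zero.
-/

set_option autoImplicit false

namespace Pool.Agent.Helper48.WT

open Polynomial Pool.Agent.Helper48.GC8

variable {d p : ℕ} {tor : Finset (Fin d)} {ι : Type} [Fintype ι] [DecidableEq ι]

private lemma frob_transvection {i j : Fin d} (hij : i ≠ j) (t : ℂ) :
    frob 1 (Matrix.transvection i j t) =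
      1 + t • (Matrix.fromBlocks (Matrix.single i j 1) 0 0 (-(Matrix.single j i 1)) :
        Matrix (Le d) (Le d) ℂ) := by
  have h1 : (Matrix.transvection i j t)⁻¹ = Matrix.transvection i j (-t) := by
    apply Matrix.inv_eq_right_inv
    rw [Matrix.transvection_mul_transvection_same i j hij, add_neg_cancel,
      Matrix.transvection_zero]
  unfold frob
  rw [h1, one_smul, ← Matrix.fromBlocks_one, Matrix.fromBlocks_smul, Matrix.fromBlocks_add]
  congr 1
  · rw [Matrix.transvection, Matrix.smul_single]
    simp
  · simp
  · simp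
  · rw [Matrix.transvection, Matrix.transpose_add, Matrix.transpose_one,
      Matrix.transpose_single, smul_neg, Matrix.smul_single]
    simp [Matrix.single_neg]

private lemma inG_transvection {i j : Fin d} (hij : i ≠ j) (hi : i ∉ tor) (hj : j ∉ tor) (t : ℂ) :
    InG p tor 1 (Matrix.transvection i j t) := by
  refine ⟨one_ne_zero, fun k l hkl ht => ?_, ?_⟩
  · rw [Matrix.transvection, Matrix.add_apply, Matrix.one_apply_ne hkl, zero_add,
      Matrix.single_apply, if_neg]
    rintro ⟨rfl, rfl⟩
    exact ht.elim hi hj
  · rw [Matrix.det_transvection_of_ne i j hij, one_pow]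

private def wt (s : Le d) : ℕ := Sum.elim (fun i : Fin d => (i : ℕ)) (fun i : Fin d => d - i) s

private lemma sum_wt_update (x : ι → Le d) (a : ι) (r : Le d) :
    ∑ c, wt (Function.update x a r c) + wt (x a) = ∑ c, wt (x c) + wt r := by
  classical
  rw [← Finset.add_sum_erase _ _ (Finset.mem_univ a), ← Finset.add_sum_erase Finset.univ
    (fun c => wt (x c)) (Finset.mem_univ a), Function.update_self]
  have h : ∑ c ∈ Finset.univ.erase a, wt (Function.update x a r c) =
      ∑ c ∈ Finset.univ.erase a, wt (x c) := by
    refine Finset.sum_congr rfl fun c hc => ?_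
    rw [Function.update_of_ne (Finset.ne_of_mem_erase hc)]
  rw [h]
  ring

private lemma der_eq (u : Ten ι (Le d)) (i j : Fin d) (x : ι → Le d) :
    der Finset.univ (Matrix.fromBlocks (Matrix.single i j 1) 0 0 (-(Matrix.single j i 1))) u x =
      Pe u i j x - Qe u i j x := by
  rw [der_apply]
  unfold Pe Qe
  rw [← Finset.sum_sub_distrib]
  refine Finset.sum_congr rfl fun a _ => ?_
  rw [Fintype.sum_sum_type]
  rcases hxa : x a with k | k
  · simp only [Matrix.fromBlocks_apply₁₁, Matrix.fromBlocks_apply₁₂, Matrix.zero_apply,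
      zero_mul, Finset.sum_const_zero, add_zero, Matrix.single_apply, Sum.inl.injEq, reduceCtorEq,
      if_false, sub_zero]
    rw [Finset.sum_eq_single j]
    · by_cases h : k = i
      · simp [h]
      · simp [h, Ne.symm h]
    · intro l _ hl
      simp [Ne.symm hl]
    · simp
  · simp only [Matrix.fromBlocks_apply₂₁, Matrix.fromBlocks_apply₂₂, Matrix.zero_apply,
      zero_mul, Finset.sum_const_zero, zero_add, Matrix.neg_apply, Matrix.single_apply,
      Sum.inr.injEq, reduceCtorEq, if_false, zero_sub]
    rw [Finset.sum_eq_single i]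
    · by_cases h : k = j
      · simp [h]
      · simp [h, Ne.symm h]
    · intro l _ hl
      simp [Ne.symm hl]
    · simp

theorem exists_high {U : Submodule ℂ (Ten ι (Le d))} (hU : Stab p tor U) (hne : U ≠ ⊥) :
    ∃ u ∈ U, u ≠ 0 ∧ ∀ i j, i < j → i ∉ tor → j ∉ tor → ∀ x, Pe u i j x = Qe u i j x := by
  classical
  let bb : (ι → Le d) → ℕ := fun x => ∑ c, wt (x c)
  have hex : ∃ m, ∃ u ∈ U, u ≠ 0 ∧ ∀ x, u x ≠ 0 → bb x ≤ m := by
    obtain ⟨u, hu, hu0⟩ := Submodule.exists_mem_ne_zero_of_ne_bot hne
    exact ⟨∑ x, bb x, u, hu, hu0, fun x _ =>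
      Finset.single_le_sum (fun y _ => Nat.zero_le (bb y)) (Finset.mem_univ x)⟩
  obtain ⟨u, hu, hu0, hum⟩ := Nat.find_spec hex
  set m := Nat.find hex with hm
  refine ⟨u, hu, hu0, fun i j hij hi hj x => ?_⟩
  have hne' : i ≠ j := ne_of_lt hij
  have h3 : der Finset.univ
      (Matrix.fromBlocks (Matrix.single i j 1) 0 0 (-(Matrix.single j i 1))) u ∈ U := by
    refine der_mem Finset.univ _ U ?_ hu
    intro t v hv
    rw [← frob_transvection hne' t]
    exact hU 1 _ (inG_transvection hne' hi hj t) v hv
  have hzero : der Finset.univ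
      (Matrix.fromBlocks (Matrix.single i j 1) 0 0 (-(Matrix.single j i 1))) u = 0 := by
    by_contra hcon
    have h4 : ∀ x, der Finset.univ
        (Matrix.fromBlocks (Matrix.single i j 1) 0 0 (-(Matrix.single j i 1))) u x ≠ 0 →
        bb x + 1 ≤ m := by
      intro x hx
      rw [der_apply] at hx
      obtain ⟨a, ha, h5⟩ := Finset.exists_ne_zero_of_sum_ne_zero hx
      obtain ⟨r, -, h6⟩ := Finset.exists_ne_zero_of_sum_ne_zero h5
      have h7 := left_ne_zero_of_mul h6
      have h8 : u (Function.update x a r) ≠ 0 := right_ne_zero_of_mul h6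
      have h9 := hum _ h8
      have h10 : bb (Function.update x a r) + wt (x a) = bb x + wt r := sum_wt_update x a r
      have h11 : wt (x a) + 1 ≤ wt r := by
        rcases hxa : x a with k | k
        · rcases r with l | l
          · rw [hxa, Matrix.fromBlocks_apply₁₁, Matrix.single_apply] at h7
            have h12 : i = k ∧ j = l := by
              by_contra h
              rw [if_neg h] at h7
              exact h7 rfl
            obtain ⟨rfl, rfl⟩ := h12
            show (i : ℕ) + 1 ≤ j
            exact hij
          · rw [hxa] at h7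
            simp at h7
        · rcases r with l | l
          · rw [hxa] at h7
            simp at h7
          · rw [hxa, Matrix.fromBlocks_apply₂₂, Matrix.neg_apply, Matrix.single_apply] at h7
            have h12 : j = k ∧ i = l := by
              by_contra h
              rw [if_neg h] at h7
              exact h7 neg_zero
            obtain ⟨rfl, rfl⟩ := h12
            show d - (j : ℕ) + 1 ≤ d - i
            have h13 : (i : ℕ) < j := hij
            have h14 := j.2
            omega
      omega
    obtain ⟨y, hy⟩ : ∃ x, der Finset.univ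
        (Matrix.fromBlocks (Matrix.single i j 1) 0 0 (-(Matrix.single j i 1))) u x ≠ 0 := by
      by_contra h5
      push Not at h5
      exact hcon (funext h5)
    have h5 := h4 y hy
    have h6 : ∃ u ∈ U, u ≠ 0 ∧ ∀ x, u x ≠ 0 → bb x ≤ m - 1 :=
      ⟨_, h3, hcon, fun x hx => by have := h4 x hx; omega⟩
    exact Nat.find_min hex (m := m - 1) (by omega) h6
  have h4 := congrFun hzero x
  rw [der_eq] at h4
  exact sub_eq_zero.mp h4

end Pool.Agent.Helper48.WT
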