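import Mathlib

/-!
# WT-LU: highest weight vectors and tuples of small rank

`van`. PROOF. For `v : A → Fin D → ℂ` put `F v = ∑ y, (∏ a, v a (y a)) * u y` (multilinear).
(1) INVARIANCE: for `i < j` and `t`, `F v = F v'` where `v' a = v a + t * v a i` in the coordinate
`j` (the other coordinates unchanged). Expand the product over the set `S` of places where
the new term is chosen: the part of degree `k` in `t` is
`∑_{|S| = k} F_S`, and it is `1/k!` times the `k`-fold application of
`(L u) x = ∑_a [x a = i] u (update x a j)`, which is zero for `k ≥ 1` by `hP`.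
(Alternatively: `t ↦ F v'_t` is differentiable with derivative `∑_y ∏ v'_t * (L u) y = 0`.)
(2) Claim for `k ≤ r` (downward induction on `k`): `F (fun a => g (x a)) = 0` for all
`x : A → Fin r` and all `g : Fin r → Fin D → ℂ` such that `g i` is supported on the coordinates
`≤ i` for all `i < k`. For `k = r`: expand; all words `y` occurring have `y a ≤ x a < r`, use `h0`.
From `k + 1` to `k` (`k < r`; if `k ≥ D` the condition for `i = k` is empty, done): if
`g k k ≠ 0` apply (1) with `i = k` and all `j > k`, `t = - g k j / g k k`: the `g i`, `i < k`, do not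
change (their coordinate `k` is zero), the new `g k` is supported on the coordinates `≤ k`. If
`g k k = 0`: replace `g k` by `g k + s e_k`; `F` is a polynomial in `s` (continuous), zero for
`s ≠ 0`, so zero for `s = 0`.
-/

set_option autoImplicit false

namespace Pool.Agent.Helper48.WT

private def FF {A : Type} [Fintype A] [DecidableEq A] {D : ℕ} (u : (A → Fin D) → ℂ)
    (v : A → Fin D → ℂ) : ℂ := ∑ y : A → Fin D, (∏ a, v a (y a)) * u y

/-- the derivative vanishes -/
private lemma FF_sum_zero {A : Type} [Fintype A] [DecidableEq A] {D : ℕ} (u : (A → Fin D) → ℂ)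
    (hP : ∀ i j : Fin D, i < j → ∀ x : A → Fin D,
      ∑ a, (if x a = i then u (Function.update x a j) else 0) = 0)
    (i : Fin D) (w : Fin D → ℂ) (hw : ∀ c, ¬ i < c → w c = 0) (v : A → Fin D → ℂ) :
    ∑ y : A → Fin D, (∑ a, (∏ b ∈ Finset.univ.erase a, v b (y b)) * (w (y a) * v a i)) * u y = 0 := by
  classical
  have key : ∀ a : A, ∑ y : A → Fin D, (∏ b ∈ Finset.univ.erase a, v b (y b)) *
      (w (y a) * v a i) * u y =
      ∑ c : Fin D, w c * ∑ x : A → Fin D, (∏ b, v b (x b)) *
        (if x a = i then u (Function.update x a c) else 0) := by
    intro a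
    have h1 : ∀ c : Fin D, w c * ∑ x : A → Fin D, (∏ b, v b (x b)) *
        (if x a = i then u (Function.update x a c) else 0) =
        ∑ y : A → Fin D, if y a = c then (∏ b ∈ Finset.univ.erase a, v b (y b)) *
          (w (y a) * v a i) * u y else 0 := by
      intro c
      rw [← Finset.sum_filter (fun y : A → Fin D => y a = c), Finset.mul_sum]
      have h2 : ∀ x : A → Fin D, w c * ((∏ b, v b (x b)) *
          (if x a = i then u (Function.update x a c) else 0)) =
          if x a = i then w c * ((∏ b, v b (x b)) * u (Function.update x a c)) else 0 := by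
        intro x
        split_ifs <;> simp
      rw [Finset.sum_congr rfl (fun x _ => h2 x), ← Finset.sum_filter]
      refine Finset.sum_bij' (fun x _ => Function.update x a c) (fun y _ => Function.update y a i)
        ?_ ?_ ?_ ?_ ?_
      · intro x hx
        simp
      · intro y hy
        simp
      · intro x hx
        have hx' : x a = i := (Finset.mem_filter.1 hx).2
        rw [Function.update_idem, ← hx', Function.update_eq_self]
      · intro y hy
        have hy' : y a = c := (Finset.mem_filter.1 hy).2
        rw [Function.update_idem, ← hy', Function.update_eq_self]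
      · intro x hx
        have hx' : x a = i := (Finset.mem_filter.1 hx).2
        rw [Function.update_self, ← Finset.mul_prod_erase Finset.univ (fun b => v b (x b))
          (Finset.mem_univ a)]
        have h3 : ∏ b ∈ Finset.univ.erase a, v b (Function.update x a c b) =
            ∏ b ∈ Finset.univ.erase a, v b (x b) := by
          refine Finset.prod_congr rfl (fun b hb => ?_)
          rw [Function.update_of_ne (Finset.ne_of_mem_erase hb)]
        rw [h3, hx']
        ring
    rw [Finset.sum_congr rfl (fun c _ => h1 c), Finset.sum_comm]
    refine Finset.sum_congr rfl (fun y _ => ?_)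
    rw [Finset.sum_ite_eq]
    simp
  calc ∑ y : A → Fin D, (∑ a, (∏ b ∈ Finset.univ.erase a, v b (y b)) * (w (y a) * v a i)) * u y
      = ∑ y : A → Fin D, ∑ a, (∏ b ∈ Finset.univ.erase a, v b (y b)) * (w (y a) * v a i) * u y := by
        refine Finset.sum_congr rfl (fun y _ => ?_)
        rw [Finset.sum_mul]
    _ = ∑ a, ∑ y : A → Fin D, (∏ b ∈ Finset.univ.erase a, v b (y b)) * (w (y a) * v a i) * u y :=
        Finset.sum_comm
    _ = ∑ a, ∑ c : Fin D, w c * ∑ x : A → Fin D, (∏ b, v b (x b)) *
        (if x a = i then u (Function.update x a c) else 0) :=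
        Finset.sum_congr rfl (fun a _ => key a)
    _ = ∑ c : Fin D, ∑ a, w c * ∑ x : A → Fin D, (∏ b, v b (x b)) *
        (if x a = i then u (Function.update x a c) else 0) := Finset.sum_comm
    _ = ∑ c : Fin D, w c * ∑ x : A → Fin D, (∏ b, v b (x b)) *
        ∑ a, (if x a = i then u (Function.update x a c) else 0) := by
        refine Finset.sum_congr rfl (fun c _ => ?_)
        rw [← Finset.mul_sum, Finset.sum_comm]
        congr 1
        refine Finset.sum_congr rfl (fun x _ => ?_)
        rw [Finset.mul_sum]
    _ = 0 := by
        refine Finset.sum_eq_zero (fun c _ => ?_)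
        by_cases hc : i < c
        · have : ∑ x : A → Fin D, (∏ b, v b (x b)) *
              ∑ a, (if x a = i then u (Function.update x a c) else 0) = 0 := by
            refine Finset.sum_eq_zero (fun x _ => ?_)
            rw [hP i c hc x, mul_zero]
          rw [this, mul_zero]
        · rw [hw c hc, zero_mul]

private lemma FF_invariant {A : Type} [Fintype A] [DecidableEq A] {D : ℕ} (u : (A → Fin D) → ℂ)
    (hP : ∀ i j : Fin D, i < j → ∀ x : A → Fin D,
      ∑ a, (if x a = i then u (Function.update x a j) else 0) = 0)
    (i : Fin D) (w : Fin D → ℂ) (hw : ∀ c, ¬ i < c → w c = 0) (v : A → Fin D → ℂ) :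
    FF u v = FF u (fun a c => v a c + w c * v a i) := by
  classical
  have hwi : w i = 0 := hw i (lt_irrefl i)
  let φ : ℂ → ℂ := fun t => FF u (fun a c => v a c + t * (w c * v a i))
  have hd : ∀ t : ℂ, HasDerivAt φ 0 t := by
    intro t
    have h1 : ∀ y : A → Fin D, HasDerivAt
        (fun t : ℂ => (∏ a, (v a (y a) + t * (w (y a) * v a i))) * u y)
        ((∑ a, (∏ b ∈ Finset.univ.erase a, (v b (y b) + t * (w (y b) * v b i))) •
          (w (y a) * v a i)) * u y) t := by
      intro y
      refine HasDerivAt.mul_const ?_ (u y)
      refine HasDerivAt.fun_finsetProd (fun a _ => ?_)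
      have h2 : HasDerivAt (fun t : ℂ => t * (w (y a) * v a i)) (1 * (w (y a) * v a i)) t :=
        (hasDerivAt_id t).mul_const _
      rw [one_mul] at h2
      exact h2.const_add (v a (y a))
    have h3 : HasDerivAt φ (∑ y : A → Fin D,
        ((∑ a, (∏ b ∈ Finset.univ.erase a, (v b (y b) + t * (w (y b) * v b i))) •
          (w (y a) * v a i)) * u y)) t :=
      HasDerivAt.fun_sum (fun y _ => h1 y)
    have h4 := FF_sum_zero u hP i w hw (fun a c => v a c + t * (w c * v a i))
    have h5 : ∑ y : A → Fin D,
        ((∑ a, (∏ b ∈ Finset.univ.erase a, (v b (y b) + t * (w (y b) * v b i))) •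
          (w (y a) * v a i)) * u y) = 0 := by
      rw [← h4]
      refine Finset.sum_congr rfl (fun y _ => ?_)
      congr 1
      refine Finset.sum_congr rfl (fun a _ => ?_)
      rw [smul_eq_mul]
      simp only [hwi]
      ring
    rw [h5] at h3
    exact h3
  have hdiff : Differentiable ℂ φ := fun t => (hd t).differentiableAt
  have hc := is_const_of_deriv_eq_zero hdiff (fun t => (hd t).deriv) 0 1
  have e0 : φ 0 = FF u v := by simp [φ]
  have e1 : φ 1 = FF u (fun a c => v a c + w c * v a i) := by simp [φ]
  rw [← e0, ← e1]
  exact hc

private lemma FF_claim {A : Type} [Fintype A] [DecidableEq A] {D r : ℕ} (u : (A → Fin D) → ℂ)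
    (hP : ∀ i j : Fin D, i < j → ∀ x : A → Fin D,
      ∑ a, (if x a = i then u (Function.update x a j) else 0) = 0)
    (h0 : ∀ y : A → Fin D, (∀ a, (y a : ℕ) < r) → u y = 0) (x : A → Fin r) :
    ∀ m k : ℕ, m + k = r → ∀ g : Fin r → Fin D → ℂ,
      (∀ i : Fin r, (i : ℕ) < k → ∀ c : Fin D, (i : ℕ) < (c : ℕ) → g i c = 0) →
      FF u (fun a => g (x a)) = 0 := by
  classical
  intro m
  induction m with
  | zero =>
    intro k hk g hg
    have hk' : k = r := by omega
    subst hk'
    refine Finset.sum_eq_zero (fun y _ => ?_)
    by_cases hy : ∀ a, (y a : ℕ) < k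
    · rw [h0 y hy, mul_zero]
    · push Not at hy
      obtain ⟨a, ha⟩ := hy
      have h1 : g (x a) (y a) = 0 := hg (x a) (x a).2 (y a) (lt_of_lt_of_le (x a).2 ha)
      rw [Finset.prod_eq_zero (Finset.mem_univ a) h1, zero_mul]
  | succ m ih =>
    intro k hk g hg
    have ih' := ih (k + 1) (by omega)
    have hkr : k < r := by omega
    by_cases hD : D ≤ k
    · refine ih' g (fun i hi c hc => ?_)
      rcases Nat.lt_succ_iff_lt_or_eq.1 hi with h1 | h1
      · exact hg i h1 c hc
      · exact absurd c.2 (by omega)
    · push Not at hD
      let κ : Fin r := ⟨k, hkr⟩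
      let kD : Fin D := ⟨k, hD⟩
      have case1 : ∀ g : Fin r → Fin D → ℂ,
          (∀ i : Fin r, (i : ℕ) < k → ∀ c : Fin D, (i : ℕ) < (c : ℕ) → g i c = 0) →
          g κ kD ≠ 0 → FF u (fun a => g (x a)) = 0 := by
        intro g hg hne
        let w : Fin D → ℂ := fun c => if kD < c then - g κ c / g κ kD else 0
        have hw : ∀ c, ¬ kD < c → w c = 0 := fun c hc => by simp [w, hc]
        rw [FF_invariant u hP kD w hw (fun a => g (x a))]
        refine ih' (fun i c => g i c + w c * g i kD) (fun i hi c hc => ?_)
        rcases Nat.lt_succ_iff_lt_or_eq.1 hi with h1 | h1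
        · have h2 : g i kD = 0 := hg i h1 kD h1
          rw [hg i h1 c hc, h2, mul_zero, add_zero]
        · have h2 : i = κ := Fin.ext h1
          subst h2
          have h3 : kD < c := by
            rw [Fin.lt_def]; exact hc
          simp only [w, if_pos h3]
          field_simp
          ring
      by_cases hne : g κ kD = 0
      · let G : ℂ → ℂ := fun s => FF u (fun a => (Function.update g κ
          (Function.update (g κ) kD s)) (x a))
        have hcont : Continuous G := by
          unfold G FF
          refine continuous_finsetSum _ (fun y _ => ?_)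
          refine Continuous.mul ?_ continuous_const
          refine continuous_finsetProd _ (fun a _ => ?_)
          by_cases h1 : x a = κ
          · by_cases h2 : y a = kD
            · have : (fun s : ℂ => Function.update g κ (Function.update (g κ) kD s) (x a) (y a)) =
                  fun s => s := by
                funext s
                rw [h1, h2, Function.update_self, Function.update_self]
              rw [this]
              exact continuous_id
            · have : (fun s : ℂ => Function.update g κ (Function.update (g κ) kD s) (x a) (y a)) =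
                  fun s => g κ (y a) := by
                funext s
                rw [h1, Function.update_self, Function.update_of_ne h2]
              rw [this]
              exact continuous_const
          · have : (fun s : ℂ => Function.update g κ (Function.update (g κ) kD s) (x a) (y a)) =
                fun s => g (x a) (y a) := by
              funext s
              rw [Function.update_of_ne h1]
            rw [this]
            exact continuous_const
        have hzero : Set.EqOn G (fun _ => 0) ({0}ᶜ : Set ℂ) := by
          intro s hs
          have hs' : s ≠ 0 := hs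
          refine case1 _ ?_ ?_
          · intro i hi c hc
            have h1 : i ≠ κ := by
              intro h
              rw [h] at hi
              exact lt_irrefl _ hi
            rw [Function.update_of_ne h1]
            exact hg i hi c hc
          · rw [Function.update_self, Function.update_self]
            exact hs'
        have hall := Continuous.ext_on (dense_compl_singleton (0 : ℂ)) hcont continuous_const hzero
        have h2 : G 0 = 0 := congrFun hall 0
        have h3 : Function.update g κ (Function.update (g κ) kD 0) = g := by
          rw [← hne, Function.update_eq_self, Function.update_eq_self]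
        simp only [G, h3] at h2
        exact h2
      · exact case1 g hg hne

theorem van {A : Type} [Fintype A] [DecidableEq A] {D r : ℕ} (u : (A → Fin D) → ℂ)
    (hP : ∀ i j : Fin D, i < j → ∀ x : A → Fin D,
      ∑ a, (if x a = i then u (Function.update x a j) else 0) = 0)
    (h0 : ∀ y : A → Fin D, (∀ a, (y a : ℕ) < r) → u y = 0)
    (x : A → Fin r) (g : Fin r → Fin D → ℂ) :
    ∑ y : A → Fin D, (∏ a, g (x a) (y a)) * u y = 0 :=
  FF_claim u hP h0 x r 0 (by omega) g (fun i hi => absurd hi (Nat.not_lt_zero _))

end Pool.Agent.Helper48.WT
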