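import Pool.Agent.Helper48.WT.Defs

/-!
# WT-POS: the positivity argument

`decouple`. PROOF. For `i < j` outside of `tor` and all words `x`, `P = Pe u i j x = Qe u i j x = Q`,
so `|P|² = conj P * Q`. Sum over `x` and `i < j`:
`∑ |P|² = ∑_x ∑_{i<j} ∑_{a, b} [x a = e_i] [x b = f_j] conj (u (x, a ↦ e_j)) u (x, b ↦ f_i)`.
Here `a ≠ b`. For fixed `a ≠ b` and fixed letters `rest` at the other places put
`v_k = u (rest, a ↦ e_k, b ↦ f_k)`; the term is `conj v_j * v_i` (the words `x` with
`x a = e_i`, `x b = f_j`). So `∑ |P|² = ∑_{a ≠ b} ∑_rest ∑_{i<j} conj v_j * v_i`, and `∑_k v_k = 0`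
(`htr`) gives `0 = |∑ v|² = ∑ |v_k|² + 2 Re ∑_{i<j} conj v_j v_i`. Hence
`∑ |P|² = - 1/2 ∑_{a ≠ b} ∑_rest ∑_k |v_k|²`, and both sides are zero.
(To sum over `rest` use `avg2` of Tensor.lean, i.e. sum over all `x` with the letters at `a`, `b`
replaced; or fix a fibration of words. See `weylT` in Helper60/GC9/WeylT.lean for the analogue.)
-/

set_option autoImplicit false

namespace Pool.Agent.Helper48.WT

open Polynomial Pool.Agent.Helper48.GC8

variable {d : ℕ} {tor : Finset (Fin d)} {ι : Type} [Fintype ι] [DecidableEq ι]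

private lemma pair_sum_h65 (D : Finset (Fin d)) (w : Fin d → ℂ) :
    ∑ i ∈ D, ∑ j ∈ D, (if i < j then star (w j) * w i else 0) +
      ∑ i ∈ D, ∑ j ∈ D, (if i < j then star (w i) * w j else 0) +
      ∑ k ∈ D, star (w k) * w k = star (∑ k ∈ D, w k) * ∑ k ∈ D, w k := by
  rw [star_sum, Finset.sum_mul_sum]
  have h1 : ∑ i ∈ D, ∑ j ∈ D, (if i < j then star (w j) * w i else 0) =
      ∑ i ∈ D, ∑ j ∈ D, (if j < i then star (w i) * w j else 0) := Finset.sum_comm
  have h2 : ∑ k ∈ D, star (w k) * w k =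
      ∑ i ∈ D, ∑ j ∈ D, (if i = j then star (w i) * w j else 0) := by
    refine Finset.sum_congr rfl fun i hi => ?_
    rw [Finset.sum_ite_eq, if_pos hi]
  rw [h1, h2, ← Finset.sum_add_distrib, ← Finset.sum_add_distrib]
  refine Finset.sum_congr rfl fun i _ => ?_
  rw [← Finset.sum_add_distrib, ← Finset.sum_add_distrib]
  refine Finset.sum_congr rfl fun j _ => ?_
  rcases lt_trichotomy i j with h | h | h
  · simp [h, h.not_gt, h.ne]
  · simp [h]
  · simp [h, h.not_gt, h.ne']

private lemma step_h65 {X A : Type} [Fintype X] [Fintype A] (D : Finset (Fin d))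
    (G : X → Fin d → Fin d → A → ℂ) :
    ∑ x, ∑ i ∈ D, ∑ j ∈ D, ∑ a, G x i j a = ∑ a, ∑ x, ∑ i ∈ D, ∑ j ∈ D, G x i j a := by
  calc ∑ x, ∑ i ∈ D, ∑ j ∈ D, ∑ a, G x i j a = ∑ x, ∑ i ∈ D, ∑ a, ∑ j ∈ D, G x i j a :=
        Finset.sum_congr rfl fun x _ => Finset.sum_congr rfl fun i _ => Finset.sum_comm
    _ = ∑ x, ∑ a, ∑ i ∈ D, ∑ j ∈ D, G x i j a :=
        Finset.sum_congr rfl fun x _ => Finset.sum_comm
    _ = ∑ a, ∑ x, ∑ i ∈ D, ∑ j ∈ D, G x i j a := Finset.sum_comm

private lemma step2_h65 {X A : Type} [Fintype X] [Fintype A] (D : Finset (Fin d))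
    (F : X → Fin d → Fin d → A → A → ℂ) :
    ∑ x, ∑ i ∈ D, ∑ j ∈ D, ∑ a, ∑ b, F x i j a b =
      ∑ a, ∑ b, ∑ x, ∑ i ∈ D, ∑ j ∈ D, F x i j a b := by
  rw [step_h65 D (fun x i j a => ∑ b, F x i j a b)]
  exact Finset.sum_congr rfl fun a _ => step_h65 D (fun x i j b => F x i j a b)

open scoped ComplexOrder in
open Function in
theorem decouple (u : Ten ι (Le d))
    (h : ∀ i j, i < j → i ∉ tor → j ∉ tor → ∀ x, Pe u i j x = Qe u i j x)
    (htr : ∀ a b : ι, a ≠ b → ∀ x,
      ∑ i ∈ torᶜ, u (Function.update (Function.update x a (Sum.inl i)) b (Sum.inr i)) = 0) :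
    (∀ i j, i < j → i ∉ tor → j ∉ tor → ∀ x, Pe u i j x = 0) ∧
      ∀ a b : ι, a ≠ b → ∀ i ∉ tor, ∀ x,
        u (Function.update (Function.update x a (Sum.inl i)) b (Sum.inr i)) = 0 := by
  by_cases hd : Nonempty (Fin d)
  swap
  · exact ⟨fun i => absurd ⟨i⟩ hd, fun a b _ i => absurd ⟨i⟩ hd⟩
  let D : Finset (Fin d) := torᶜ
  let w : ι → ι → (ι → Le d) → Fin d → ℂ := fun a b x k =>
    u (update (update x a (Sum.inl k)) b (Sum.inr k))
  let S : ι → ι → ℂ := fun a b => ∑ x, ∑ i ∈ D, ∑ j ∈ D,
    (if i < j then star (if x a = Sum.inl i then u (update x a (Sum.inl j)) else 0) *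
      (if x b = Sum.inr j then u (update x b (Sum.inr i)) else 0) else 0)
  let Q : ι → ι → ℂ := fun a b => ∑ x, ∑ k ∈ D, star (w a b x k) * w a b x k
  let T : ℂ := ∑ x, ∑ i ∈ D, ∑ j ∈ D, (if i < j then star (Pe u i j x) * Pe u i j x else 0)
  let N : ℕ := Fintype.card (Le d) * Fintype.card (Le d)
  have hN0 : 0 < N := Nat.mul_pos Fintype.card_pos Fintype.card_pos
  have hQ0 : ∀ a b, 0 ≤ Q a b := fun a b => Finset.sum_nonneg fun x _ =>
    Finset.sum_nonneg fun k _ => star_mul_self_nonneg _
  have hTt : ∀ (x : ι → Le d) (i j : Fin d),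
      (0 : ℂ) ≤ if i < j then star (Pe u i j x) * Pe u i j x else 0 := by
    intro x i j
    split_ifs
    · exact star_mul_self_nonneg _
    · exact le_rfl
  have hT0 : 0 ≤ T := Finset.sum_nonneg fun x _ => Finset.sum_nonneg fun i _ =>
    Finset.sum_nonneg fun j _ => hTt x i j
  -- the expansion
  have hTS : T = ∑ a, ∑ b, S a b := by
    simp only [S]
    rw [← step2_h65 D (fun (x : ι → Le d) i j a b =>
      (if i < j then star (if x a = Sum.inl i then u (update x a (Sum.inl j)) else 0) *
      (if x b = Sum.inr j then u (update x b (Sum.inr i)) else 0) else 0))]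
    refine Finset.sum_congr rfl fun x _ => Finset.sum_congr rfl fun i hi =>
      Finset.sum_congr rfl fun j hj => ?_
    by_cases hij : i < j
    · simp only [if_pos hij]
      have h1 := h i j hij (Finset.mem_compl.1 hi) (Finset.mem_compl.1 hj) x
      have h2 : star (Pe u i j x) * Pe u i j x = star (Pe u i j x) * Qe u i j x := by rw [h1]
      rw [h2]
      unfold Pe Qe
      rw [star_sum, Finset.sum_mul_sum]
    · simp only [if_neg hij, Finset.sum_const_zero]
  have hSaa : ∀ a, S a a = 0 := by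
    intro a
    refine Finset.sum_eq_zero fun x _ => Finset.sum_eq_zero fun i _ =>
      Finset.sum_eq_zero fun j _ => ?_
    by_cases hx : x a = Sum.inl i
    · rw [if_neg (show ¬ x a = Sum.inr j by rw [hx]; exact Sum.inl_ne_inr), mul_zero, ite_self]
    · rw [if_neg hx, star_zero, zero_mul, ite_self]
  have hS : ∀ a b, a ≠ b → (N : ℂ) * S a b = ∑ x, ∑ i ∈ D, ∑ j ∈ D,
      (if i < j then star (w a b x j) * w a b x i else 0) := by
    intro a b hab
    rw [← nsmul_eq_mul]
    simp only [S, N]
    rw [← avg2 a b]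
    refine Finset.sum_congr rfl fun x _ => ?_
    have h5 : ∀ r s : Le d, ∑ i ∈ D, ∑ j ∈ D, (if i < j then
          star (if update (update x a r) b s a = Sum.inl i then
            u (update (update (update x a r) b s) a (Sum.inl j)) else 0) *
          (if update (update x a r) b s b = Sum.inr j then
            u (update (update (update x a r) b s) b (Sum.inr i)) else 0) else 0) =
        ∑ i ∈ D, ∑ j ∈ D, (if r = Sum.inl i then (if s = Sum.inr j then
            (if i < j then star (w a b x j) * w a b x i else 0) else 0) else 0) := by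
      intro r s
      refine Finset.sum_congr rfl fun i _ => Finset.sum_congr rfl fun j _ => ?_
      rw [update_self, update_of_ne hab, update_self]
      by_cases hr : r = Sum.inl i
      · by_cases hs : s = Sum.inr j
        · simp only [if_pos hr, if_pos hs, w]
          rw [hr, hs, update_comm hab.symm (Sum.inr j) (Sum.inl j) (update x a (Sum.inl i)),
            update_idem, update_idem]
        · simp [hs]
      · simp [hr]
    simp only [h5]
    rw [Finset.sum_congr rfl fun r _ => Finset.sum_comm]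
    rw [Finset.sum_comm]
    refine Finset.sum_congr rfl fun i _ => ?_
    rw [Finset.sum_congr rfl fun r _ => Finset.sum_congr rfl fun s _ => rfl]
    rw [Finset.sum_eq_single (Sum.inl i)]
    · rw [Finset.sum_comm]
      refine Finset.sum_congr rfl fun j _ => ?_
      rw [Finset.sum_eq_single (Sum.inr j)]
      · simp
      · intro s _ hs
        simp [hs]
      · intro hh; exact absurd (Finset.mem_univ _) hh
    · intro r _ hr
      simp [hr]
    · intro hh; exact absurd (Finset.mem_univ _) hh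
  have hSQ : ∀ a b, a ≠ b → (N : ℂ) * (S a b + star (S a b)) = - Q a b := by
    intro a b hab
    have h1 := hS a b hab
    have h2 : (N : ℂ) * star (S a b) = ∑ x, ∑ i ∈ D, ∑ j ∈ D,
        (if i < j then star (w a b x i) * w a b x j else 0) := by
      have h3 : (N : ℂ) * star (S a b) = star ((N : ℂ) * S a b) := by
        rw [star_mul', star_natCast]
      rw [h3, h1, star_sum]
      refine Finset.sum_congr rfl fun x _ => ?_
      rw [star_sum]
      refine Finset.sum_congr rfl fun i _ => ?_
      rw [star_sum]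
      refine Finset.sum_congr rfl fun j _ => ?_
      by_cases hij : i < j
      · simp only [if_pos hij]
        rw [star_mul', star_star, mul_comm]
      · simp only [if_neg hij, star_zero]
    rw [mul_add, h1, h2]
    simp only [Q]
    rw [← Finset.sum_add_distrib, ← Finset.sum_neg_distrib]
    refine Finset.sum_congr rfl fun x _ => ?_
    have h4 := pair_sum_h65 D (w a b x)
    have h5 : ∑ k ∈ D, w a b x k = 0 := htr a b hab x
    rw [h5, mul_zero] at h4
    linear_combination h4
  have hTr : star T = T := Complex.conj_eq_iff_im.2 (Complex.le_def.1 hT0).2.symm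
  have hmain : (N : ℂ) * (T + T) = - ∑ a, ∑ b, (if a = b then 0 else Q a b) := by
    have h1 : T + T = ∑ a, ∑ b, (S a b + star (S a b)) := by
      have h2 : T + star T = T + T := by rw [hTr]
      rw [← h2, hTS, star_sum, ← Finset.sum_add_distrib]
      refine Finset.sum_congr rfl fun a _ => ?_
      rw [star_sum, ← Finset.sum_add_distrib]
    rw [h1, Finset.mul_sum, ← Finset.sum_neg_distrib]
    refine Finset.sum_congr rfl fun a _ => ?_
    rw [Finset.mul_sum, ← Finset.sum_neg_distrib]
    refine Finset.sum_congr rfl fun b _ => ?_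
    by_cases hab : a = b
    · subst hab
      rw [if_pos rfl, hSaa]
      simp
    · rw [if_neg hab]
      exact hSQ a b hab
  have hR0 : ∀ a b, (0 : ℂ) ≤ (if a = b then 0 else Q a b) := by
    intro a b
    split_ifs
    · exact le_rfl
    · exact hQ0 a b
  have hNc : (0 : ℂ) ≤ (N : ℂ) := by exact_mod_cast hN0.le
  have hl : (0 : ℂ) ≤ (N : ℂ) * (T + T) := mul_nonneg hNc (add_nonneg hT0 hT0)
  have hr : (0 : ℂ) ≤ ∑ a, ∑ b, (if a = b then 0 else Q a b) :=
    Finset.sum_nonneg fun a _ => Finset.sum_nonneg fun b _ => hR0 a b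
  have hr0 : ∑ a, ∑ b, (if a = b then 0 else Q a b) = 0 := by
    rw [hmain] at hl
    exact le_antisymm (by simpa using hl) hr
  have hT00 : T = 0 := by
    rw [hr0, neg_zero] at hmain
    have h1 : (N : ℂ) ≠ 0 := by exact_mod_cast hN0.ne'
    have h2 := (mul_eq_zero.1 hmain).resolve_left h1
    have h3 : (2 : ℂ) * T = 0 := by rw [two_mul]; exact h2
    exact (mul_eq_zero.1 h3).resolve_left two_ne_zero
  constructor
  · intro i j hij hi hj x
    have h1 := (Finset.sum_eq_zero_iff_of_nonneg (fun x _ => Finset.sum_nonneg fun i _ =>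
      Finset.sum_nonneg fun j _ => hTt x i j)).1 hT00 x (Finset.mem_univ _)
    have h2 := (Finset.sum_eq_zero_iff_of_nonneg (fun i _ =>
      Finset.sum_nonneg fun j _ => hTt x i j)).1 h1 i (Finset.mem_compl.2 hi)
    have h3 := (Finset.sum_eq_zero_iff_of_nonneg (fun j _ => hTt x i j)).1 h2 j
      (Finset.mem_compl.2 hj)
    rw [if_pos hij, mul_eq_zero] at h3
    rcases h3 with h3 | h3
    · exact star_eq_zero.1 h3
    · exact h3
  · intro a b hab i hi x
    have h1 := (Finset.sum_eq_zero_iff_of_nonneg (fun a _ => Finset.sum_nonneg fun b _ =>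
      hR0 a b)).1 hr0 a (Finset.mem_univ _)
    have h2 := (Finset.sum_eq_zero_iff_of_nonneg (fun b _ => hR0 a b)).1 h1 b (Finset.mem_univ _)
    rw [if_neg hab] at h2
    have h3 := (Finset.sum_eq_zero_iff_of_nonneg (fun x _ => Finset.sum_nonneg fun k _ =>
      star_mul_self_nonneg (w a b x k))).1 h2 x (Finset.mem_univ _)
    have h4 := (Finset.sum_eq_zero_iff_of_nonneg (fun k _ =>
      star_mul_self_nonneg (w a b x k))).1 h3 i (Finset.mem_compl.2 hi)
    rw [mul_eq_zero] at h4
    rcases h4 with h4 | h4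
    · exact star_eq_zero.1 h4
    · exact h4

end Pool.Agent.Helper48.WT
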