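import Mathlib

/-!
# WT-SFT: the multilinear second fundamental theorem

`sft`. PROOF. Take `A = Fin N` (transport along an equivalence) and order the words `A → Fin D`
lexicographically. For a word `y` the level of the place `a` is the length of the longest
sequence `a_0 < .. < a_k = a` of places with `y a_0 < .. < y a_k`.
Let `I` be the span of the tensors `alt a l x = ∑ σ, sign σ • (indicator of the word
extend a (l ∘ σ) x)`, `a` and `l` injective maps on `Fin (r + 1)`. By `hanti` (bilinear pairing
`∑ y, i y * u y`) `u` is orthogonal to `I`.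
(1) Every `u` is in `I + {tensors supported on words with all levels ≤ r}`: if `y` has a place of
level `≥ r + 1` there are places `a_0 < .. < a_r` with `y a_0 < .. < y a_r`; `alt a (y ∘ a) y` is
the indicator of `y` plus/minus indicators of lexicographically LARGER words (at the first place
`a_k` moved by `σ` the letter becomes larger). Descending induction on the finite linear order.
(2) If `u'` is supported on words with all levels `≤ r` and
`∑ y, (∏ a, g (x a) (y a)) * u' y = 0` for all `x`, `g`, then `u' = 0`: otherwise take the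
lexicographically SMALLEST `y` with `u' y ≠ 0` and `x a = level of a` minus one, in `Fin r`
(if `r = 0` there are no places). The polynomial identity in `g` (`MvPolynomial.funext`) gives
`∑ u' y' = 0`, the sum over the words `y'` with the same number of `(x a, y' a) = (k, l)` for all
`k`, `l`, i.e. rearrangements of `y` inside the classes `x = k`. On a class `y` is weakly
decreasing (two places `a < b` of the same level cannot have `y a < y b`), so every `y' ≠ y` is
lexicographically smaller than `y` (at the first place where they differ `y a` is the maximum of the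
remaining letters of its class), hence `u' y' = 0`, and `u' y = 0`.
(3) Write `u = i + u'`. The elements `alt` of `I` satisfy the identity of `hvan` (two of the `r + 1`
places have the same value of `x`, so the signed sum vanishes), hence `u'` does, `u' = 0`,
`u = i ∈ I`. `I` is stable under complex conjugation, so `∑ y, conj (u y) * u y = 0`, `u = 0`.
-/

set_option autoImplicit false

namespace Pool.Agent.Helper48.WT

section Aux

variable {A : Type} [Fintype A] [LinearOrder A] {D : ℕ}

private noncomputable def alt {n : ℕ} (a : Fin n → A) (l : Fin n → Fin D) (x : A → Fin D) :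
    (A → Fin D) → ℂ :=
  ∑ σ : Equiv.Perm (Fin n), ((Equiv.Perm.sign σ : ℤ) : ℂ) •
    (Pi.single (Function.extend a (fun k => l (σ k)) x) (1 : ℂ) : (A → Fin D) → ℂ)

private theorem sum_alt {n : ℕ} (a : Fin n → A) (l : Fin n → Fin D) (x : A → Fin D)
    (f : (A → Fin D) → ℂ) :
    ∑ y, f y * alt a l x y = ∑ σ : Equiv.Perm (Fin n), ((Equiv.Perm.sign σ : ℤ) : ℂ) *
      f (Function.extend a (fun k => l (σ k)) x) := by
  unfold alt
  simp only [Finset.sum_apply, Pi.smul_apply, smul_eq_mul, Finset.mul_sum]
  rw [Finset.sum_comm]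
  refine Finset.sum_congr rfl fun σ _ => ?_
  rw [Finset.sum_eq_single (Function.extend a (fun k => l (σ k)) x)]
  · rw [Pi.single_eq_same]; ring
  · intro b _ hb
    rw [Pi.single_eq_of_ne hb]; ring
  · intro h; exact absurd (Finset.mem_univ _) h

private theorem star_alt {n : ℕ} (a : Fin n → A) (l : Fin n → Fin D) (x y : A → Fin D) :
    (starRingEnd ℂ) (alt a l x y) = alt a l x y := by
  unfold alt
  simp only [Finset.sum_apply, Pi.smul_apply, smul_eq_mul, map_sum, map_mul, map_intCast]
  refine Finset.sum_congr rfl fun σ _ => ?_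
  congr 1
  by_cases h : y = Function.extend a (fun k => l (σ k)) x
  · subst h
    rw [Pi.single_eq_same, map_one]
  · rw [Pi.single_eq_of_ne h, map_zero]

private theorem extend_swap {n : ℕ} {β : Type} (a : Fin n → A) (ha : Function.Injective a)
    (f : Fin n → β) (x : A → β) (k k' : Fin n) (b : A) :
    Function.extend a (fun j => f (Equiv.swap k k' j)) x b =
      Function.extend a f x (Equiv.swap (a k) (a k') b) := by
  by_cases hb : ∃ j, a j = b
  · obtain ⟨j, rfl⟩ := hb
    rw [ha.extend_apply, ← ha.map_swap, ha.extend_apply]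
  · rw [Function.extend_apply' _ _ _ hb]
    have h1 : b ≠ a k := fun h => hb ⟨k, h.symm⟩
    have h2 : b ≠ a k' := fun h => hb ⟨k', h.symm⟩
    rw [Equiv.swap_apply_of_ne_of_ne h1 h2, Function.extend_apply' _ _ _ hb]

private theorem van_alt {r : ℕ} (a : Fin (r + 1) → A) (ha : Function.Injective a)
    (l : Fin (r + 1) → Fin D) (x₀ : A → Fin D) (x : A → Fin r) (g : Fin r → Fin D → ℂ) :
    ∑ y : A → Fin D, (∏ b, g (x b) (y b)) * alt a l x₀ y = 0 := by
  rw [sum_alt a l x₀ (fun y => ∏ b, g (x b) (y b))]
  obtain ⟨k, k', hkk, hx⟩ := Fintype.exists_ne_map_eq_of_card_lt (fun j => x (a j)) (by simp)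
  have key : ∑ σ : Equiv.Perm (Fin (r + 1)), ((Equiv.Perm.sign σ : ℤ) : ℂ) *
      ∏ b, g (x b) (Function.extend a (fun k => l (σ k)) x₀ b) =
      -∑ σ : Equiv.Perm (Fin (r + 1)), ((Equiv.Perm.sign σ : ℤ) : ℂ) *
      ∏ b, g (x b) (Function.extend a (fun k => l (σ k)) x₀ b) := by
    rw [← Finset.sum_neg_distrib]
    rw [← Equiv.sum_comp (Equiv.mulRight (Equiv.swap k k'))]
    refine Finset.sum_congr rfl fun σ _ => ?_
    have h1 : ((Equiv.Perm.sign (Equiv.mulRight (Equiv.swap k k') σ) : ℤ) : ℂ) =
        -((Equiv.Perm.sign σ : ℤ) : ℂ) := by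
      simp [Equiv.Perm.sign_mul, Equiv.Perm.sign_swap hkk]
    have h2 : ∏ b, g (x b) (Function.extend a
        (fun j => l ((Equiv.mulRight (Equiv.swap k k') σ) j)) x₀ b) =
        ∏ b, g (x b) (Function.extend a (fun k => l (σ k)) x₀ b) := by
      rw [← Equiv.prod_comp (Equiv.swap (a k) (a k'))
        (fun b => g (x b) (Function.extend a (fun k => l (σ k)) x₀ b))]
      refine Finset.prod_congr rfl fun b _ => ?_
      have h3 : x (Equiv.swap (a k) (a k') b) = x b := by
        by_cases h : b = a k
        · subst h; rw [Equiv.swap_apply_left]; exact hx.symm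
        · by_cases h' : b = a k'
          · subst h'; rw [Equiv.swap_apply_right]; exact hx
          · rw [Equiv.swap_apply_of_ne_of_ne h h']
      have h4 := extend_swap a ha (fun j => l (σ j)) x₀ k k' b
      rw [h3, ← h4]
      rfl
    rw [h1, h2]; ring
  exact self_eq_neg.mp key

private theorem lt_extend {n : ℕ} (y : A → Fin D) (s : Fin n → A) (hs : StrictMono s)
    (hy : StrictMono (y ∘ s)) (σ : Equiv.Perm (Fin n)) (hσ : σ ≠ 1) :
    toLex y < toLex (Function.extend s (fun k => y (s (σ k))) y) := by
  obtain ⟨k, hk, hmin⟩ := WellFounded.has_min (wellFounded_lt (α := Fin n)) {k | σ k ≠ k} (by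
    by_contra h
    rw [Set.not_nonempty_iff_eq_empty] at h
    refine hσ (Equiv.ext fun k => ?_)
    by_contra hk
    have : k ∈ ({k | σ k ≠ k} : Set (Fin n)) := hk
    rw [h] at this
    exact this)
  have hfix : ∀ j, j < k → σ j = j := by
    intro j hj
    by_contra h
    exact hmin j h hj
  have hlt : k < σ k := by
    rcases lt_trichotomy (σ k) k with h | h | h
    · exact absurd (σ.injective (hfix _ h)) hk
    · exact absurd h hk
    · exact h
  refine ⟨s k, ?_, ?_⟩
  · intro j hj
    change y j = Function.extend s (fun k => y (s (σ k))) y j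
    by_cases hb : ∃ i, s i = j
    · obtain ⟨i, rfl⟩ := hb
      rw [hs.injective.extend_apply, hfix i (hs.lt_iff_lt.mp hj)]
    · rw [Function.extend_apply' _ _ _ hb]
  · change y (s k) < Function.extend s (fun k => y (s (σ k))) y (s k)
    rw [hs.injective.extend_apply]
    exact hy hlt

private def High (r : ℕ) (y : A → Fin D) : Prop :=
  ∃ s : Fin (r + 1) → A, StrictMono s ∧ StrictMono (y ∘ s)

private theorem low_of_not_high {r : ℕ} (y : A → Fin D) (h : ¬ High r y) :
    ∃ x : A → Fin r, ∀ a b, a < b → x a = x b → y b ≤ y a := by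
  classical
  let Ch : A → ℕ → Prop := fun a k =>
    ∃ s : Fin (k + 1) → A, StrictMono s ∧ StrictMono (y ∘ s) ∧ s 0 = a
  have h0 : ∀ a, Ch a 0 := by
    intro a
    refine ⟨fun _ => a, ?_, ?_, rfl⟩
    · intro i j hij; exact absurd (Fin.lt_def.mp hij) (by have := i.2; have := j.2; omega)
    · intro i j hij; exact absurd (Fin.lt_def.mp hij) (by have := i.2; have := j.2; omega)
  have hstep : ∀ a b k, a < b → y a < y b → Ch b k → Ch a (k + 1) := by
    rintro a b k hab hyab ⟨s, hs, hys, rfl⟩
    refine ⟨Matrix.vecCons a s, hs.vecCons hab, ?_, rfl⟩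
    have h1 : y ∘ Matrix.vecCons a s = Matrix.vecCons (y a) (y ∘ s) := by
      ext i
      refine Fin.cases ?_ (fun j => ?_) i <;> simp
    rw [h1]
    exact hys.vecCons hyab
  have hr : ∀ a, ¬ Ch a r := by
    rintro a ⟨s, hs, hys, -⟩
    exact h ⟨s, hs, hys⟩
  have hspec : ∀ a, Ch a (Nat.findGreatest (Ch a) r) := fun a =>
    Nat.findGreatest_spec (Nat.zero_le r) (h0 a)
  have hlt : ∀ a, Nat.findGreatest (Ch a) r < r := by
    intro a
    refine lt_of_le_of_ne (Nat.findGreatest_le r) ?_
    intro he
    have := hspec a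
    rw [he] at this
    exact hr a this
  refine ⟨fun a => ⟨Nat.findGreatest (Ch a) r, hlt a⟩, ?_⟩
  intro a b hab hx
  by_contra hcon
  push Not at hcon
  have h1 := hstep a b _ hab hcon (hspec b)
  have h2 : Nat.findGreatest (Ch b) r + 1 ≤ Nat.findGreatest (Ch a) r :=
    Nat.le_findGreatest (hlt b) h1
  have h3 : Nat.findGreatest (Ch a) r = Nat.findGreatest (Ch b) r := by
    have := congrArg Fin.val hx
    simpa using this
  omega

private def Lo (r : ℕ) : Submodule ℂ ((A → Fin D) → ℂ) where
  carrier := {w | ∀ y, High r y → w y = 0}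
  add_mem' := by
    intro a b ha hb y hy
    simp [ha y hy, hb y hy]
  zero_mem' := by intro y _; rfl
  smul_mem' := by
    intro c a ha y hy
    simp [ha y hy]

private def Ia (r : ℕ) : Submodule ℂ ((A → Fin D) → ℂ) :=
  Submodule.span ℂ {w | ∃ (a : Fin (r + 1) → A) (l : Fin (r + 1) → Fin D) (x : A → Fin D),
    Function.Injective a ∧ Function.Injective l ∧ w = alt a l x}

private theorem single_mem (r : ℕ) (y : Lex (A → Fin D)) :
    (Pi.single (ofLex y) (1 : ℂ) : (A → Fin D) → ℂ) ∈ (Ia r ⊔ Lo r :
      Submodule ℂ ((A → Fin D) → ℂ)) := by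
  induction y using WellFoundedGT.induction with
  | ind y ih =>
  by_cases hy : High r (ofLex y)
  · obtain ⟨s, hs, hys⟩ := hy
    have h1 : alt s ((ofLex y) ∘ s) (ofLex y) ∈ (Ia r ⊔ Lo r :
        Submodule ℂ ((A → Fin D) → ℂ)) :=
      Submodule.mem_sup_left (Submodule.subset_span ⟨s, _, _, hs.injective, hys.injective, rfl⟩)
    have h2 := Finset.add_sum_erase Finset.univ (fun σ : Equiv.Perm (Fin (r + 1)) =>
      ((Equiv.Perm.sign σ : ℤ) : ℂ) • (Pi.single (Function.extend s
        (fun k => ((ofLex y) ∘ s) (σ k)) (ofLex y)) (1 : ℂ) : (A → Fin D) → ℂ))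
        (Finset.mem_univ 1)
    have h3 : Function.extend s (fun k => ((ofLex y) ∘ s) ((1 : Equiv.Perm (Fin (r + 1))) k))
        (ofLex y) = ofLex y := by
      ext b
      by_cases hb : ∃ j, s j = b
      · obtain ⟨j, rfl⟩ := hb
        rw [hs.injective.extend_apply]; rfl
      · rw [Function.extend_apply' _ _ _ hb]
    change _ = alt s ((ofLex y) ∘ s) (ofLex y) at h2
    simp only [h3, Equiv.Perm.sign_one, Units.val_one, Int.cast_one, one_smul] at h2
    rw [← h2] at h1
    refine (Submodule.add_mem_iff_left _ ?_).mp h1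
    refine Submodule.sum_mem _ fun σ hσ => Submodule.smul_mem _ _ ?_
    exact ih _ (lt_extend (ofLex y) s hs hys σ (Finset.ne_of_mem_erase hσ))
  · refine Submodule.mem_sup_right ?_
    intro z hz
    have : z ≠ ofLex y := by
      rintro rfl
      exact hy hz
    rw [Pi.single_eq_of_ne this]

private theorem all_mem (r : ℕ) (w : (A → Fin D) → ℂ) : w ∈ (Ia r ⊔ Lo r :
      Submodule ℂ ((A → Fin D) → ℂ)) := by
  have h : w = ∑ y, w y • (Pi.single y (1 : ℂ) : (A → Fin D) → ℂ) := by
    ext z
    simp only [Finset.sum_apply, Pi.smul_apply, smul_eq_mul]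
    rw [Finset.sum_eq_single z]
    · rw [Pi.single_eq_same, mul_one]
    · intro b _ hb
      rw [Pi.single_eq_of_ne hb.symm, mul_zero]
    · intro h; exact absurd (Finset.mem_univ _) h
  rw [h]
  exact Submodule.sum_mem _ fun y _ => Submodule.smul_mem _ _ (single_mem r (toLex y))

private theorem lt_of_count {r : ℕ} (y z : A → Fin D) (x : A → Fin r)
    (hx : ∀ a b, a < b → x a = x b → y b ≤ y a)
    (hc : ∀ k c, (Finset.univ.filter fun a => x a = k ∧ z a = c).card =
      (Finset.univ.filter fun a => x a = k ∧ y a = c).card) (hne : z ≠ y) :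
    toLex z < toLex y := by
  obtain ⟨a, ha, hmin⟩ := WellFounded.has_min (wellFounded_lt (α := A)) {a | z a ≠ y a} (by
    by_contra h
    rw [Set.not_nonempty_iff_eq_empty] at h
    refine hne (funext fun k => ?_)
    by_contra hk
    have : k ∈ ({a | z a ≠ y a} : Set A) := hk
    rw [h] at this
    exact this)
  have hfix : ∀ j, j < a → z j = y j := by
    intro j hj
    by_contra h
    exact hmin j h hj
  refine ⟨a, fun j hj => hfix j hj, ?_⟩
  change z a < y a
  refine lt_of_le_of_ne ?_ ha
  by_contra hcon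
  have h1 : ∀ b, x b = x a → y b = z a → b < a := by
    intro b hb1 hb2
    by_contra hba
    rcases lt_or_eq_of_le (not_lt.mp hba) with h | h
    · have := hx a b h hb1.symm
      rw [hb2] at this
      exact hcon this
    · subst h
      exact hcon hb2.symm.le
  have h2 : (Finset.univ.filter fun b => x b = x a ∧ y b = z a) ⊂
      (Finset.univ.filter fun b => x b = x a ∧ z b = z a) := by
    rw [Finset.ssubset_iff_of_subset]
    · refine ⟨a, by simp, ?_⟩
      intro h
      rw [Finset.mem_filter] at h
      exact absurd (h1 a rfl h.2.2) (lt_irrefl a)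
    · intro b hb
      rw [Finset.mem_filter] at hb ⊢
      refine ⟨hb.1, hb.2.1, ?_⟩
      rw [hfix b (h1 b hb.2.1 hb.2.2)]
      exact hb.2.2
  have h3 := Finset.card_lt_card h2
  rw [hc (x a) (z a)] at h3
  exact absurd h3 (lt_irrefl _)

private theorem count_eq {r : ℕ} (x : A → Fin r) (y z : A → Fin D)
    (h : (∑ a, Finsupp.single (x a, z a) 1 : Fin r × Fin D →₀ ℕ) =
      ∑ a, Finsupp.single (x a, y a) 1) (k : Fin r) (c : Fin D) :
    (Finset.univ.filter fun a => x a = k ∧ z a = c).card =
      (Finset.univ.filter fun a => x a = k ∧ y a = c).card := by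
  have h1 := DFunLike.congr_fun h (k, c)
  simp only [Finsupp.finsetSum_apply, Finsupp.single_apply, Prod.mk.injEq] at h1
  rw [Finset.card_filter, Finset.card_filter]
  exact h1

private theorem low_zero {r : ℕ} (v : (A → Fin D) → ℂ) (hlo : v ∈ Lo (A := A) (D := D) r)
    (hvan : ∀ (x : A → Fin r) (g : Fin r → Fin D → ℂ),
      ∑ y : A → Fin D, (∏ a, g (x a) (y a)) * v y = 0) : v = 0 := by
  by_contra hv
  obtain ⟨y, hy, hmin⟩ := WellFounded.has_min (wellFounded_lt (α := Lex (A → Fin D)))
    {y | v (ofLex y) ≠ 0} (by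
      by_contra h
      rw [Set.not_nonempty_iff_eq_empty] at h
      refine hv (funext fun k => ?_)
      by_contra hk
      have : toLex k ∈ ({y | v (ofLex y) ≠ 0} : Set (Lex (A → Fin D))) := hk
      rw [h] at this
      exact this)
  have hnh : ¬ High r (ofLex y) := fun h => hy (hlo _ h)
  obtain ⟨x, hx⟩ := low_of_not_high _ hnh
  have hP : (∑ z : A → Fin D, MvPolynomial.monomial
      (∑ a, Finsupp.single (x a, z a) 1) (v z) : MvPolynomial (Fin r × Fin D) ℂ) = 0 := by
    apply MvPolynomial.funext
    intro g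
    rw [map_zero, map_sum, ← hvan x (fun k c => g (k, c))]
    refine Finset.sum_congr rfl fun z _ => ?_
    have h1 : (MvPolynomial.monomial (∑ a, Finsupp.single (x a, z a) 1) (v z) :
        MvPolynomial (Fin r × Fin D) ℂ) = MvPolynomial.C (v z) *
          ∏ a, MvPolynomial.X (x a, z a) := by
      have h2 : (∏ a, MvPolynomial.X (x a, z a) : MvPolynomial (Fin r × Fin D) ℂ) =
          MvPolynomial.monomial (∑ a, Finsupp.single (x a, z a) 1) 1 := by
        rw [MvPolynomial.monomial_sum_one]
        rfl
      rw [h2, MvPolynomial.C_mul_monomial, mul_one]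
    rw [h1]
    simp only [map_mul, map_prod, MvPolynomial.eval_C, MvPolynomial.eval_X]
    ring
  have hcoef := congrArg (MvPolynomial.coeff (∑ a, Finsupp.single (x a, (ofLex y) a) 1)) hP
  rw [MvPolynomial.coeff_zero, MvPolynomial.coeff_sum] at hcoef
  rw [Finset.sum_eq_single (ofLex y)] at hcoef
  · rw [MvPolynomial.coeff_monomial, if_pos rfl] at hcoef
    exact hy hcoef
  · intro z _ hz
    rw [MvPolynomial.coeff_monomial]
    split_ifs with h
    · have h1 := lt_of_count (ofLex y) z x hx (count_eq x (ofLex y) z h) hz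
      by_contra h2
      exact hmin (toLex z) h2 h1
    · rfl
  · intro h; exact absurd (Finset.mem_univ _) h

private theorem sft_aux {r : ℕ} (u : (A → Fin D) → ℂ)
    (hanti : ∀ a : Fin (r + 1) → A, Function.Injective a → ∀ l : Fin (r + 1) → Fin D,
      Function.Injective l → ∀ x : A → Fin D, ∑ σ : Equiv.Perm (Fin (r + 1)),
        ((Equiv.Perm.sign σ : ℤ) : ℂ) * u (Function.extend a (fun k => l (σ k)) x) = 0)
    (hvan : ∀ (x : A → Fin r) (g : Fin r → Fin D → ℂ),
      ∑ y : A → Fin D, (∏ a, g (x a) (y a)) * u y = 0) : u = 0 := by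
  obtain ⟨i, hi, v, hv, hiv⟩ := Submodule.mem_sup.mp (all_mem r u)
  have hvi : ∀ (x : A → Fin r) (g : Fin r → Fin D → ℂ),
      ∑ y : A → Fin D, (∏ a, g (x a) (y a)) * i y = 0 := by
    intro x g
    refine Submodule.span_induction (p := fun i _ =>
      ∑ y : A → Fin D, (∏ a, g (x a) (y a)) * i y = 0) ?_ ?_ ?_ ?_ hi
    · rintro w ⟨a, l, x₀, ha, -, rfl⟩
      exact van_alt a ha l x₀ x g
    · simp
    · intro w w' _ _ hw hw'
      simp only [Pi.add_apply, mul_add, Finset.sum_add_distrib, hw, hw', add_zero]
    · intro c w _ hw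
      simp only [Pi.smul_apply, smul_eq_mul]
      have : ∀ y : A → Fin D, (∏ a, g (x a) (y a)) * (c * w y) =
          c * ((∏ a, g (x a) (y a)) * w y) := fun y => by ring
      simp only [this]
      rw [← Finset.mul_sum, hw, mul_zero]
  have hv0 : v = 0 := by
    refine low_zero v hv fun x g => ?_
    have h1 := hvan x g
    rw [← hiv] at h1
    simp only [Pi.add_apply, mul_add, Finset.sum_add_distrib, hvi x g, zero_add] at h1
    exact h1
  have hui : u ∈ Ia (A := A) (D := D) r := by
    rw [← hiv, hv0, add_zero]; exact hi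
  have horth : ∀ w ∈ Ia (A := A) (D := D) r, ∑ y, (starRingEnd ℂ) (w y) * u y = 0 := by
    intro w hw
    refine Submodule.span_induction (p := fun w _ =>
      ∑ y : A → Fin D, (starRingEnd ℂ) (w y) * u y = 0) ?_ ?_ ?_ ?_ hw
    · rintro w ⟨a, l, x₀, ha, hl, rfl⟩
      have h1 := sum_alt a l x₀ u
      rw [hanti a ha l hl x₀] at h1
      rw [← h1]
      refine Finset.sum_congr rfl fun y _ => ?_
      rw [star_alt, mul_comm]
    · simp
    · intro w w' _ _ hw hw'
      simp only [Pi.add_apply, map_add, add_mul, Finset.sum_add_distrib, hw, hw', add_zero]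
    · intro c w _ hw
      simp only [Pi.smul_apply, smul_eq_mul, map_mul, mul_assoc]
      rw [← Finset.mul_sum, hw, mul_zero]
  have h0 := horth u hui
  have h1 : ∑ y, Complex.normSq (u y) = 0 := by
    have h2 : ((∑ y, Complex.normSq (u y) : ℝ) : ℂ) = 0 := by
      rw [Complex.ofReal_sum, ← h0]
      refine Finset.sum_congr rfl fun y _ => ?_
      rw [Complex.normSq_eq_conj_mul_self]
    exact_mod_cast h2
  rw [Finset.sum_eq_zero_iff_of_nonneg (fun y _ => Complex.normSq_nonneg _)] at h1
  ext y
  exact Complex.normSq_eq_zero.mp (h1 y (Finset.mem_univ y))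

end Aux

theorem sft {A : Type} [Fintype A] [DecidableEq A] {D r : ℕ} (u : (A → Fin D) → ℂ)
    (hanti : ∀ a : Fin (r + 1) → A, Function.Injective a → ∀ l : Fin (r + 1) → Fin D,
      Function.Injective l → ∀ x : A → Fin D, ∑ σ : Equiv.Perm (Fin (r + 1)),
        ((Equiv.Perm.sign σ : ℤ) : ℂ) * u (Function.extend a (fun k => l (σ k)) x) = 0)
    (hvan : ∀ (x : A → Fin r) (g : Fin r → Fin D → ℂ),
      ∑ y : A → Fin D, (∏ a, g (x a) (y a)) * u y = 0) : u = 0 := by
  letI : LinearOrder A := LinearOrder.lift' (Fintype.equivFin A) (Fintype.equivFin A).injective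
  refine sft_aux u hanti fun x g => ?_
  have h := hvan x g
  refine Eq.trans (Finset.sum_congr ?_ fun _ _ => rfl) h
  ext y
  simp only [Finset.mem_univ]

end Pool.Agent.Helper48.WT
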