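import Pool.Agent.Helper48.WT.Basic

/-!
# WT-WEIL: killed tensors are killed by the Weil contractions

`anti_e`, `anti_f`. PROOF (of `anti_e`; `anti_f` is the same with the roles of `W`, `W'` exchanged:
`h = c (g⁻¹)ᵀ` also satisfies `det h = c ^ d / c ^ p = c ^ p` and `gᵀ h = c`).
Let `K` have `p + 1` elements, `M` a subset of `K` with `p - 1` elements, `z : M → Fin d` letters,
`eps (m, z)` = the sign (determinant of the 0/1 matrix, `0` if not bijective) of the map
`K ⊕ M → Fin d`, for some fixed bijection `Fin d ≃ K ⊕ M` (`d = 2p`).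
(1) COMPLEMENTARY MINORS: for `(c, g)` in the group, `h = c (g⁻¹)ᵀ`, all `m' : K → Fin d` and all
`y : M → Fin d`:  `∑ m, eps (m, y) ∏_k g (m k) (m' k) = c * ∑ z, eps (m', z) ∏_j h (y j) (z j)`.
Proof: `∑_{m, z} eps (m, z) ∏ g (m k) (m' k) ∏ g (z j) (z' j) = det g * eps (m', z')`
(`Matrix.det_mul`/multilinearity of det), multiply by `∏_j h (y j) (z' j)` and sum over `z'`;
`∑_{z'} g (z, z') h (y, z') = c δ`; so `c^(p-1) ∑_m eps (m, y) ∏ g = c^p ∑_{z'} eps (m', z') ∏ h`.
(2) For the types `τ : K → Option (Fin d)` (`τ k = some i` if `l k = i ∈ tor`, `none` if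
`l k ∉ tor`) the map `φ : Ten ι → Ten (Fin (card ι - 2))`,
`(φ u) y = ∑_{m : K → Fin d of type τ} eps (m, z(y)) u (word with e_(m k) at a k, y elsewhere)`
if the letters of `y` at the `p - 1` places `a k`, `k ∈ M`, are `f_(z j)`, and `0` if one of them
is an `e`; the places `a k`, `k ∉ M` (two of them) disappear (an equivalence
`{places ≠ the two} ≃ Fin (card ι - 2)`). It is `CoEqui` by (1), because the projection to words
of type `τ` commutes with the block diagonal `g`.
(3) `Killed` and evaluation at `z` = the `p - 1` letters outside of the range of `l`: the words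
`m` of type `τ` with `eps (m, z) ≠ 0` are `m = l ∘ σ`, `σ` fixing the torus places.
-/

set_option autoImplicit false

namespace Pool.Agent.Helper48.WT

open Polynomial Pool.Agent.Helper48.GC8

variable {d p : ℕ} {tor : Finset (Fin d)} {ι : Type} [Fintype ι] [DecidableEq ι]

section core

variable {K M R : Type} [Fintype K] [DecidableEq K] [Fintype M] [DecidableEq M] [Fintype R]
  [DecidableEq R]

/-- Multilinearity of the determinant in the rows `K`. -/
private lemma det_rows_left {B : Type} [Fintype B] [DecidableEq B] (α : K → B → ℂ)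
    (β : K → B → (K ⊕ M) → ℂ) (γ : M → (K ⊕ M) → ℂ) :
    ∑ v : K → B, (∏ k, α k (v k)) * Matrix.det (Matrix.of fun s t : K ⊕ M =>
        Sum.elim (fun k => β k (v k) t) (fun j => γ j t) s) =
      Matrix.det (Matrix.of fun s t : K ⊕ M =>
        Sum.elim (fun k => ∑ b, α k b * β k b t) (fun j => γ j t) s) := by
  have h1 : ∀ N : Matrix (K ⊕ M) (K ⊕ M) ℂ, N.det =
      ∑ σ : Equiv.Perm (K ⊕ M), ((Equiv.Perm.sign σ : ℤ) : ℂ) * ∏ s, N s (σ s) := by
    intro N
    rw [← Matrix.det_transpose, Matrix.det_apply']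
    rfl
  simp_rw [h1, Finset.mul_sum]
  rw [Finset.sum_comm]
  refine Finset.sum_congr rfl fun σ _ => ?_
  simp_rw [Fintype.prod_sum_type, Matrix.of_apply, Sum.elim_inl, Sum.elim_inr]
  rw [Finset.prod_univ_sum, ← mul_assoc, mul_comm _ (∏ j, _), Finset.mul_sum, Finset.mul_sum]
  rw [Fintype.piFinset_univ]
  refine Finset.sum_congr rfl fun v _ => ?_
  rw [Finset.prod_mul_distrib]
  ring

/-- Multilinearity of the determinant in the rows `M`. -/
private lemma det_rows_right {B : Type} [Fintype B] [DecidableEq B] (α : M → B → ℂ)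
    (β : M → B → (K ⊕ M) → ℂ) (γ : K → (K ⊕ M) → ℂ) :
    ∑ v : M → B, (∏ k, α k (v k)) * Matrix.det (Matrix.of fun s t : K ⊕ M =>
        Sum.elim (fun j => γ j t) (fun k => β k (v k) t) s) =
      Matrix.det (Matrix.of fun s t : K ⊕ M =>
        Sum.elim (fun j => γ j t) (fun k => ∑ b, α k b * β k b t) s) := by
  have h1 : ∀ N : Matrix (K ⊕ M) (K ⊕ M) ℂ, N.det =
      ∑ σ : Equiv.Perm (K ⊕ M), ((Equiv.Perm.sign σ : ℤ) : ℂ) * ∏ s, N s (σ s) := by
    intro N
    rw [← Matrix.det_transpose, Matrix.det_apply']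
    rfl
  simp_rw [h1, Finset.mul_sum]
  rw [Finset.sum_comm]
  refine Finset.sum_congr rfl fun σ _ => ?_
  simp_rw [Fintype.prod_sum_type, Matrix.of_apply, Sum.elim_inl, Sum.elim_inr]
  rw [Finset.prod_univ_sum, ← mul_assoc, Finset.mul_sum]
  rw [Fintype.piFinset_univ]
  refine Finset.sum_congr rfl fun v _ => ?_
  rw [Finset.prod_mul_distrib]
  ring

/-- The coefficients of the Weil contraction. -/
private noncomputable def Cf (Ty : K → Le d → Prop) (E : K ⊕ M → Fin d) (v : K → Le d)
    (q : M → Le d) : ℂ :=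
  open Classical in
  (∏ k, if Ty k (v k) then (1 : ℂ) else 0) * Matrix.det (Matrix.of fun s t : K ⊕ M =>
    Sum.elim (fun k => if v k = Sum.inl (E t) then (1 : ℂ) else 0)
      (fun j => if q j = Sum.inr (E t) then (1 : ℂ) else 0) s)

private lemma Cf_left (Ty : K → Le d → Prop) (E : K ⊕ M → Fin d) (X : Matrix (Le d) (Le d) ℂ)
    (hX : ∀ i b k, X (Sum.inl i) b ≠ 0 → (Ty k (Sum.inl i) ↔ Ty k b)) (v' : K → Le d)
    (q : M → Le d) :
    ∑ v : K → Le d, (∏ k, X (v k) (v' k)) * Cf Ty E v q =
      open Classical in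
      (∏ k, if Ty k (v' k) then (1 : ℂ) else 0) * Matrix.det (Matrix.of fun s t : K ⊕ M =>
        Sum.elim (fun k => X (Sum.inl (E t)) (v' k))
          (fun j => if q j = Sum.inr (E t) then (1 : ℂ) else 0) s) := by
  classical
  have h := det_rows_left (K := K) (M := M) (B := Le d)
    (fun k b => X b (v' k) * (if Ty k b then (1 : ℂ) else 0))
    (fun _ b t => if b = Sum.inl (E t) then (1 : ℂ) else 0)
    (fun j t => if q j = Sum.inr (E t) then (1 : ℂ) else 0)
  have h2 : ∑ v : K → Le d, (∏ k, X (v k) (v' k)) * Cf Ty E v q =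
      ∑ v : K → Le d, (∏ k, X (v k) (v' k) * (if Ty k (v k) then (1 : ℂ) else 0)) *
        Matrix.det (Matrix.of fun s t : K ⊕ M =>
        Sum.elim (fun k => if v k = Sum.inl (E t) then (1 : ℂ) else 0)
          (fun j => if q j = Sum.inr (E t) then (1 : ℂ) else 0) s) := by
    refine Finset.sum_congr rfl fun v _ => ?_
    rw [Finset.prod_mul_distrib, mul_assoc]
    unfold Cf
    congr!
  rw [h2, h]
  have h3 := Matrix.det_mul_column
    (Sum.elim (fun k => if Ty k (v' k) then (1 : ℂ) else 0) (fun _ => 1) : K ⊕ M → ℂ)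
    (Matrix.of fun s t : K ⊕ M =>
        Sum.elim (fun k => X (Sum.inl (E t)) (v' k))
          (fun j => if q j = Sum.inr (E t) then (1 : ℂ) else 0) s)
  rw [Fintype.prod_sum_type] at h3
  simp only [Sum.elim_inl, Sum.elim_inr, Finset.prod_const_one, mul_one] at h3
  rw [← h3]
  congr 1
  ext s t
  rcases s with k | j
  · simp only [Matrix.of_apply, Sum.elim_inl, mul_ite, mul_one, mul_zero, ite_mul, one_mul,
      zero_mul, Finset.sum_ite_eq', Finset.mem_univ, if_true]
    by_cases h0 : X (Sum.inl (E t)) (v' k) = 0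
    · simp [h0]
    · have h4 := hX _ _ k h0
      by_cases h5 : Ty k (v' k)
      · rw [if_pos h5, if_pos (h4.2 h5)]
      · rw [if_neg h5, if_neg (fun h => h5 (h4.1 h))]
  · simp only [Matrix.of_apply, Sum.elim_inr, one_mul]

private lemma Cf_right (Ty : K → Le d → Prop) (E : K ⊕ M → Fin d) (X : Matrix (Le d) (Le d) ℂ)
    (v' : K → Le d) (q : M → Le d) :
    ∑ q' : M → Le d, (∏ j, X (q j) (q' j)) * Cf Ty E v' q' =
      open Classical in
      (∏ k, if Ty k (v' k) then (1 : ℂ) else 0) * Matrix.det (Matrix.of fun s t : K ⊕ M =>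
        Sum.elim (fun k => if v' k = Sum.inl (E t) then (1 : ℂ) else 0)
          (fun j => X (q j) (Sum.inr (E t))) s) := by
  classical
  have h := det_rows_right (K := K) (M := M) (B := Le d)
    (fun j b => X (q j) b)
    (fun _ b t => if b = Sum.inr (E t) then (1 : ℂ) else 0)
    (fun k t => if v' k = Sum.inl (E t) then (1 : ℂ) else 0)
  have h2 : ∑ q' : M → Le d, (∏ j, X (q j) (q' j)) * Cf Ty E v' q' =
      (∏ k, if Ty k (v' k) then (1 : ℂ) else 0) *
      ∑ q' : M → Le d, (∏ j, X (q j) (q' j)) *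
        Matrix.det (Matrix.of fun s t : K ⊕ M =>
        Sum.elim (fun k => if v' k = Sum.inl (E t) then (1 : ℂ) else 0)
          (fun j => if q' j = Sum.inr (E t) then (1 : ℂ) else 0) s) := by
    rw [Finset.mul_sum]
    refine Finset.sum_congr rfl fun v _ => ?_
    unfold Cf
    rw [← mul_assoc, mul_comm (∏ j, _), mul_assoc]
  rw [h2, h]
  congr 2
  ext s t
  rcases s with k | j
  · simp only [Matrix.of_apply, Sum.elim_inl]
  · simp only [Matrix.of_apply, Sum.elim_inr, mul_ite, mul_one, mul_zero, Finset.sum_ite_eq',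
      Finset.mem_univ, if_true]

/-- Complementary minors. -/
private lemma minors (hd : d = 2 * p) (hK : Fintype.card K = p + 1) {c : ℂ}
    {g : Matrix (Fin d) (Fin d) ℂ} (hg : InG p tor c g) (E : K ⊕ M ≃ Fin d) (v' : K → Le d)
    (q : M → Le d) :
    Matrix.det (Matrix.of fun s t : K ⊕ M =>
        Sum.elim (fun k => frob c g (Sum.inl (E t)) (v' k))
          (fun j => if q j = Sum.inr (E t) then (1 : ℂ) else 0) s) =
      c * Matrix.det (Matrix.of fun s t : K ⊕ M =>
        Sum.elim (fun k => if v' k = Sum.inl (E t) then (1 : ℂ) else 0)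
          (fun j => frob c g (q j) (Sum.inr (E t))) s) := by
  set A := Matrix.of fun s t : K ⊕ M =>
        Sum.elim (fun k => frob c g (Sum.inl (E t)) (v' k))
          (fun j => if q j = Sum.inr (E t) then (1 : ℂ) else 0) s with hA
  set B := Matrix.of fun s t : K ⊕ M =>
        Sum.elim (fun k => if v' k = Sum.inl (E t) then (1 : ℂ) else 0)
          (fun j => frob c g (q j) (Sum.inr (E t))) s with hB
  set h : Matrix (Fin d) (Fin d) ℂ := c • (g⁻¹).transpose with hh
  have hc := hg.ne
  have hu := hg.isUnit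
  have hdet : h.det = c ^ p := by
    rw [hh, Matrix.det_smul, Matrix.det_transpose, Matrix.det_nonsing_inv, hg.det,
      Ring.inverse_eq_inv', Fintype.card_fin, hd]
    field_simp
    ring
  have hgh : g.transpose * h = c • 1 := by
    rw [hh, Matrix.mul_smul, ← Matrix.transpose_mul, Matrix.nonsing_inv_mul _ hu,
      Matrix.transpose_one]
  have hprod : A * (h.submatrix E E) = Matrix.of fun s t =>
      (Sum.elim (fun _ => c) (fun _ => 1) : K ⊕ M → ℂ) s * B s t := by
    ext s t
    rw [Matrix.mul_apply]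
    rcases s with k | j
    · simp only [hA, hB, Matrix.of_apply, Sum.elim_inl, Matrix.submatrix_apply]
      rcases hv : v' k with m | m
      · have h1 : ∑ x, frob c g (Sum.inl (E x)) (Sum.inl m) * h (E x) (E t) =
            (g.transpose * h) m (E t) := by
          rw [Matrix.mul_apply]
          exact Fintype.sum_equiv E _ _ fun x => rfl
        rw [h1, hgh, Matrix.smul_apply, Matrix.one_apply, smul_eq_mul]
        simp only [Sum.inl.injEq]
      · have h1 : ∀ x, frob c g (Sum.inl (E x)) (Sum.inr m) = 0 := fun x => rfl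
        simp [h1]
    · simp only [hA, hB, Matrix.of_apply, Sum.elim_inr, Matrix.submatrix_apply, one_mul]
      rcases hv : q j with m | m
      · have h1 : frob c g (Sum.inl m) (Sum.inr (E t)) = 0 := rfl
        simp [h1]
      · have h1 : frob c g (Sum.inr m) (Sum.inr (E t)) = h m (E t) := rfl
        rw [h1]
        rw [Finset.sum_eq_single (E.symm m)]
        · simp
        · intro b _ hb
          rw [if_neg, zero_mul]
          intro h2
          apply hb
          rw [Sum.inr.injEq] at h2
          rw [h2, Equiv.symm_apply_apply]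
        · intro h2
          exact absurd (Finset.mem_univ _) h2
  have h4 := congrArg Matrix.det hprod
  rw [Matrix.det_mul, Matrix.det_mul_column, Fintype.prod_sum_type] at h4
  simp only [Sum.elim_inl, Sum.elim_inr, Finset.prod_const_one, mul_one, Finset.prod_const,
    Finset.card_univ] at h4
  rw [Matrix.det_submatrix_equiv_self, hdet, hK] at h4
  have h5 : c ^ p ≠ 0 := pow_ne_zero _ hc
  apply mul_right_cancel₀ h5
  rw [h4]
  ring

omit [DecidableEq ι] in
private lemma rho_sum [DecidableEq ι] (e : ι ≃ K ⊕ R) (X : Matrix (Le d) (Le d) ℂ)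
    (u : Ten ι (Le d)) (w : K ⊕ R → Le d) :
    rho Finset.univ X u (fun i => w (e i)) =
      ∑ v : K → Le d, ∑ r : R → Le d, ((∏ k, X (w (Sum.inl k)) (v k)) *
        ∏ j, X (w (Sum.inr j)) (r j)) * u (fun i => Sum.elim v r (e i)) := by
  rw [rho_apply, ← Fintype.sum_prod_type']
  symm
  refine Fintype.sum_equiv ((Equiv.sumArrowEquivProdArrow K R (Le d)).symm.trans
    (Equiv.arrowCongr e.symm (Equiv.refl _))) _ _ fun z => ?_
  have h1 : ((Equiv.sumArrowEquivProdArrow K R (Le d)).symm.trans
    (Equiv.arrowCongr e.symm (Equiv.refl _))) z = fun i => Sum.elim z.1 z.2 (e i) := by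
    funext i
    rfl
  rw [h1]
  congr 1
  simp only [Finset.mem_univ, if_true]
  rw [← Fintype.prod_equiv e.symm (fun s => X (w s) (Sum.elim z.1 z.2 s)) _ (fun s => by simp),
    Fintype.prod_sum_type]
  rfl

end core

private lemma anti_core (hd : d = 2 * p) {u : Ten ι (Le d)} (hu : Killed p tor u)
    {K M R : Type} [Fintype K] [DecidableEq K] [Fintype M] [DecidableEq M] [Fintype R]
    [DecidableEq R] (hK : Fintype.card K = p + 1) (e : ι ≃ K ⊕ R)
    (eκ : Fin (Fintype.card ι - 2) ≃ M ⊕ R) (E : K ⊕ M ≃ Fin d) (Ty : K → Le d → Prop)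
    (hTy : ∀ i j k, (Ty k (Sum.inl i) ↔ Ty k (Sum.inl j)) ∨ i ∈ tor ∨ j ∈ tor)
    (q : M → Le d) (r : R → Le d) :
    ∑ v : K → Le d, Cf Ty E v q * u (fun i => Sum.elim v r (e i)) = 0 := by
  let φ : Ten ι (Le d) →ₗ[ℂ] Ten (Fin (Fintype.card ι - 2)) (Le d) :=
    { toFun := fun w y => ∑ v : K → Le d, Cf Ty E v (fun j => y (eκ.symm (Sum.inl j))) *
        w (fun i => Sum.elim v (fun r => y (eκ.symm (Sum.inr r))) (e i))
      map_add' := by
        intro v w
        funext y
        simp only [Pi.add_apply, mul_add, Finset.sum_add_distrib]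
      map_smul' := by
        intro c v
        funext y
        simp only [Pi.smul_apply, smul_eq_mul, RingHom.id_apply, Finset.mul_sum]
        exact Finset.sum_congr rfl fun y _ => by ring }
  have hφ : CoEqui p tor φ := by
    intro c g hg w
    funext y
    have hX : ∀ i b k, frob c g (Sum.inl i) b ≠ 0 → (Ty k (Sum.inl i) ↔ Ty k b) := by
      intro i b k hb
      rcases b with j | j
      · by_cases hij : i = j
        · subst hij; rfl
        · rcases hTy i j k with h | h
          · exact h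
          · exact absurd (hg.diag i j hij h) hb
      · exact absurd rfl hb
    have hy : rho Finset.univ (frob c g) (φ w) y =
        ∑ v : M → Le d, ∑ r : R → Le d, ((∏ k, frob c g (y (eκ.symm (Sum.inl k))) (v k)) *
        ∏ j, frob c g (y (eκ.symm (Sum.inr j))) (r j)) *
          (φ w) (fun i => Sum.elim v r (eκ i)) := by
      have h := rho_sum eκ (frob c g) (φ w) (fun s => y (eκ.symm s))
      simpa only [Equiv.symm_apply_apply] using h
    change ∑ v : K → Le d, Cf Ty E v (fun j => y (eκ.symm (Sum.inl j))) *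
        rho Finset.univ (frob c g) w
          (fun i => Sum.elim v (fun r => y (eκ.symm (Sum.inr r))) (e i)) =
      c * rho Finset.univ (frob c g) (φ w) y
    rw [hy]
    simp_rw [rho_sum e]
    simp only [Sum.elim_inl, Sum.elim_inr]
    set X := frob c g
    set q0 : M → Le d := fun j => y (eκ.symm (Sum.inl j)) with hq0
    set r0 : R → Le d := fun j => y (eκ.symm (Sum.inr j)) with hr0
    have hL : ∑ v : K → Le d, Cf Ty E v q0 * ∑ v' : K → Le d, ∑ r' : R → Le d,
        ((∏ k, X (v k) (v' k)) * ∏ j, X (r0 j) (r' j)) * w (fun i => Sum.elim v' r' (e i)) =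
        ∑ v' : K → Le d, ∑ r' : R → Le d, (∑ v : K → Le d, (∏ k, X (v k) (v' k)) *
          Cf Ty E v q0) * ((∏ j, X (r0 j) (r' j)) * w (fun i => Sum.elim v' r' (e i))) := by
      simp_rw [Finset.mul_sum]
      rw [Finset.sum_comm]
      refine Finset.sum_congr rfl fun v' _ => ?_
      rw [Finset.sum_comm]
      refine Finset.sum_congr rfl fun r' _ => ?_
      rw [Finset.sum_mul]
      refine Finset.sum_congr rfl fun v _ => ?_
      ring
    have hR : c * ∑ q' : M → Le d, ∑ r' : R → Le d, ((∏ k, X (q0 k) (q' k)) *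
        ∏ j, X (r0 j) (r' j)) * (φ w) (fun i => Sum.elim q' r' (eκ i)) =
        ∑ v' : K → Le d, ∑ r' : R → Le d, (c * ∑ q' : M → Le d, (∏ k, X (q0 k) (q' k)) *
          Cf Ty E v' q') * ((∏ j, X (r0 j) (r' j)) * w (fun i => Sum.elim v' r' (e i))) := by
      have h1 : ∀ (q' : M → Le d) (r' : R → Le d), (φ w) (fun i => Sum.elim q' r' (eκ i)) =
          ∑ v' : K → Le d, Cf Ty E v' q' * w (fun i => Sum.elim v' r' (e i)) := by
        intro q' r'
        change ∑ v : K → Le d, Cf Ty E v _ * _ = _
        simp only [Equiv.apply_symm_apply, Sum.elim_inl, Sum.elim_inr]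
      simp_rw [h1, Finset.mul_sum, Finset.sum_mul]
      rw [Finset.sum_comm]
      have h2 : ∀ r' : R → Le d, ∑ q' : M → Le d, ∑ v' : K → Le d,
          c * ((∏ k, X (q0 k) (q' k)) * (∏ j, X (r0 j) (r' j)) *
            (Cf Ty E v' q' * w (fun i => Sum.elim v' r' (e i)))) =
          ∑ v' : K → Le d, ∑ q' : M → Le d,
          c * ((∏ k, X (q0 k) (q' k)) * Cf Ty E v' q') *
            ((∏ j, X (r0 j) (r' j)) * w (fun i => Sum.elim v' r' (e i))) := by
        intro r'
        rw [Finset.sum_comm]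
        refine Finset.sum_congr rfl fun v' _ => Finset.sum_congr rfl fun q' _ => ?_
        ring
      rw [Finset.sum_congr rfl fun r' _ => h2 r', Finset.sum_comm]
    rw [hL, hR]
    refine Finset.sum_congr rfl fun v' _ => Finset.sum_congr rfl fun r' _ => ?_
    congr 1
    rw [Cf_left Ty E X hX, Cf_right, minors hd hK hg E v' q0]
    ring
  have h1 := congrFun (hu φ hφ) (fun i => Sum.elim q r (eκ i))
  change ∑ v : K → Le d, Cf Ty E v _ * _ = 0 at h1
  simp only [Equiv.apply_symm_apply, Sum.elim_inl, Sum.elim_inr] at h1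
  exact h1

private lemma Cf_eval {K M : Type} [Fintype K] [DecidableEq K] [Fintype M] [DecidableEq M]
    (Ty : K → Le d → Prop) (E : K ⊕ M ≃ Fin d) (v : K → Le d) :
    Cf Ty E v (fun j => Sum.inr (E (Sum.inr j))) =
      open Classical in
      ∑ σ : Equiv.Perm K, ((Equiv.Perm.sign σ : ℤ) : ℂ) *
        ((∏ k, if Ty k (v k) then (1 : ℂ) else 0) *
          ∏ k, if v k = Sum.inl (E (Sum.inl (σ k))) then (1 : ℂ) else 0) := by
  classical
  unfold Cf
  have h1 : (Matrix.of fun s t : K ⊕ M =>
      Sum.elim (fun k => if v k = Sum.inl (E t) then (1 : ℂ) else 0)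
        (fun j => if (Sum.inr (E (Sum.inr j)) : Le d) = Sum.inr (E t) then (1 : ℂ) else 0) s) =
      Matrix.fromBlocks
        (Matrix.of fun k k' => if v k = Sum.inl (E (Sum.inl k')) then (1 : ℂ) else 0)
        (Matrix.of fun k j => if v k = Sum.inl (E (Sum.inr j)) then (1 : ℂ) else 0) 0 1 := by
    ext s t
    rcases s with s | s <;> rcases t with t | t
    · rfl
    · rfl
    · simp
    · simp [Matrix.one_apply]
  rw [h1, Matrix.det_fromBlocks_zero₂₁, Matrix.det_one, mul_one, ← Matrix.det_transpose,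
    Matrix.det_apply', Finset.mul_sum]
  refine Finset.sum_congr rfl fun σ _ => ?_
  simp only [Matrix.transpose_apply, Matrix.of_apply]
  ring

theorem anti_e (hd : d = 2 * p) (hp : 1 ≤ p) {u : Ten ι (Le d)} (hu : Killed p tor u)
    {K : Type} [Fintype K] [DecidableEq K] (hK : Fintype.card K = p + 1) (a : K → ι)
    (ha : Function.Injective a) (l : K → Fin d) (hl : Function.Injective l) (x : ι → Le d) :
    ∑ σ ∈ (Finset.univ : Finset (Equiv.Perm K)).filter (fun σ => ∀ k, l k ∈ tor → σ k = k),
      ((Equiv.Perm.sign σ : ℤ) : ℂ) * u (Function.extend a (fun k => Sum.inl (l (σ k))) x) = 0 := by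
  classical
  have hd' : Fintype.card (Fin (p - 1)) = Fintype.card ↥(Set.range l)ᶜ := by
    rw [Fintype.card_fin, Fintype.card_compl_set, Set.card_range_of_injective hl, hK,
      Fintype.card_fin]
    omega
  let R : Type := ↥(Set.range a)ᶜ
  let e : ι ≃ K ⊕ R := (((Equiv.ofInjective a ha).sumCongr (Equiv.refl _)).trans
    (Equiv.Set.sumCompl (Set.range a))).symm
  have hιK : p + 1 ≤ Fintype.card ι := by
    rw [← hK]
    exact Fintype.card_le_of_injective a ha
  have hcard : Fintype.card (Fin (Fintype.card ι - 2)) = Fintype.card (Fin (p - 1) ⊕ R) := by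
    rw [Fintype.card_sum, Fintype.card_fin, Fintype.card_fin, Fintype.card_compl_set,
      Set.card_range_of_injective ha, hK]
    omega
  let E : K ⊕ Fin (p - 1) ≃ Fin d := ((Equiv.ofInjective l hl).sumCongr
    (Fintype.equivOfCardEq hd')).trans (Equiv.Set.sumCompl (Set.range l))
  have hE : ∀ k, E (Sum.inl k) = l k := fun k => rfl
  let Ty : K → Le d → Prop := fun k b => (l k ∈ tor → b = Sum.inl (l k)) ∧
    (l k ∉ tor → ∀ i ∈ tor, b ≠ Sum.inl i)
  have hTy : ∀ i j k, (Ty k (Sum.inl i) ↔ Ty k (Sum.inl j)) ∨ i ∈ tor ∨ j ∈ tor := by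
    intro i j k
    by_cases hi : i ∈ tor
    · exact Or.inr (Or.inl hi)
    by_cases hj : j ∈ tor
    · exact Or.inr (Or.inr hj)
    left
    by_cases hk : l k ∈ tor
    · constructor
      · rintro ⟨h1, _⟩
        have := Sum.inl.inj (h1 hk)
        exact absurd (this ▸ hk) hi
      · rintro ⟨h1, _⟩
        have := Sum.inl.inj (h1 hk)
        exact absurd (this ▸ hk) hj
    · constructor
      · intro _
        refine ⟨fun h => absurd h hk, fun _ i' hi' h => hj ?_⟩
        rw [Sum.inl.inj h]
        exact hi'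
      · intro _
        refine ⟨fun h => absurd h hk, fun _ i' hi' h => hi ?_⟩
        rw [Sum.inl.inj h]
        exact hi'
  have key := anti_core hd hu hK e (Fintype.equivOfCardEq hcard) E Ty hTy
    (fun j => Sum.inr (E (Sum.inr j))) (fun r : R => x r.1)
  have hw : ∀ v : K → Le d, (fun i => Sum.elim v (fun r : R => x r.1) (e i)) =
      Function.extend a v x := by
    intro v
    funext i
    obtain ⟨s, rfl⟩ := e.symm.surjective i
    rw [Equiv.apply_symm_apply]
    rcases s with k | r
    · have h1 : e.symm (Sum.inl k) = a k := rfl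
      rw [h1, ha.extend_apply]
      rfl
    · have h1 : e.symm (Sum.inr r) = r.1 := rfl
      rw [h1, Function.extend_apply' _ _ _ (fun ⟨k, hk⟩ => r.2 ⟨k, hk⟩)]
      rfl
  simp_rw [hw, Cf_eval, Finset.sum_mul] at key
  rw [Finset.sum_comm] at key
  rw [← key, Finset.sum_filter]
  refine Finset.sum_congr rfl fun σ _ => ?_
  rw [Finset.sum_eq_single (fun k => Sum.inl (l (σ k)))]
  · have h2 : (∏ k, if (Sum.inl (l (σ k)) : Le d) = Sum.inl (E (Sum.inl (σ k))) then (1 : ℂ)
        else 0) = 1 := Finset.prod_eq_one fun k _ => if_pos rfl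
    rw [h2, mul_one]
    by_cases hσ : ∀ k, l k ∈ tor → σ k = k
    · rw [if_pos hσ, Finset.prod_eq_one, mul_one]
      intro k _
      rw [if_pos]
      refine ⟨fun hk => ?_, fun hk i hi h => ?_⟩
      · show (Sum.inl (l (σ k)) : Le d) = _
        rw [hσ k hk]
      have h3 : l (σ k) ∈ tor := by
        rw [Sum.inl.inj h]
        exact hi
      have h4 := σ.injective (hσ _ h3)
      rw [h4] at h3
      exact hk h3
    · rw [if_neg hσ]
      push Not at hσ
      obtain ⟨k, hk, hk'⟩ := hσ
      rw [Finset.prod_eq_zero (Finset.mem_univ k), mul_zero, zero_mul]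
      rw [if_neg]
      rintro ⟨h1, _⟩
      exact hk' (hl (Sum.inl.inj (h1 hk)))
  · intro v _ hv
    have h3 : ∃ k, v k ≠ Sum.inl (l (σ k)) := by
      by_contra h
      push Not at h
      exact hv (funext h)
    obtain ⟨k, hk⟩ := h3
    have h4 : (∏ k, if v k = Sum.inl (E (Sum.inl (σ k))) then (1 : ℂ) else 0) = 0 :=
      Finset.prod_eq_zero (Finset.mem_univ k) (if_neg hk)
    rw [h4, mul_zero, mul_zero, zero_mul]
  · intro h
    exact absurd (Finset.mem_univ _) h

private noncomputable def Tw {κ : Type} [Fintype κ] [DecidableEq κ] :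
    Ten κ (Le d) →ₗ[ℂ] Ten κ (Le d) where
  toFun u x := u (fun i => (x i).swap)
  map_add' _ _ := rfl
  map_smul' _ _ := rfl

private lemma Tw_apply {κ : Type} [Fintype κ] [DecidableEq κ] (u : Ten κ (Le d))
    (x : κ → Le d) : Tw u x = u (fun i => (x i).swap) := rfl

private lemma Tw_Tw {κ : Type} [Fintype κ] [DecidableEq κ] (u : Ten κ (Le d)) :
    Tw (Tw u) = u := by
  funext x
  simp only [Tw_apply, Sum.swap_swap]

private lemma rho_Tw {κ : Type} [Fintype κ] [DecidableEq κ] (X : Matrix (Le d) (Le d) ℂ)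
    (u : Ten κ (Le d)) :
    rho Finset.univ X (Tw u) = Tw (rho Finset.univ (X.submatrix Sum.swap Sum.swap) u) := by
  funext x
  rw [Tw_apply, rho_apply, rho_apply]
  refine Fintype.sum_equiv (Equiv.arrowCongr (Equiv.refl _) (Equiv.sumComm (Fin d) (Fin d)))
    _ _ fun y => ?_
  simp only [Finset.mem_univ, if_true, Matrix.submatrix_apply, Sum.swap_swap, Tw_apply]
  have h1 : (Equiv.arrowCongr (Equiv.refl κ) (Equiv.sumComm (Fin d) (Fin d))) y =
      fun i => (y i).swap := by
    funext i
    rfl
  rw [h1]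
  simp only [Sum.swap_swap]

private lemma frob_swap (hd : d = 2 * p) {c : ℂ} {g : Matrix (Fin d) (Fin d) ℂ}
    (hg : InG p tor c g) :
    InG p tor c (c • (g⁻¹).transpose) ∧
      (frob c g).submatrix Sum.swap Sum.swap = frob c (c • (g⁻¹).transpose) := by
  have hc := hg.ne
  have hu := hg.isUnit
  refine ⟨⟨hc, fun i j hij ht => ?_, ?_⟩, ?_⟩
  · rw [Matrix.smul_apply, Matrix.transpose_apply, hg.inv.diag j i (Ne.symm hij) ht.symm,
      smul_zero]
  · rw [Matrix.det_smul, Matrix.det_transpose, Matrix.det_nonsing_inv, hg.det,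
      Ring.inverse_eq_inv', Fintype.card_fin, hd]
    field_simp
    ring
  · have h1 : (c • (g⁻¹).transpose)⁻¹ = c⁻¹ • g.transpose := by
      apply Matrix.inv_eq_right_inv
      rw [Matrix.smul_mul, Matrix.mul_smul, smul_smul, mul_inv_cancel₀ hc, one_smul,
        ← Matrix.transpose_mul, Matrix.mul_nonsing_inv _ hu, Matrix.transpose_one]
    have h2 : c • ((c • (g⁻¹).transpose)⁻¹).transpose = g := by
      rw [h1, Matrix.transpose_smul, Matrix.transpose_transpose, smul_smul,
        mul_inv_cancel₀ hc, one_smul]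
    unfold frob
    rw [h2]
    ext i j
    rcases i with i | i <;> rcases j with j | j <;> rfl

private lemma killed_swap (hd : d = 2 * p) {u : Ten ι (Le d)} (hu : Killed p tor u) :
    Killed p tor (Tw u) := by
  intro φ hφ
  have h1 : CoEqui p tor (Tw ∘ₗ φ ∘ₗ Tw) := by
    intro c g hg w
    obtain ⟨h2, h3⟩ := frob_swap hd hg
    have h4 : (frob c (c • (g⁻¹).transpose)).submatrix Sum.swap Sum.swap = frob c g := by
      rw [← h3]
      ext i j
      simp
    simp only [LinearMap.comp_apply]
    have h5 : (Tw (rho Finset.univ (frob c g) w) : Ten ι (Le d)) =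
        rho Finset.univ (frob c (c • (g⁻¹).transpose)) (Tw w) := by
      rw [rho_Tw, h4]
    rw [h5, hφ _ _ h2, map_smul, rho_Tw, h3]
  have h2 := hu _ h1
  simp only [LinearMap.comp_apply] at h2
  have h3 := congrArg Tw h2
  rw [Tw_Tw, map_zero] at h3
  exact h3

theorem anti_f (hd : d = 2 * p) (hp : 1 ≤ p) {u : Ten ι (Le d)} (hu : Killed p tor u)
    {K : Type} [Fintype K] [DecidableEq K] (hK : Fintype.card K = p + 1) (a : K → ι)
    (ha : Function.Injective a) (l : K → Fin d) (hl : Function.Injective l) (x : ι → Le d) :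
    ∑ σ ∈ (Finset.univ : Finset (Equiv.Perm K)).filter (fun σ => ∀ k, l k ∈ tor → σ k = k),
      ((Equiv.Perm.sign σ : ℤ) : ℂ) * u (Function.extend a (fun k => Sum.inr (l (σ k))) x) = 0 := by
  have key := anti_e hd hp (killed_swap hd hu) hK a ha l hl (fun i => (x i).swap)
  rw [← key]
  refine Finset.sum_congr rfl fun σ _ => ?_
  rw [Tw_apply]
  congr 2
  funext i
  by_cases hi : ∃ k, a k = i
  · obtain ⟨k, rfl⟩ := hi
    rw [ha.extend_apply, ha.extend_apply]
    rfl
  · rw [Function.extend_apply' _ _ _ hi, Function.extend_apply' _ _ _ hi, Sum.swap_swap]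

end Pool.Agent.Helper48.WT
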