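import Pool.Agent.Helper48.WT.Trace
import Pool.Agent.Helper48.WT.Weil
import Pool.Agent.Helper48.WT.High
import Pool.Agent.Helper48.WT.Pos
import Pool.Agent.Helper48.WT.Sft
import Pool.Agent.Helper48.WT.Lu

/-!
# WT-WORD: a good word in the support

`exists_low` follows from `sft` and `van`. `exists_word`. PROOF. Take `u` from `exists_high`; by
`tr_big` and `decouple`: `Pe u i j x = 0` for `i < j` outside of `tor`, hence also
`Qe u i j x = 0`, and (with `tr_tor`) `u x = 0` if `x` has both letters `e_i`, `f_i` for some `i`.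
Fix `x0` with `u x0 ≠ 0`, `A = {a | x0 a = e_i, i ∉ tor}`, `B = {b | x0 b = f_i, i ∉ tor}`,
`s_e` = the torus letters `i` with `e_i` in `x0`, `s_f` similarly. Let `D = |torᶜ|` and
`emb : Fin D ≃o torᶜ`. For `y1 : A → Fin D`, `y2 : B → Fin D` let `u1 y1 y2` be `u` at the word
`x0` with the letters `e_(emb (y1 a))` at `A` and `f_(emb (y2 b))` at `B`; it is not identically zero.
* `|s_e| ≤ p`: otherwise take `K` = `p + 1` letters in `s_e`, places carrying them: `anti_e`
  has the only term `σ = 1`, so `u x0 = 0`. Same for `s_f`.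
* Let `r = p - |s_e|`. For fixed `y2` the function `u1 · y2` satisfies `hanti` of `sft` for `r`
  (`anti_e` with `K = Fin (r + 1) ⊕ s_e`, the second part at places carrying the torus letters:
  the allowed permutations are those of `Fin (r + 1)`) and `hP` (from `Pe u = 0`). So for a
  `y2` with `u1 · y2 ≠ 0` there is by `exists_low` a `y1` with letters `< r` and `u1 y1 y2 ≠ 0`.
* Then `u1 y1 · ≠ 0` satisfies the same for `B` with `r' = p - |s_f|` and the REVERSED order of
  the letters (`Fin.rev`; `Qe u i j` replaces `f_j` by `f_i`, `i < j`); get `y2'` with letters in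
  the last `r'`. The word `y` with `y1`, `y2'` has at most `r + |s_e| = p` different `e`'s and at
  most `p` different `f`'s.
-/

set_option autoImplicit false

namespace Pool.Agent.Helper48.WT

open Polynomial Pool.Agent.Helper48.GC8

theorem exists_low {A : Type} [Fintype A] [DecidableEq A] {D r : ℕ} {u : (A → Fin D) → ℂ}
    (hu : u ≠ 0)
    (hanti : ∀ a : Fin (r + 1) → A, Function.Injective a → ∀ l : Fin (r + 1) → Fin D,
      Function.Injective l → ∀ x : A → Fin D, ∑ σ : Equiv.Perm (Fin (r + 1)),
        ((Equiv.Perm.sign σ : ℤ) : ℂ) * u (Function.extend a (fun k => l (σ k)) x) = 0)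
    (hP : ∀ i j : Fin D, i < j → ∀ x : A → Fin D,
      ∑ a, (if x a = i then u (Function.update x a j) else 0) = 0) :
    ∃ y : A → Fin D, u y ≠ 0 ∧ ∀ a, (y a : ℕ) < r := by
  by_contra hcon
  push Not at hcon
  refine hu (sft u hanti (van u hP fun y hy => ?_))
  by_contra h
  obtain ⟨a, ha⟩ := hcon y h
  exact absurd (hy a) (not_lt.2 ha)

/-- permutations fixing the right summand -/
lemma word_perm {M N : Type} [Fintype M] [Fintype N] [DecidableEq M] [DecidableEq N]
    (σ : Equiv.Perm (M ⊕ N)) (h : ∀ n, σ (Sum.inr n) = Sum.inr n) :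
    ∃ τ : Equiv.Perm M, σ = Equiv.Perm.sumCongr τ 1 := by
  have h1 : Set.MapsTo σ (Set.range (Sum.inl : M → M ⊕ N)) (Set.range (Sum.inl : M → M ⊕ N)) := by
    rintro _ ⟨m, rfl⟩
    rcases hs : σ (Sum.inl m) with m' | n
    · exact ⟨m', rfl⟩
    · exfalso
      have := σ.injective (hs.trans (h n).symm)
      simp at this
  obtain ⟨⟨τ, τ'⟩, hτ⟩ := Equiv.Perm.mem_sumCongrHom_range_of_perm_mapsTo_inl h1
  refine ⟨τ, ?_⟩
  rw [← hτ]
  have : τ' = 1 := by
    ext n
    have h2 := h n
    rw [← hτ] at h2
    simp only [Equiv.Perm.sumCongrHom_apply, Equiv.Perm.sumCongr_apply, Sum.map_inr] at h2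
    have h3 := Sum.inr_injective h2
    rw [h3]
    rfl
  rw [this]
  rfl

/-- the generic step -/
theorem word_step {ι L : Type} [Fintype ι] [DecidableEq ι] [DecidableEq L] {d p D : ℕ}
    {tor : Finset (Fin d)} (c : Fin d → L) (hc : Function.Injective c) (u : (ι → L) → ℂ)
    (hanti : ∀ (K : Type) [Fintype K] [DecidableEq K], Fintype.card K = p + 1 →
      ∀ a : K → ι, Function.Injective a → ∀ l : K → Fin d, Function.Injective l → ∀ x : ι → L,
      ∑ σ ∈ (Finset.univ : Finset (Equiv.Perm K)).filter (fun σ => ∀ k, l k ∈ tor → σ k = k),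
        ((Equiv.Perm.sign σ : ℤ) : ℂ) * u (Function.extend a (fun k => c (l (σ k))) x) = 0)
    (emb : Fin D → Fin d) (hemb : Function.Injective emb) (hrange : ∀ i, i ∉ tor ↔ ∃ k, emb k = i)
    (hP : ∀ k k' : Fin D, k < k' → ∀ x : ι → L,
      ∑ a, (if x a = c (emb k) then u (Function.update x a (c (emb k'))) else 0) = 0)
    (x0 : ι → L) (hx0 : u x0 ≠ 0) :
    ∃ y : ι → L, u y ≠ 0 ∧ (∀ a, (∀ i ∉ tor, x0 a ≠ c i) → y a = x0 a) ∧
      (∀ a, (∃ i ∉ tor, x0 a = c i) → ∃ i, y a = c i) ∧
      ((Finset.univ : Finset (Fin d)).filter (fun i => ∃ a, y a = c i)).card ≤ p := by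
  classical
  set s : Finset (Fin d) := tor.filter (fun i => ∃ a, x0 a = c i) with hs
  have hsp : ∀ i ∈ s, ∃ a, x0 a = c i := fun i hi => (Finset.mem_filter.1 hi).2
  have hst : ∀ i ∈ s, i ∈ tor := fun i hi => (Finset.mem_filter.1 hi).1
  -- at most `p` torus letters
  have hcard : s.card ≤ p := by
    by_contra hcon
    push Not at hcon
    obtain ⟨S, hS, hSc⟩ := Finset.exists_subset_card_eq (show p + 1 ≤ s.card from hcon)
    choose a ha using fun i : ↥S => hsp i.1 (hS i.2)
    have hainj : Function.Injective a := by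
      intro i j hij
      have h1 := ha i
      rw [hij, ha j] at h1
      exact Subtype.ext (hc h1).symm
    have h := hanti ↥S (by simp [hSc]) a hainj Subtype.val Subtype.val_injective x0
    rw [Finset.sum_eq_single (1 : Equiv.Perm ↥S)] at h
    · apply hx0
      have e : Function.extend a (fun k => c (((1 : Equiv.Perm ↥S) k : ↥S) : Fin d)) x0 = x0 := by
        funext b
        by_cases hb : ∃ k, a k = b
        · obtain ⟨k, rfl⟩ := hb
          rw [hainj.extend_apply]
          exact (ha k).symm
        · rw [Function.extend_apply' _ _ _ hb]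
      rw [e] at h
      simpa using h
    · intro σ hσ hne
      exfalso
      apply hne
      rw [Finset.mem_filter] at hσ
      ext k
      rw [hσ.2 k (hst _ (hS k.2))]
      rfl
    · intro h1
      exact absurd (Finset.mem_filter.2 ⟨Finset.mem_univ _, fun k _ => rfl⟩) h1
  obtain ⟨r, hr⟩ := Nat.exists_eq_add_of_le hcard
  choose pl hpl using fun i : ↥s => hsp i.1 i.2
  have hplinj : Function.Injective pl := by
    intro i j hij
    have h1 := hpl i
    rw [hij, hpl j] at h1
    exact Subtype.ext (hc h1).symm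
  -- the places of the non-torus letters
  let P : ι → Prop := fun a => ∃ i, i ∉ tor ∧ x0 a = c i
  let w : ({a // P a} → Fin D) → (ι → L) := fun y b =>
    if h : P b then c (emb (y ⟨b, h⟩)) else x0 b
  have wP : ∀ (y : {a // P a} → Fin D) (b : ι) (h : P b), w y b = c (emb (y ⟨b, h⟩)) := by
    intro y b h
    simp only [w, dif_pos h]
  have wN : ∀ (y : {a // P a} → Fin D) (b : ι), ¬ P b → w y b = x0 b := by
    intro y b h
    simp only [w, dif_neg h]
  have hembt : ∀ k, emb k ∉ tor := fun k => (hrange _).2 ⟨k, rfl⟩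
  have hv : (fun y => u (w y)) ≠ 0 := by
    have h1 : ∀ a : {a // P a}, ∃ k : Fin D, x0 a.1 = c (emb k) := by
      intro a
      obtain ⟨i, hi, hi2⟩ := a.2
      obtain ⟨k, hk⟩ := (hrange i).1 hi
      exact ⟨k, by rw [hk]; exact hi2⟩
    choose y0 hy0 using h1
    intro h
    apply hx0
    have h2 := congrFun h y0
    have h3 : w y0 = x0 := by
      funext b
      by_cases hb : P b
      · rw [wP y0 b hb]
        exact (hy0 ⟨b, hb⟩).symm
      · exact wN y0 b hb
    simp only [h3, Pi.zero_apply] at h2
    exact h2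
  have hlow := exists_low (r := r) hv ?_ ?_
  · obtain ⟨y1, hy1, hy1r⟩ := hlow
    refine ⟨w y1, hy1, ?_, ?_, ?_⟩
    · intro a ha
      refine wN y1 a ?_
      rintro ⟨i, hi, hi2⟩
      exact ha i hi hi2
    · intro a ha
      exact ⟨_, wP y1 a ha⟩
    · have hsub : ((Finset.univ : Finset (Fin d)).filter (fun i => ∃ a, w y1 a = c i)) ⊆
          s ∪ ((Finset.univ : Finset (Fin D)).filter (fun k : Fin D => (k : ℕ) < r)).image emb := by
        intro i hi
        rw [Finset.mem_filter] at hi
        obtain ⟨a, ha⟩ := hi.2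
        rw [Finset.mem_union]
        by_cases hPa : P a
        · right
          rw [wP y1 a hPa] at ha
          rw [Finset.mem_image]
          exact ⟨y1 ⟨a, hPa⟩, Finset.mem_filter.2 ⟨Finset.mem_univ _, hy1r _⟩, hc ha⟩
        · left
          rw [wN y1 a hPa] at ha
          rw [hs, Finset.mem_filter]
          refine ⟨?_, a, ha⟩
          by_contra hcon
          exact hPa ⟨i, hcon, ha⟩
      refine (Finset.card_le_card hsub).trans ((Finset.card_union_le _ _).trans ?_)
      have h2 : (((Finset.univ : Finset (Fin D)).filter (fun k : Fin D => (k : ℕ) < r)).image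
          emb).card ≤ r := by
        refine Finset.card_image_le.trans ?_
        have h3 : ((Finset.univ : Finset (Fin D)).filter (fun k : Fin D => (k : ℕ) < r)).card ≤
            (Finset.range r).card := by
          refine Finset.card_le_card_of_injOn (fun k : Fin D => (k : ℕ)) ?_ ?_
          · intro k hk
            have := (Finset.mem_filter.1 hk).2
            simpa using this
          · intro k _ k' _ h
            exact Fin.ext h
        simpa using h3
      omega
  · -- antisymmetrisations
    intro a ha l hl x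
    have hcardK : Fintype.card (Fin (r + 1) ⊕ ↥s) = p + 1 := by
      rw [Fintype.card_sum, Fintype.card_fin, Fintype.card_coe, hr]
      ring
    let a' : Fin (r + 1) ⊕ ↥s → ι := Sum.elim (fun k => (a k).1) pl
    let l' : Fin (r + 1) ⊕ ↥s → Fin d := Sum.elim (fun k => emb (l k)) Subtype.val
    have hplP : ∀ i, ¬ P (pl i) := by
      rintro i ⟨j, hj, hj2⟩
      rw [hpl i] at hj2
      exact hj (hc hj2 ▸ hst _ i.2)
    have ha' : Function.Injective a' := by
      rintro (k | i) (k' | i') h
      · exact congrArg Sum.inl (ha (Subtype.ext h))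
      · exfalso
        have h' : (a k).1 = pl i' := h
        exact hplP i' (h' ▸ (a k).2)
      · exfalso
        have h' : pl i = (a k').1 := h
        exact hplP i (h' ▸ (a k').2)
      · exact congrArg Sum.inr (hplinj h)
    have hl' : Function.Injective l' := by
      rintro (k | i) (k' | i') h
      · exact congrArg Sum.inl (hl (hemb h))
      · exfalso
        have h' : emb (l k) = i'.1 := h
        exact hembt (l k) (h' ▸ hst _ i'.2)
      · exfalso
        have h' : i.1 = emb (l k') := h
        exact hembt (l k') (h' ▸ hst _ i.2)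
      · exact congrArg Sum.inr (Subtype.ext h)
    have h := hanti (Fin (r + 1) ⊕ ↥s) hcardK a' ha' l' hl' (w x)
    rw [← h]
    refine Finset.sum_bij (fun τ _ => Equiv.Perm.sumCongr τ 1) ?_ ?_ ?_ ?_
    · intro τ _
      refine Finset.mem_filter.2 ⟨Finset.mem_univ _, ?_⟩
      rintro (k | i) hk
      · exact absurd hk (hembt (l k))
      · rfl
    · intro τ _ τ' _ hττ
      ext k
      have h1 := congrArg (fun σ : Equiv.Perm (Fin (r + 1) ⊕ ↥s) => σ (Sum.inl k)) hττ
      simp only [Equiv.Perm.sumCongr_apply, Sum.map_inl] at h1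
      rw [Sum.inl_injective h1]
    · intro σ hσ
      rw [Finset.mem_filter] at hσ
      obtain ⟨τ, hτ⟩ := word_perm σ fun i => hσ.2 (Sum.inr i) (hst _ i.2)
      exact ⟨τ, Finset.mem_univ _, hτ.symm⟩
    · intro τ _
      rw [Equiv.Perm.sign_sumCongr, Equiv.Perm.sign_one, mul_one]
      congr 2
      funext b
      by_cases hb : ∃ k, a' k = b
      · obtain ⟨k, rfl⟩ := hb
        rw [ha'.extend_apply]
        rcases k with k | i
        · have e1 : w (Function.extend a (fun k => l (τ k)) x) (a' (Sum.inl k)) =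
              c (emb (Function.extend a (fun k => l (τ k)) x (a k))) :=
            wP _ (a k).1 (a k).2
          rw [e1, ha.extend_apply]
          rfl
        · have e1 : w (Function.extend a (fun k => l (τ k)) x) (a' (Sum.inr i)) = x0 (pl i) :=
            wN _ (pl i) (hplP i)
          rw [e1]
          exact hpl i
      · rw [Function.extend_apply' _ _ _ hb]
        by_cases hPb : P b
        · rw [wP _ b hPb, wP _ b hPb, Function.extend_apply']
          rintro ⟨k, hk⟩
          exact hb ⟨Sum.inl k, congrArg Subtype.val hk⟩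
        · rw [wN _ b hPb, wN _ b hPb]
  · intro k k' hkk x
    refine Eq.trans ?_ (hP k k' hkk (w x))
    have h1 : ∑ b, (if w x b = c (emb k) then u (Function.update (w x) b (c (emb k'))) else 0) =
        ∑ b ∈ (Finset.univ : Finset ι).filter P,
          (if w x b = c (emb k) then u (Function.update (w x) b (c (emb k'))) else 0) := by
      symm
      refine Finset.sum_filter_of_ne ?_
      intro b _ hb
      by_contra hPb
      apply hb
      rw [if_neg]
      rw [wN x b hPb]
      intro h2
      exact hPb ⟨emb k, hembt k, h2⟩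
    rw [h1, Finset.sum_subtype (p := P) _ (fun b => by simp)]
    refine Finset.sum_congr rfl fun b _ => ?_
    have e1 : w x b.1 = c (emb (x b)) := wP x b.1 b.2
    have e2 : (w x b.1 = c (emb k)) ↔ x b = k := by
      rw [e1]
      exact ⟨fun h => hemb (hc h), fun h => by rw [h]⟩
    have e3 : Function.update (w x) b.1 (c (emb k')) = w (Function.update x b k') := by
      funext b'
      by_cases hb : b' = b.1
      · subst hb
        rw [Function.update_self, wP _ b.1 b.2, Function.update_self]
      · rw [Function.update_of_ne hb]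
        by_cases hPb : P b'
        · rw [wP _ b' hPb, wP _ b' hPb, Function.update_of_ne]
          intro h
          exact hb (congrArg Subtype.val h)
        · rw [wN _ b' hPb, wN _ b' hPb]
    simp only [e2, e3]

variable {d p : ℕ} {tor : Finset (Fin d)} {ι : Type} [Fintype ι] [DecidableEq ι]

theorem exists_word (hd : d = 2 * p) (hp : 1 ≤ p) {U : Submodule ℂ (Ten ι (Le d))}
    (hU : Stab p tor U) (hne : U ≠ ⊥) (hk : ∀ u ∈ U, Killed p tor u) :
    ∃ u ∈ U, ∃ y : ι → Le d, u y ≠ 0 ∧
      (∀ i a b, y a = Sum.inl i → y b ≠ Sum.inr i) ∧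
      ((Finset.univ : Finset (Fin d)).filter (fun i => ∃ a, y a = Sum.inl i)).card ≤ p ∧
      ((Finset.univ : Finset (Fin d)).filter (fun i => ∃ a, y a = Sum.inr i)).card ≤ p := by
  obtain ⟨u, huU, hu0, hhigh⟩ := exists_high hU hne
  have hkill := hk u huU
  obtain ⟨hPe, hpair⟩ := decouple u hhigh fun a b hab x => tr_big hkill hab x
  have hQe : ∀ i j, i < j → i ∉ tor → j ∉ tor → ∀ x, Qe u i j x = 0 := by
    intro i j hij hi hj x
    rw [← hhigh i j hij hi hj x]
    exact hPe i j hij hi hj x
  have hpair' : ∀ y : ι → Le d, u y ≠ 0 → ∀ i a b, y a = Sum.inl i → y b ≠ Sum.inr i := by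
    intro y hy i a b ha hb
    have hab : a ≠ b := by
      rintro rfl
      rw [ha] at hb
      simp at hb
    apply hy
    have e : Function.update (Function.update y a (Sum.inl i)) b (Sum.inr i) = y := by
      rw [← ha, Function.update_eq_self, ← hb, Function.update_eq_self]
    rw [← e]
    by_cases hi : i ∈ tor
    · exact tr_tor hkill hab hi y
    · exact hpair a b hab i hi y
  obtain ⟨x0, hx0⟩ : ∃ x0, u x0 ≠ 0 := by
    by_contra hcon
    push Not at hcon
    exact hu0 (funext hcon)
  let emb : Fin (torᶜ).card → Fin d := (torᶜ).orderEmbOfFin rfl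
  have hmono : StrictMono emb := ((torᶜ).orderEmbOfFin rfl).strictMono
  have hrange : ∀ i, i ∉ tor ↔ ∃ k, emb k = i := by
    intro i
    rw [← Finset.mem_compl, ← Finset.mem_coe, ← Finset.range_orderEmbOfFin (torᶜ) rfl]
    rfl
  have hembt : ∀ k, emb k ∉ tor := fun k => (hrange _).2 ⟨k, rfl⟩
  obtain ⟨y, hy, hy1, hy2, hy3⟩ := word_step (tor := tor) (p := p) Sum.inl Sum.inl_injective u
    (fun K _ _ hK a ha l hl x => anti_e hd hp hkill hK a ha l hl x) emb hmono.injective hrange
    (fun k k' hkk x => hPe _ _ (hmono hkk) (hembt k) (hembt k') x) x0 hx0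
  obtain ⟨z, hz, hz1, hz2, hz3⟩ := word_step (tor := tor) (p := p) Sum.inr Sum.inr_injective u
    (fun K _ _ hK a ha l hl x => anti_f hd hp hkill hK a ha l hl x) (fun k => emb (Fin.rev k))
    (hmono.injective.comp Fin.rev_injective)
    (fun i => by
      rw [hrange i]
      constructor
      · rintro ⟨k, hk⟩
        exact ⟨Fin.rev k, by rw [Fin.rev_rev]; exact hk⟩
      · rintro ⟨k, hk⟩
        exact ⟨Fin.rev k, hk⟩)
    (fun k k' hkk x => hQe _ _ (hmono (Fin.rev_lt_rev.2 hkk)) (hembt _) (hembt _) x) y hy
  refine ⟨u, huU, z, hz, hpair' z hz, ?_, hz3⟩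
  refine le_trans (Finset.card_le_card ?_) hy3
  intro i hi
  rw [Finset.mem_filter] at hi ⊢
  obtain ⟨a, ha⟩ := hi.2
  refine ⟨Finset.mem_univ _, a, ?_⟩
  by_cases h : ∃ i ∉ tor, y a = Sum.inr i
  · obtain ⟨j, hj⟩ := hz2 a h
    rw [ha] at hj
    simp at hj
  · push Not at h
    rw [← hz1 a h]
    exact ha

end Pool.Agent.Helper48.WT
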