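import Pool.Agent.Helper48.WT.Eig
import Pool.Agent.Helper48.GC8.Arith

/-!
# WT-AUTO: for `p = 2` ordinary places exist automatically

`units_auto`. PROOF. `p = 2`, `d = 4`, `det g = q²`. Let `l` be as in `exists_eig`,
`e2 = charpoly.coeff 2 = ∑_{i<j} l i l j`, an integer by `hcoeff`.
(1) Some `z = (q, g) ∈ 𝓕`, `q` prime, has `q ∤ e2`. Otherwise `|e2| ≤ 6 q` (`|l i| = √q`) gives
`e2 = n q` with `|n| ≤ 6` for all `z ∈ 𝓕` with `q` prime, so the polynomial
`∏_{n=-6}^{6} (e2 (g) - n c)` in `(c, g)` (`e2 (g)` = coefficient of the characteristic polynomial =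
polynomial in the entries: `Matrix.charpoly` of the generic matrix, `Matrix.charpoly_map`) vanishes
on the group by density. At `c = 1`, `g = diagonal (10, 1/10, 10, 1/10)` (in the group for every
`tor`), `e2 = 2 + (10 + 1/10)^2 = 104.01`, contradiction.
(2) Let `P` be any prime of the ring of algebraic integers over `q` (`exists_prime` in
Helper48/GC8/Arith.lean). `P ∩ ℤ = q ℤ`, so `e2 ∉ P` and some product `l i l j`, `i ≠ j`, is not
in `P`; hence `l i, l j ∉ P`, and for the other two indices `l i l j = (q / l k) (q / l m) ∉ P`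
(`l i l j l k l m = q²`), so `q / l k, q / l m ∉ P`: `z` is ordinary at `P` (every root `β` of the
characteristic polynomial is some `l i`).
(3) `tor = ∅`: `S = ∅`, done. `tor = {i0}`: `l i0 = g i0 i0` and at `P` one of `l i0`, `q / l i0`
is outside of `P`. If `S = {i0}` and `l i0 ∉ P`, or `S = ∅` and `q / l i0 ∉ P`, take `P`.
Otherwise take the complex conjugate ideal `P'` of `P` (comap under complex conjugation of
`integralClosure ℤ ℂ`; see the proof of `exists_units` in BigMonodromyPowers.lean for automorphisms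
acting on ideals): `conj β = q / β` for the eigenvalues (`‖β‖ = √q`), so `β ∉ P' ↔ q / β ∉ P`.
-/

set_option autoImplicit false

namespace Pool.Agent.Helper48.WT

open Polynomial Pool.Agent.Helper48.GC8

private lemma wa40_coeff (a b c d : ℂ) :
    ((X - C a) * (X - C b) * (X - C c) * (X - C d)).coeff 2 =
        a * b + a * c + a * d + b * c + b * d + c * d ∧
      ((X - C a) * (X - C b) * (X - C c) * (X - C d)).coeff 0 = a * b * c * d := by
  have h : (X - C a) * (X - C b) * (X - C c) * (X - C d) =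
      X ^ 4 + C (-(a + b + c + d)) * X ^ 3 +
        C (a * b + a * c + a * d + b * c + b * d + c * d) * X ^ 2 +
        C (-(a * b * c + a * b * d + a * c * d + b * c * d)) * X + C (a * b * c * d) := by
    simp only [C_neg, C_add, C_mul]
    ring
  rw [h]
  constructor
  · simp only [coeff_add, coeff_C_mul, coeff_X_pow, coeff_X, coeff_C]
    norm_num
  · simp only [coeff_add, coeff_C_mul, coeff_X_pow, coeff_X, coeff_C]
    norm_num

/-- The integer elements of a prime ideal over `q`. -/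
private lemma wa40_int {P : Ideal (integralClosure ℤ ℂ)} (hP : P.IsPrime) {q : ℕ} (hq : q.Prime)
    (hqP : (q : integralClosure ℤ ℂ) ∈ P) {n : ℤ} (hn : (n : integralClosure ℤ ℂ) ∈ P) :
    (q : ℤ) ∣ n := by
  by_contra hcon
  have h1 : IsCoprime (q : ℤ) n :=
    (Nat.prime_iff_prime_int.1 hq).coprime_iff_not_dvd.2 hcon
  obtain ⟨a, b, hab⟩ := h1
  apply hP.ne_top
  rw [Ideal.eq_top_iff_one]
  have h2 : (a : integralClosure ℤ ℂ) * (q : integralClosure ℤ ℂ) +
      (b : integralClosure ℤ ℂ) * (n : integralClosure ℤ ℂ) = 1 := by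
    have := congrArg (Int.cast : ℤ → integralClosure ℤ ℂ) hab
    push_cast at this
    exact this
  rw [← h2]
  exact P.add_mem (P.mul_mem_left _ hqP) (P.mul_mem_left _ hn)

/-- Density gives a Frobenius at a prime `q` which does not divide the second coefficient. -/
private lemma wa40_exists {tor : Finset (Fin 4)}
    {𝓕 : Set (ℕ × Matrix (Fin 4) (Fin 4) ℂ)} (h𝓕 : ∀ z ∈ 𝓕, IsFrob 2 tor z)
    (hnorm : ∀ z ∈ 𝓕, ∀ β : ℂ, z.2.charpoly.IsRoot β → ‖β‖ = Real.sqrt z.1)
    (hcoeff : ∀ z ∈ 𝓕, ∃ n : ℤ, z.2.charpoly.coeff 2 = n)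
    (hdense : ∀ f : MvPolynomial (Option (Fin 4 × Fin 4)) ℂ,
      (∀ z ∈ 𝓕, z.1.Prime →
        MvPolynomial.eval (fun o => o.elim (z.1 : ℂ) (fun k => z.2 k.1 k.2)) f = 0) →
      ∀ (c : ℂ) (g : Matrix (Fin 4) (Fin 4) ℂ), InG 2 tor c g →
        MvPolynomial.eval (fun o => o.elim c (fun k => g k.1 k.2)) f = 0) :
    ∃ z ∈ 𝓕, z.1.Prime ∧ ∃ n : ℤ, z.2.charpoly.coeff 2 = n ∧ ¬ (z.1 : ℤ) ∣ n := by
  by_contra hcon
  push Not at hcon
  -- the polynomial
  let gen : Matrix (Fin 4) (Fin 4) (MvPolynomial (Option (Fin 4 × Fin 4)) ℂ) :=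
    Matrix.of fun i j => MvPolynomial.X (some (i, j))
  let E2 : MvPolynomial (Option (Fin 4 × Fin 4)) ℂ := gen.charpoly.coeff 2
  have hE2 : ∀ (c : ℂ) (g : Matrix (Fin 4) (Fin 4) ℂ),
      MvPolynomial.eval (fun o => o.elim c (fun k => g k.1 k.2)) E2 = g.charpoly.coeff 2 := by
    intro c g
    have h1 : gen.map (MvPolynomial.eval (fun o : Option (Fin 4 × Fin 4) =>
        o.elim c (fun k => g k.1 k.2))) = g := by
      ext i j
      simp [gen]
    rw [← congrArg (fun M : Matrix (Fin 4) (Fin 4) ℂ => M.charpoly.coeff 2) h1]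
    simp only [Matrix.charpoly_map, coeff_map, E2]
  let f : MvPolynomial (Option (Fin 4 × Fin 4)) ℂ :=
    ∏ n ∈ Finset.Icc (-6 : ℤ) 6, (E2 - MvPolynomial.C (n : ℂ) * MvPolynomial.X none)
  have hf : ∀ (c : ℂ) (g : Matrix (Fin 4) (Fin 4) ℂ),
      MvPolynomial.eval (fun o => o.elim c (fun k => g k.1 k.2)) f =
        ∏ n ∈ Finset.Icc (-6 : ℤ) 6, (g.charpoly.coeff 2 - (n : ℂ) * c) := by
    intro c g
    simp only [f, map_prod, map_sub, map_mul, hE2, MvPolynomial.eval_C, MvPolynomial.eval_X,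
      Option.elim_none]
  have hvan := hdense f ?_ 1 (Matrix.diagonal ![10, 1 / 10, 10, 1 / 10]) ?_
  · rw [hf, Finset.prod_eq_zero_iff] at hvan
    obtain ⟨n, hn, h0⟩ := hvan
    rw [Matrix.charpoly_diagonal, Fin.prod_univ_four] at h0
    rw [(wa40_coeff _ _ _ _).1] at h0
    have h1 : ((104 + 1 / 100 : ℝ) : ℂ) = ((n : ℝ) : ℂ) := by
      push_cast
      simp at h0
      linear_combination h0
    have h2 : (104 + 1 / 100 : ℝ) = n := by exact_mod_cast h1
    have h3 : (n : ℝ) ≤ 6 := by exact_mod_cast (Finset.mem_Icc.1 hn).2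
    norm_num at h2
    linarith
  · intro z hz hzp
    rw [hf, Finset.prod_eq_zero_iff]
    obtain ⟨n, hn⟩ := hcoeff z hz
    have hdvd := hcon z hz hzp n hn
    obtain ⟨m, rfl⟩ := hdvd
    refine ⟨m, ?_, ?_⟩
    · obtain ⟨l, -, hchar, -⟩ := exists_eig (h𝓕 z hz).inG (h𝓕 z hz).semisimple
      have hl : ∀ i, ‖l i‖ = Real.sqrt z.1 := by
        intro i
        refine hnorm z hz (l i) ?_
        rw [hchar, IsRoot.def, eval_prod]
        exact Finset.prod_eq_zero (Finset.mem_univ i) (by simp)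
      have hq0 : (0 : ℝ) < z.1 := by exact_mod_cast hzp.pos
      have hll : ∀ i j, ‖l i * l j‖ = z.1 := by
        intro i j
        rw [norm_mul, hl, hl, Real.mul_self_sqrt hq0.le]
      rw [hchar, Fin.prod_univ_four, (wa40_coeff _ _ _ _).1] at hn
      have h1 : ‖l 0 * l 1 + l 0 * l 2 + l 0 * l 3 + l 1 * l 2 + l 1 * l 3 + l 2 * l 3‖ ≤
          6 * z.1 := by
        refine (norm_add_le _ _).trans ?_
        have e1 := norm_add_le (l 0 * l 1 + l 0 * l 2 + l 0 * l 3 + l 1 * l 2) (l 1 * l 3)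
        have e2 := norm_add_le (l 0 * l 1 + l 0 * l 2 + l 0 * l 3) (l 1 * l 2)
        have e3 := norm_add_le (l 0 * l 1 + l 0 * l 2) (l 0 * l 3)
        have e4 := norm_add_le (l 0 * l 1) (l 0 * l 2)
        rw [hll] at e1 e2 e3 e4 ⊢
        rw [hll] at e4
        linarith
      rw [hn] at h1
      have h2 : |(z.1 : ℝ) * m| ≤ 6 * z.1 := by
        have h3 : ((((z.1 : ℤ) * m : ℤ)) : ℂ) = (((z.1 : ℝ) * m : ℝ) : ℂ) := by push_cast; rfl
        rw [h3, Complex.norm_real, Real.norm_eq_abs] at h1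
        exact h1
      rw [abs_mul, abs_of_pos hq0, mul_comm (6 : ℝ)] at h2
      have h3 : |(m : ℝ)| ≤ 6 := le_of_mul_le_mul_left h2 hq0
      rw [abs_le] at h3
      rw [Finset.mem_Icc]
      constructor
      · have := h3.1
        exact_mod_cast this
      · have := h3.2
        exact_mod_cast this
    · rw [hn]
      push_cast
      ring
  · refine ⟨one_ne_zero, fun i j hij _ => Matrix.diagonal_apply_ne _ hij, ?_⟩
    rw [Matrix.det_diagonal, Fin.prod_univ_four]
    simp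

theorem units_auto {d : ℕ} (hd : d = 4) {tor : Finset (Fin d)} (htor : tor.card ≤ 1)
    {𝓕 : Set (ℕ × Matrix (Fin d) (Fin d) ℂ)} (h𝓕 : ∀ z ∈ 𝓕, IsFrob 2 tor z)
    (hnorm : ∀ z ∈ 𝓕, ∀ β : ℂ, z.2.charpoly.IsRoot β → ‖β‖ = Real.sqrt z.1)
    (hcoeff : ∀ z ∈ 𝓕, ∃ n : ℤ, z.2.charpoly.coeff 2 = n)
    (hdense : ∀ f : MvPolynomial (Option (Fin d × Fin d)) ℂ,
      (∀ z ∈ 𝓕, z.1.Prime →
        MvPolynomial.eval (fun o => o.elim (z.1 : ℂ) (fun k => z.2 k.1 k.2)) f = 0) →
      ∀ (c : ℂ) (g : Matrix (Fin d) (Fin d) ℂ), InG 2 tor c g →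
        MvPolynomial.eval (fun o => o.elim c (fun k => g k.1 k.2)) f = 0) :
    Units 2 tor 𝓕 := by
  classical
  subst hd
  obtain ⟨z, hz, hzp, n, hn, hndvd⟩ := wa40_exists h𝓕 hnorm hcoeff hdense
  obtain ⟨l, hlt, hchar, -⟩ := exists_eig (h𝓕 z hz).inG (h𝓕 z hz).semisimple
  have hroot : ∀ i, z.2.charpoly.IsRoot (l i) := by
    intro i
    rw [hchar, IsRoot.def, eval_prod]
    exact Finset.prod_eq_zero (Finset.mem_univ i) (by simp)
  have hq0 : (0 : ℝ) < z.1 := by exact_mod_cast hzp.pos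
  have hqC : (z.1 : ℂ) ≠ 0 := by exact_mod_cast hzp.ne_zero
  have hl : ∀ i, ‖l i‖ = Real.sqrt z.1 := fun i => hnorm z hz (l i) (hroot i)
  have hl0 : ∀ i, l i ≠ 0 := by
    intro i h0
    have := hl i
    rw [h0, norm_zero] at this
    exact (Real.sqrt_pos.2 hq0).ne this
  let L : Fin 4 → integralClosure ℤ ℂ := fun i =>
    ⟨l i, ((h𝓕 z hz).integral (l i) (hroot i)).1⟩
  let Q : Fin 4 → integralClosure ℤ ℂ := fun i =>
    ⟨(z.1 : ℂ) / l i, ((h𝓕 z hz).integral (l i) (hroot i)).2⟩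
  have hdet : l 0 * l 1 * l 2 * l 3 = (z.1 : ℂ) ^ 2 := by
    have h1 := (h𝓕 z hz).inG.det
    rw [Matrix.det_eq_sign_charpoly_coeff, hchar, Fin.prod_univ_four, (wa40_coeff _ _ _ _).2] at h1
    rw [← h1]
    simp
    norm_num
  have he2 : l 0 * l 1 + l 0 * l 2 + l 0 * l 3 + l 1 * l 2 + l 1 * l 3 + l 2 * l 3 = n := by
    rw [hchar, Fin.prod_univ_four, (wa40_coeff _ _ _ _).1] at hn
    exact hn
  -- ordinary at all primes over `q`
  have hord : ∀ P : Ideal (integralClosure ℤ ℂ), P.IsPrime → (z.1 : integralClosure ℤ ℂ) ∈ P →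
      ∀ a, L a ∉ P ∨ Q a ∉ P := by
    intro P hP hqP
    have key : ∀ i j k m : Fin 4, l i * l j * l k * l m = (z.1 : ℂ) ^ 2 →
        (∀ a, a = i ∨ a = j ∨ a = k ∨ a = m) → L i * L j ∉ P → ∀ a, L a ∉ P ∨ Q a ∉ P := by
      intro i j k m hprod hall hnot
      have h1 : L i ∉ P := fun h => hnot (P.mul_mem_right _ h)
      have h2 : L j ∉ P := fun h => hnot (P.mul_mem_left _ h)
      have h3 : Q k * Q m = L i * L j := by
        apply Subtype.ext
        show (z.1 : ℂ) / l k * ((z.1 : ℂ) / l m) = l i * l j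
        have hk := hl0 k
        have hm := hl0 m
        field_simp
        linear_combination - hprod
      have h4 : Q k ∉ P := fun h => hnot (h3 ▸ P.mul_mem_right _ h)
      have h5 : Q m ∉ P := fun h => hnot (h3 ▸ P.mul_mem_left _ h)
      intro a
      rcases hall a with rfl | rfl | rfl | rfl
      · exact Or.inl h1
      · exact Or.inl h2
      · exact Or.inr h4
      · exact Or.inr h5
    by_contra hcon
    have hin : ∀ i j k m : Fin 4, l i * l j * l k * l m = (z.1 : ℂ) ^ 2 →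
        (∀ a, a = i ∨ a = j ∨ a = k ∨ a = m) → L i * L j ∈ P := by
      intro i j k m h1 h2
      by_contra h3
      exact hcon (key i j k m h1 h2 h3)
    have h01 := hin 0 1 2 3 hdet (by decide)
    have h02 := hin 0 2 1 3 (by rw [← hdet]; ring) (by decide)
    have h03 := hin 0 3 1 2 (by rw [← hdet]; ring) (by decide)
    have h12 := hin 1 2 0 3 (by rw [← hdet]; ring) (by decide)
    have h13 := hin 1 3 0 2 (by rw [← hdet]; ring) (by decide)
    have h23 := hin 2 3 0 1 (by rw [← hdet]; ring) (by decide)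
    have hsum := P.add_mem (P.add_mem (P.add_mem (P.add_mem (P.add_mem h01 h02) h03) h12) h13) h23
    have hsum' : L 0 * L 1 + L 0 * L 2 + L 0 * L 3 + L 1 * L 2 + L 1 * L 3 + L 2 * L 3 =
        (n : integralClosure ℤ ℂ) := by
      apply Subtype.ext
      push_cast
      exact he2
    rw [hsum'] at hsum
    exact hndvd (wa40_int hP hzp hqP hsum)
  have hIsOrd : ∀ P : Ideal (integralClosure ℤ ℂ), P.IsPrime →
      (z.1 : integralClosure ℤ ℂ) ∈ P → IsOrd z P := by
    intro P hP hqP β hβ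
    rw [hchar, IsRoot.def, eval_prod, Finset.prod_eq_zero_iff] at hβ
    obtain ⟨a, -, ha⟩ := hβ
    have hβa : β = l a := by
      rw [eval_sub, eval_X, eval_C] at ha
      exact sub_eq_zero.1 ha
    subst hβa
    rcases hord P hP hqP a with h | h
    · exact Or.inl fun x hx hxe => h (by rwa [show L a = x from Subtype.ext hxe.symm])
    · exact Or.inr fun x hx hxe => h (by rwa [show Q a = x from Subtype.ext hxe.symm])
  obtain ⟨P1, hP1, hqP1⟩ := exists_prime hzp.two_le
  intro S hS _ _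
  rcases tor.eq_empty_or_nonempty with rfl | hne
  · rw [Finset.subset_empty] at hS
    subst hS
    exact ⟨z, hz, P1, hP1, hqP1, hIsOrd P1 hP1 hqP1, by simp, by simp⟩
  · obtain ⟨i0, rfl⟩ := Finset.card_eq_one.1 (le_antisymm htor hne.card_pos)
    have hg : z.2 i0 i0 = l i0 := (hlt i0 (Finset.mem_singleton_self _)).symm
    -- the conjugate ideal
    let σ : ℂ ≃+* ℂ := Complex.conjAe.toRingEquiv
    let τ : integralClosure ℤ ℂ ≃ₐ[ℤ] integralClosure ℤ ℂ :=
      (σ.toIntAlgEquiv).mapIntegralClosure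
    have hτ : ∀ x : integralClosure ℤ ℂ, ((τ x : integralClosure ℤ ℂ) : ℂ) =
        (starRingEnd ℂ) (x : ℂ) := fun x => rfl
    let P2 : Ideal (integralClosure ℤ ℂ) := P1.comap (τ : _ →ₐ[ℤ] _)
    have hmem : ∀ x, x ∈ P2 ↔ τ x ∈ P1 := fun x => Iff.rfl
    have hP2 : P2.IsPrime := Ideal.comap_isPrime _ _
    have hqP2 : (z.1 : integralClosure ℤ ℂ) ∈ P2 := by
      rw [hmem, map_natCast]
      exact hqP1
    have hconj : (starRingEnd ℂ) (l i0) = (z.1 : ℂ) / l i0 := by
      rw [eq_div_iff (hl0 i0), mul_comm, Complex.mul_conj, Complex.normSq_eq_norm_sq, hl,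
        Real.sq_sqrt hq0.le]
      simp
    have hτL : τ (L i0) = Q i0 := Subtype.ext (by rw [hτ]; exact hconj)
    have hτQ : τ (Q i0) = L i0 := by
      apply Subtype.ext
      rw [hτ]
      show (starRingEnd ℂ) ((z.1 : ℂ) / l i0) = l i0
      rw [← hconj]
      exact Complex.conj_conj _
    have hcase : ∀ R : integralClosure ℤ ℂ, ((R = L i0) ∨ (R = Q i0)) →
        ∃ P : Ideal (integralClosure ℤ ℂ), P.IsPrime ∧ (z.1 : integralClosure ℤ ℂ) ∈ P ∧ R ∉ P := by
      rintro R (rfl | rfl)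
      · by_cases h : L i0 ∈ P1
        · refine ⟨P2, hP2, hqP2, ?_⟩
          rw [hmem, hτL]
          exact (hord P1 hP1 hqP1 i0).resolve_left (fun h' => h' h)
        · exact ⟨P1, hP1, hqP1, h⟩
      · by_cases h : Q i0 ∈ P1
        · refine ⟨P2, hP2, hqP2, ?_⟩
          rw [hmem, hτQ]
          exact (hord P1 hP1 hqP1 i0).resolve_right (fun h' => h' h)
        · exact ⟨P1, hP1, hqP1, h⟩
    rcases Finset.subset_singleton_iff.1 hS with rfl | rfl
    · obtain ⟨P, hP, hqP, hR⟩ := hcase (Q i0) (Or.inr rfl)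
      refine ⟨z, hz, P, hP, hqP, hIsOrd P hP hqP, by simp, ?_⟩
      intro i hi x hx hxe
      rw [Finset.sdiff_empty, Finset.mem_singleton] at hi
      subst hi
      rw [hg] at hxe
      exact hR (by rwa [show Q i = x from Subtype.ext hxe.symm])
    · obtain ⟨P, hP, hqP, hR⟩ := hcase (L i0) (Or.inl rfl)
      refine ⟨z, hz, P, hP, hqP, hIsOrd P hP hqP, ?_, by simp⟩
      intro i hi x hx hxe
      rw [Finset.mem_singleton] at hi
      subst hi
      rw [hg] at hxe
      exact hR (by rwa [show L i = x from Subtype.ext hxe.symm])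

end Pool.Agent.Helper48.WT
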