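import Pool.Agent.Helper48.WT.Defs

/-!
# WT: basic facts on the group (proved by helper48)
-/

set_option autoImplicit false

namespace Pool.Agent.Helper48.WT

open Polynomial Pool.Agent.Helper48.GC8

variable {d p : ℕ} {tor : Finset (Fin d)}

lemma InG.isUnit {c : ℂ} {g : Matrix (Fin d) (Fin d) ℂ} (h : InG p tor c g) : IsUnit g.det := by
  rw [h.det]
  exact (isUnit_iff_ne_zero.2 (pow_ne_zero _ h.ne))

lemma InG.one : InG p tor 1 (1 : Matrix (Fin d) (Fin d) ℂ) :=
  ⟨one_ne_zero, fun i j hij _ => Matrix.one_apply_ne hij, by simp⟩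

lemma InG.mul {c c' : ℂ} {g g' : Matrix (Fin d) (Fin d) ℂ} (h : InG p tor c g)
    (h' : InG p tor c' g') : InG p tor (c * c') (g * g') := by
  refine ⟨mul_ne_zero h.ne h'.ne, fun i j hij ht => ?_, by rw [Matrix.det_mul, h.det, h'.det,
    mul_pow]⟩
  rw [Matrix.mul_apply]
  refine Finset.sum_eq_zero fun k _ => ?_
  by_cases hik : i = k
  · subst hik
    rw [h'.diag i j hij ht, mul_zero]
  · by_cases hkj : k = j
    · subst hkj
      rw [h.diag i k hik ht, zero_mul]
    · rcases ht with ht | ht
      · rw [h.diag i k hik (Or.inl ht), zero_mul]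
      · rw [h'.diag k j hkj (Or.inr ht), mul_zero]

lemma InG.conjTranspose {c : ℂ} {g : Matrix (Fin d) (Fin d) ℂ} (h : InG p tor c g) :
    InG p tor (star c) g.conjTranspose := by
  refine ⟨by simpa using h.ne, fun i j hij ht => ?_, ?_⟩
  · rw [Matrix.conjTranspose_apply, h.diag j i (Ne.symm hij) ht.symm, star_zero]
  · rw [Matrix.det_conjTranspose, h.det, star_pow]

lemma frob_conjTranspose (c : ℂ) (g : Matrix (Fin d) (Fin d) ℂ) :
    (frob c g).conjTranspose = frob (star c) g.conjTranspose := by
  unfold frob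
  rw [Matrix.fromBlocks_conjTranspose]
  congr 1
  · simp
  · simp
  · rw [Matrix.conjTranspose_smul, ← Matrix.conjTranspose_nonsing_inv]
    rfl

lemma frob_mul {c c' : ℂ} {g g' : Matrix (Fin d) (Fin d) ℂ} :
    frob (c * c') (g * g') = frob c g * frob c' g' := by
  unfold frob
  rw [Matrix.fromBlocks_multiply]
  congr 1
  · simp
  · simp
  · simp
  · rw [Matrix.mul_inv_rev, Matrix.transpose_mul]
    simp [smul_smul, mul_comm]

lemma frob_one : frob (1 : ℂ) (1 : Matrix (Fin d) (Fin d) ℂ) = 1 := by
  unfold frob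
  simp

/-- `frob` of a diagonal matrix. -/
lemma frob_diagonal (c : ℂ) (l : Fin d → ℂ) (hl : ∀ i, l i ≠ 0) :
    frob c (Matrix.diagonal l) = Matrix.diagonal (Sum.elim l (fun i => c / l i)) := by
  unfold frob
  have h1 : (Matrix.diagonal l)⁻¹ = Matrix.diagonal (fun i => (l i)⁻¹) := by
    rw [Matrix.inv_eq_right_inv]
    rw [Matrix.diagonal_mul_diagonal]
    rw [← Matrix.diagonal_one]
    congr 1
    funext i
    exact mul_inv_cancel₀ (hl i)
  rw [h1, Matrix.diagonal_transpose]
  ext i j
  rcases i with i | i <;> rcases j with j | j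
  · simp [Matrix.diagonal_apply]
  · simp
  · simp
  · by_cases hij : i = j
    · subst hij
      simp [div_eq_mul_inv]
    · simp [hij]

/-- the inverse is in the group -/
lemma InG.inv {c : ℂ} {g : Matrix (Fin d) (Fin d) ℂ} (h : InG p tor c g) :
    InG p tor c⁻¹ g⁻¹ := by
  have hu := h.isUnit
  refine ⟨inv_ne_zero h.ne, ?_, ?_⟩
  · have key : ∀ i j, i ≠ j → i ∈ tor → g⁻¹ i j = 0 := by
      intro i j hij ht
      have h1 : (g * g⁻¹) i j = 0 := by
        rw [Matrix.mul_nonsing_inv _ hu, Matrix.one_apply_ne hij]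
      rw [Matrix.mul_apply, Finset.sum_eq_single i] at h1
      · rcases mul_eq_zero.1 h1 with h2 | h2
        · exfalso
          have h3 : (g * g⁻¹) i i = 1 := by
            rw [Matrix.mul_nonsing_inv _ hu, Matrix.one_apply_eq]
          rw [Matrix.mul_apply, Finset.sum_eq_single i] at h3
          · rw [h2, zero_mul] at h3
            exact zero_ne_one h3
          · intro k _ hk
            rw [h.diag i k (Ne.symm hk) (Or.inl ht), zero_mul]
          · intro h4; exact absurd (Finset.mem_univ _) h4
        · exact h2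
      · intro k _ hk
        rw [h.diag i k (Ne.symm hk) (Or.inl ht), zero_mul]
      · intro h4; exact absurd (Finset.mem_univ _) h4
    have key' : ∀ i j, i ≠ j → j ∈ tor → g⁻¹ i j = 0 := by
      intro i j hij ht
      have h1 : (g⁻¹ * g) i j = 0 := by
        rw [Matrix.nonsing_inv_mul _ hu, Matrix.one_apply_ne hij]
      rw [Matrix.mul_apply, Finset.sum_eq_single j] at h1
      · rcases mul_eq_zero.1 h1 with h2 | h2
        · exact h2
        · exfalso
          have h3 : (g⁻¹ * g) j j = 1 := by
            rw [Matrix.nonsing_inv_mul _ hu, Matrix.one_apply_eq]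
          rw [Matrix.mul_apply, Finset.sum_eq_single j] at h3
          · rw [h2, mul_zero] at h3
            exact zero_ne_one h3
          · intro k _ hk
            rw [h.diag k j hk (Or.inr ht), mul_zero]
          · intro h4; exact absurd (Finset.mem_univ _) h4
      · intro k _ hk
        rw [h.diag k j hk (Or.inr ht), mul_zero]
      · intro h4; exact absurd (Finset.mem_univ _) h4
    intro i j hij ht
    rcases ht with ht | ht
    · exact key i j hij ht
    · exact key' i j hij ht
  · rw [Matrix.det_nonsing_inv, h.det, Ring.inverse_eq_inv', inv_pow]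

end Pool.Agent.Helper48.WT
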