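import Pool.Agent.Helper48.GC8.Claim
import Pool.Agent.Helper60.GTC.Link

/-!
# Abelian varieties of Weil type: definitions (project WT)

`W = ℂ^d`, `d = 2p`, and its dual `W'`; the letters `inl i = e_i`, `inr i = f_i` are the standard
bases.  The group consists of the pairs `(c, g)` with `det g = c ^ p`, `g` diagonal at the indices
in `tor`; it acts by `g` on `W` and by `c (g⁻¹)ᵀ` on `W'`.
-/

set_option autoImplicit false

namespace Pool.Agent.Helper48.WT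

open Polynomial Pool.Agent.Helper48.GC8

/-- The letters: `inl i` is the basis vector `e_i` of `W`, `inr i` is `f_i` in `W'`. -/
abbrev Le (d : ℕ) : Type := Fin d ⊕ Fin d

/-- `g` on `W` and `c (g⁻¹)ᵀ` on `W'`. -/
noncomputable def frob {d : ℕ} (c : ℂ) (g : Matrix (Fin d) (Fin d) ℂ) :
    Matrix (Le d) (Le d) ℂ :=
  Matrix.fromBlocks g 0 0 (c • (g⁻¹).transpose)

/-- The group: `c ≠ 0`, `g` is diagonal at the indices in `tor`, and `det g = c ^ p`. -/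
structure InG {d : ℕ} (p : ℕ) (tor : Finset (Fin d)) (c : ℂ) (g : Matrix (Fin d) (Fin d) ℂ) :
    Prop where
  ne : c ≠ 0
  diag : ∀ i j, i ≠ j → i ∈ tor ∨ j ∈ tor → g i j = 0
  det : g.det = c ^ p

section Tensors

variable {d : ℕ} (p : ℕ) (tor : Finset (Fin d)) {ι κ : Type} [Fintype ι] [DecidableEq ι]
  [Fintype κ] [DecidableEq κ]

/-- Stability of a space of tensors under the group. -/
def Stab (U : Submodule ℂ (Ten ι (Le d))) : Prop :=
  ∀ (c : ℂ) (g : Matrix (Fin d) (Fin d) ℂ), InG p tor c g →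
    ∀ u ∈ U, rho Finset.univ (frob c g) u ∈ U

/-- The eigenvalues of the Frobenii on `U` are divisible by `q ^ t`. -/
def Good (𝓕 : Set (ℕ × Matrix (Fin d) (Fin d) ℂ)) (t : ℕ) (U : Submodule ℂ (Ten ι (Le d))) :
    Prop :=
  ∀ z ∈ 𝓕, ∃ Q : ℂ[X], (∀ β : ℂ, Q.IsRoot β → IsIntegral ℤ (β / (z.1 : ℂ) ^ t)) ∧
    ∀ u ∈ U, aeval (rho Finset.univ (frob (z.1 : ℂ) z.2)) Q u = 0

/-- Equivariant maps with Tate twist `t`. -/
def Equi (t : ℕ) (φ : Ten κ (Le d) →ₗ[ℂ] Ten ι (Le d)) : Prop :=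
  ∀ (c : ℂ) (g : Matrix (Fin d) (Fin d) ℂ), InG p tor c g → ∀ u,
    rho Finset.univ (frob c g) (φ u) = c ^ t • φ (rho Finset.univ (frob c g) u)

/-- Equivariant contractions of degree one. -/
def CoEqui (φ : Ten ι (Le d) →ₗ[ℂ] Ten κ (Le d)) : Prop :=
  ∀ (c : ℂ) (g : Matrix (Fin d) (Fin d) ℂ), InG p tor c g → ∀ u,
    φ (rho Finset.univ (frob c g) u) = c • rho Finset.univ (frob c g) (φ u)

/-- The tensor is killed by all equivariant contractions of degree one. -/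
def Killed (u : Ten ι (Le d)) : Prop :=
  ∀ φ : Ten ι (Le d) →ₗ[ℂ] Ten (Fin (Fintype.card ι - 2)) (Le d), CoEqui p tor φ → φ u = 0

variable (ι) in
/-- The span of the images of all equivariant maps from the tensors of degree `|ι| - 2ν`. -/
def tt (ν : ℕ) : Submodule ℂ (Ten ι (Le d)) :=
  Submodule.span ℂ {x | ∃ φ : Ten (Fin (Fintype.card ι - 2 * ν)) (Le d) →ₗ[ℂ] Ten ι (Le d),
    Equi p tor ν φ ∧ ∃ y, x = φ y}

/-- The raising operator `e_j ↦ e_i` on the letters of `W`. -/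
noncomputable def Pe (u : Ten ι (Le d)) (i j : Fin d) (x : ι → Le d) : ℂ :=
  ∑ a, if x a = Sum.inl i then u (Function.update x a (Sum.inl j)) else 0

/-- The raising operator `f_i ↦ f_j` on the letters of `W'`. -/
noncomputable def Qe (u : Ten ι (Le d)) (i j : Fin d) (x : ι → Le d) : ℂ :=
  ∑ a, if x a = Sum.inr j then u (Function.update x a (Sum.inr i)) else 0

end Tensors

/-- The Frobenii: elements of the group, semisimple, with integral eigenvalues `β`, `q / β`. -/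
structure IsFrob {d : ℕ} (p : ℕ) (tor : Finset (Fin d))
    (z : ℕ × Matrix (Fin d) (Fin d) ℂ) : Prop where
  two_le : 2 ≤ z.1
  inG : InG p tor (z.1 : ℂ) z.2
  semisimple : Module.End.IsSemisimple (Matrix.toLin' z.2)
  integral : ∀ β : ℂ, z.2.charpoly.IsRoot β →
    IsIntegral ℤ β ∧ IsIntegral ℤ ((z.1 : ℂ) / β)

/-- Ordinary at the prime `P`: for every eigenvalue `β` one of `β`, `q / β` is outside of `P`. -/
def IsOrd {d : ℕ} (z : ℕ × Matrix (Fin d) (Fin d) ℂ) (P : Ideal (integralClosure ℤ ℂ)) : Prop :=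
  ∀ β : ℂ, z.2.charpoly.IsRoot β → (∀ x ∈ P, (x : ℂ) ≠ β) ∨ ∀ x ∈ P, (x : ℂ) ≠ (z.1 : ℂ) / β

/-- For every set `S` of torus indices with `|S|, |tor \ S| ≤ p` some Frobenius is ordinary at some
prime over `q` at which the eigenvalues at `S` are units and those at `tor \ S` are not. -/
def Units {d : ℕ} (p : ℕ) (tor : Finset (Fin d))
    (𝓕 : Set (ℕ × Matrix (Fin d) (Fin d) ℂ)) : Prop :=
  ∀ S ⊆ tor, S.card ≤ p → (tor \ S).card ≤ p → ∃ z ∈ 𝓕,
    ∃ P : Ideal (integralClosure ℤ ℂ), P.IsPrime ∧ (z.1 : integralClosure ℤ ℂ) ∈ P ∧ IsOrd z P ∧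
      (∀ i ∈ S, ∀ x ∈ P, (x : ℂ) ≠ z.2 i i) ∧
      ∀ i ∈ tor \ S, ∀ x ∈ P, (x : ℂ) ≠ (z.1 : ℂ) / z.2 i i

/-- The elements of `Λⁱ(Vⁿ)` obtained from `Λ^(i-2ν)(Vᵐ)`, for some `m`, by linear maps
commuting with the group up to the factor `c ^ ν`. -/
noncomputable def tateSpan {d : ℕ} (p : ℕ) (tor : Finset (Fin d)) (n i ν : ℕ) :
    Submodule ℂ (ExteriorAlgebra ℂ (Fin n → Le d → ℂ)) :=
  Submodule.span ℂ {x | ∃ (m : ℕ) (φ : ExteriorAlgebra ℂ (Fin m → Le d → ℂ) →ₗ[ℂ]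
      ExteriorAlgebra ℂ (Fin n → Le d → ℂ)),
    (∀ y ∈ ⋀[ℂ]^(i - 2 * ν) (Fin m → Le d → ℂ), φ y ∈ ⋀[ℂ]^i (Fin n → Le d → ℂ)) ∧
    (∀ (c : ℂ) (g : Matrix (Fin d) (Fin d) ℂ), InG p tor c g →
      ∀ y ∈ ⋀[ℂ]^(i - 2 * ν) (Fin m → Le d → ℂ),
        ExteriorAlgebra.map ((Matrix.toLin' (frob c g)).compLeft (Fin n)) (φ y) =
          c ^ ν • φ (ExteriorAlgebra.map ((Matrix.toLin' (frob c g)).compLeft (Fin m)) y)) ∧
    ∃ y ∈ ⋀[ℂ]^(i - 2 * ν) (Fin m → Le d → ℂ), x = φ y}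

end Pool.Agent.Helper48.WT
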