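import Pool.Agent.Helper48.WT.Basic

/-!
# WT-DENSE: Zariski density

`stab_of_dense`. PROOF (compare `stab_of_dense` in Results/MP_8abef2_ag/BigMonodromyPowers.lean).
If `rho univ (frob c g) u ∉ U` take a linear form `f` zero on `U` and nonzero there.
`c ^ p • frob c g = fromBlocks (c ^ p • g) 0 0 (c • (adj g)ᵀ)` on the group, its entries are
polynomials in `c` and the entries of `g`, and
`f (rho univ (c ^ p • frob c g) u) = c ^ (p |ι|) f (rho univ (frob c g) u)`; it vanishes on `𝓕`,
hence on the group.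
-/

set_option autoImplicit false

namespace Pool.Agent.Helper48.WT

open Polynomial Pool.Agent.Helper48.GC8

variable {d p : ℕ} {tor : Finset (Fin d)} {ι : Type} [Fintype ι] [DecidableEq ι]

private lemma rho_smul {I : Type} [Fintype I] [DecidableEq I] (a : ℂ) (X : Matrix I I ℂ)
    (u : Ten ι I) :
    rho Finset.univ (a • X) u = a ^ Fintype.card ι • rho Finset.univ X u := by
  funext x
  rw [Pi.smul_apply, rho_apply, rho_apply, smul_eq_mul, Finset.mul_sum]
  refine Finset.sum_congr rfl fun y _ => ?_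
  simp only [Finset.mem_univ, if_true, Matrix.smul_apply, smul_eq_mul]
  rw [Finset.prod_mul_distrib, Finset.prod_const, Finset.card_univ]
  ring

private lemma frob_smul {c : ℂ} {g : Matrix (Fin d) (Fin d) ℂ} (h : InG p tor c g) :
    c ^ p • frob c g =
      Matrix.fromBlocks (c ^ p • g) 0 0 (c • g.adjugate.transpose) := by
  unfold frob
  rw [Matrix.fromBlocks_smul]
  simp only [smul_zero]
  congr 1
  have h1 : c ^ p • g⁻¹ = g.adjugate := by
    rw [Matrix.inv_def, smul_smul, h.det, Ring.inverse_eq_inv',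
      mul_inv_cancel₀ (pow_ne_zero _ h.ne), one_smul]
  rw [← h1, Matrix.transpose_smul, smul_comm]

theorem stab_of_dense {𝓕 : Set (ℕ × Matrix (Fin d) (Fin d) ℂ)}
    (h𝓕 : ∀ z ∈ 𝓕, InG p tor (z.1 : ℂ) z.2)
    (hdense : ∀ f : MvPolynomial (Option (Fin d × Fin d)) ℂ,
      (∀ z ∈ 𝓕, MvPolynomial.eval (fun o => o.elim (z.1 : ℂ) (fun k => z.2 k.1 k.2)) f = 0) →
      ∀ (c : ℂ) (g : Matrix (Fin d) (Fin d) ℂ), InG p tor c g →
        MvPolynomial.eval (fun o => o.elim c (fun k => g k.1 k.2)) f = 0)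
    {U : Submodule ℂ (Ten ι (Le d))}
    (hU : ∀ z ∈ 𝓕, ∀ u ∈ U, rho Finset.univ (frob (z.1 : ℂ) z.2) u ∈ U) : Stab p tor U := by
  classical
  intro c g hcg u hu
  by_contra hcon
  obtain ⟨f, hf, hfU⟩ := Submodule.exists_dual_map_eq_bot_of_notMem hcon inferInstance
  let Gm : Matrix (Fin d) (Fin d) (MvPolynomial (Option (Fin d × Fin d)) ℂ) :=
    Matrix.of fun i j => MvPolynomial.X (some (i, j))
  let B : Matrix (Le d) (Le d) (MvPolynomial (Option (Fin d × Fin d)) ℂ) :=
    Matrix.fromBlocks ((MvPolynomial.X none : MvPolynomial (Option (Fin d × Fin d)) ℂ) ^ p • Gm) 0 0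
      ((MvPolynomial.X none : MvPolynomial (Option (Fin d × Fin d)) ℂ) • Gm.adjugate.transpose)
  let F : MvPolynomial (Option (Fin d × Fin d)) ℂ :=
    ∑ x : ι → Le d, MvPolynomial.C (f (Pi.single x 1)) *
      ∑ y : ι → Le d, (∏ k, B (x k) (y k)) * MvPolynomial.C (u y)
  have hB : ∀ (c : ℂ) (g : Matrix (Fin d) (Fin d) ℂ) (i j : Le d),
      MvPolynomial.eval (fun o => o.elim c (fun k => g k.1 k.2)) (B i j) =
        Matrix.fromBlocks (c ^ p • g) 0 0 (c • g.adjugate.transpose) i j := by
    intro c g i j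
    have hG : (MvPolynomial.eval (fun o : Option (Fin d × Fin d) =>
        o.elim c (fun k => g k.1 k.2))).mapMatrix Gm = g := by
      ext i j
      simp [Gm]
    have hadj : ∀ i j, MvPolynomial.eval (fun o : Option (Fin d × Fin d) =>
        o.elim c (fun k => g k.1 k.2)) (Gm.adjugate i j) = g.adjugate i j := by
      intro i j
      have h1 := RingHom.map_adjugate (MvPolynomial.eval (fun o : Option (Fin d × Fin d) =>
        o.elim c (fun k => g k.1 k.2))) Gm
      rw [hG] at h1
      exact congrFun (congrFun h1 i) j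
    rcases i with i | i <;> rcases j with j | j
    · simp [B, Gm]
    · simp [B]
    · simp [B]
    · simp [B, hadj]
  have hF : ∀ (c : ℂ) (g : Matrix (Fin d) (Fin d) ℂ),
      MvPolynomial.eval (fun o => o.elim c (fun k => g k.1 k.2)) F =
        f (rho Finset.univ
          (Matrix.fromBlocks (c ^ p • g) 0 0 (c • g.adjugate.transpose)) u) := by
    intro c g
    set Y : Matrix (Le d) (Le d) ℂ :=
      Matrix.fromBlocks (c ^ p • g) 0 0 (c • g.adjugate.transpose) with hY
    have h1 : rho Finset.univ Y u =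
        ∑ x : ι → Le d, (rho Finset.univ Y u x) • (Pi.single x (1 : ℂ) : Ten ι (Le d)) := by
      funext y
      simp [Finset.sum_apply, Pi.single_apply]
    rw [h1, map_sum]
    simp only [map_sum, map_mul, map_prod, MvPolynomial.eval_C, map_smul,
      smul_eq_mul, rho_apply, Finset.mem_univ, if_true, hB]
    exact Finset.sum_congr rfl fun x _ => mul_comm _ _
  have h1 := hdense F (fun z hz => by
    rw [hF, ← frob_smul (h𝓕 z hz), rho_smul, map_smul]
    have h2 : f (rho Finset.univ (frob (z.1 : ℂ) z.2) u) ∈ U.map f :=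
      Submodule.mem_map_of_mem (hU z hz u hu)
    rw [hfU] at h2
    rw [(Submodule.mem_bot ℂ).1 h2, smul_zero]) c g hcg
  rw [hF, ← frob_smul hcg, rho_smul, map_smul, smul_eq_mul] at h1
  rcases mul_eq_zero.1 h1 with h2 | h2
  · exact pow_ne_zero _ (pow_ne_zero _ hcg.ne) h2
  · exact hf h2

end Pool.Agent.Helper48.WT
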