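import Pool.Agent.Helper48.WT.Eig
import Pool.Agent.Helper60.GTC.DivEff

/-!
# WT-EFF: the images of equivariant maps are effective

`tate_integral`. PROOF. `V = Le d → ℂ`, `X = frob q g`. By `exists_eig` (`π = 1`) `g * Y = Y * D`,
so `X` has the eigenbasis given by the columns of `frob 1 Y`, with eigenvalues `l i` and `q / l i`
(`frob_mul`, `frob_diagonal`), all algebraic integers (`IsFrob.integral`) and closed under
`α ↦ q / α`. Hence `T_m = ExteriorAlgebra.map (X on each of the m summands)` acts on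
`Λ^j (V^m)`, `j = i - 2ν`, diagonally with eigenvalues `η` = products of `j` eigenvalues of `X`
(`power_basis`, `map_basis`, `mem_span_of_mem_pow` of `Pool.Agent.Helper60.GTC.DivEff`). For `y` in
this eigenbasis `T_n (φ y) = q^ν η φ y`, so `x` is in the span of eigenvectors of `T_n` with
eigenvalues `q^ν η`, and `β = q^ν η` for one of them (`eig_of_span`): `β / q^ν = η` is a product
of `j` eigenvalues, an algebraic integer, and `q^(i-ν) / β = q^j / η` is the product of the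
`q / α`, also one (`i - ν = ν + j`). (`q ≠ 0`; `η ≠ 0` as `det g ≠ 0`.)
-/

set_option autoImplicit false

namespace Pool.Agent.Helper48.WT

open Polynomial Pool.Agent.Helper48.GC8

variable {d p : ℕ} {tor : Finset (Fin d)}

/-- an eigenbasis of `frob q g` -/
private lemma eff_basis {z : ℕ × Matrix (Fin d) (Fin d) ℂ} (hz : IsFrob p tor z) :
    ∃ (N : ℕ) (b : Module.Basis (Fin N) ℂ (Le d → ℂ)) (lam : Fin N → ℂ),
      (∀ i, Matrix.toLin' (frob (z.1 : ℂ) z.2) (b i) = lam i • b i) ∧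
      ∀ i, IsIntegral ℤ (lam i) ∧ IsIntegral ℤ ((z.1 : ℂ) / lam i) := by
  classical
  obtain ⟨l, -, hchar, hY⟩ := exists_eig hz.inG hz.semisimple
  obtain ⟨Y, hYG, hY1⟩ := hY 1 (fun i _ => rfl)
  simp only [Equiv.Perm.coe_one, id_eq] at hY1
  have hdet : ∏ i, l i ≠ 0 := by
    have h1 := congrArg Matrix.det hY1
    rw [Matrix.det_mul, Matrix.det_mul, Matrix.det_diagonal, mul_comm] at h1
    have h2 : Y.det ≠ 0 := hYG.isUnit.ne_zero
    have h3 := mul_left_cancel₀ h2 h1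
    rw [← h3]
    exact hz.inG.isUnit.ne_zero
  have hl : ∀ i, l i ≠ 0 := fun i => Finset.prod_ne_zero_iff.1 hdet i (Finset.mem_univ i)
  have hroot : ∀ i, z.2.charpoly.IsRoot (l i) := by
    intro i
    rw [hchar, Polynomial.IsRoot, Polynomial.eval_prod]
    exact Finset.prod_eq_zero (Finset.mem_univ i) (by simp)
  have hint : ∀ i, IsIntegral ℤ (l i) ∧ IsIntegral ℤ ((z.1 : ℂ) / l i) :=
    fun i => hz.integral _ (hroot i)
  have hq0 : (z.1 : ℂ) ≠ 0 := hz.inG.ne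
  -- the matrix identity
  have hXP : frob (z.1 : ℂ) z.2 * frob 1 Y =
      frob 1 Y * Matrix.diagonal (Sum.elim l (fun i => (z.1 : ℂ) / l i)) := by
    rw [← frob_mul, ← frob_diagonal (z.1 : ℂ) l hl, ← frob_mul, hY1, mul_one, one_mul]
  have hPinv : frob (1 : ℂ) Y * frob 1 Y⁻¹ = 1 := by
    rw [← frob_mul, Matrix.mul_nonsing_inv _ hYG.isUnit, mul_one, frob_one]
  have hPinv' : frob (1 : ℂ) Y⁻¹ * frob 1 Y = 1 := by
    rw [← frob_mul, Matrix.nonsing_inv_mul _ hYG.isUnit, mul_one, frob_one]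
  let ev : Le d → ℂ := Sum.elim l (fun i => (z.1 : ℂ) / l i)
  let L : (Le d → ℂ) ≃ₗ[ℂ] (Le d → ℂ) := Matrix.toLin'OfInv hPinv' hPinv
  let b0 : Module.Basis (Le d) ℂ (Le d → ℂ) := (Pi.basisFun ℂ (Le d)).map L
  have hb0 : ∀ i, b0 i = (frob (1 : ℂ) Y).mulVec (Pi.single i 1) := by
    intro i
    simp only [b0, L, Module.Basis.map_apply, Pi.basisFun_apply]
    rfl
  have hb : ∀ i, Matrix.toLin' (frob (z.1 : ℂ) z.2) (b0 i) = ev i • b0 i := by
    intro i
    rw [hb0, Matrix.toLin'_apply, Matrix.mulVec_mulVec, hXP, ← Matrix.mulVec_mulVec]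
    have h5 : (Matrix.diagonal (Sum.elim l (fun i => (z.1 : ℂ) / l i))).mulVec (Pi.single i 1) =
        ev i • Pi.single i 1 := by
      funext j
      rw [Matrix.mulVec_diagonal, Pi.smul_apply, smul_eq_mul]
      rcases eq_or_ne j i with rfl | hji
      · rfl
      · rw [Pi.single_eq_of_ne hji, mul_zero, mul_zero]
    rw [h5, Matrix.mulVec_smul]
  let e := Fintype.equivFin (Le d)
  refine ⟨_, b0.reindex e, fun j => ev (e.symm j), fun j => ?_, fun j => ?_⟩
  · rw [Module.Basis.reindex_apply]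
    exact hb _
  · rcases hj : e.symm j with i | i
    · simp only [ev, hj, Sum.elim_inl]
      exact hint i
    · simp only [ev, hj, Sum.elim_inr]
      refine ⟨(hint i).2, ?_⟩
      rw [div_div_cancel₀ hq0]
      exact (hint i).1

theorem tate_integral {z : ℕ × Matrix (Fin d) (Fin d) ℂ} (hz : IsFrob p tor z) {n i ν : ℕ}
    (hi : 2 * ν ≤ i) {x : ExteriorAlgebra ℂ (Fin n → Le d → ℂ)}
    (hx : x ∈ Submodule.span ℂ {x | ∃ (m : ℕ) (φ : ExteriorAlgebra ℂ (Fin m → Le d → ℂ) →ₗ[ℂ]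
        ExteriorAlgebra ℂ (Fin n → Le d → ℂ)),
      (∀ y ∈ ⋀[ℂ]^(i - 2 * ν) (Fin m → Le d → ℂ),
        ExteriorAlgebra.map ((Matrix.toLin' (frob (z.1 : ℂ) z.2)).compLeft (Fin n)) (φ y) =
          (z.1 : ℂ) ^ ν • φ (ExteriorAlgebra.map
            ((Matrix.toLin' (frob (z.1 : ℂ) z.2)).compLeft (Fin m)) y)) ∧
      ∃ y ∈ ⋀[ℂ]^(i - 2 * ν) (Fin m → Le d → ℂ), x = φ y}) (hx0 : x ≠ 0) {β : ℂ}
    (hβ : ExteriorAlgebra.map ((Matrix.toLin' (frob (z.1 : ℂ) z.2)).compLeft (Fin n)) x =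
      β • x) :
    IsIntegral ℤ (β / (z.1 : ℂ) ^ ν) ∧ IsIntegral ℤ ((z.1 : ℂ) ^ (i - ν) / β) := by
  classical
  obtain ⟨N0, b, lam, hb, hlam⟩ := eff_basis hz
  have hq0 : (z.1 : ℂ) ≠ 0 := hz.inG.ne
  set F : Module.End ℂ (Le d → ℂ) := Matrix.toLin' (frob (z.1 : ℂ) z.2) with hF
  set T : Module.End ℂ (ExteriorAlgebra ℂ (Fin n → Le d → ℂ)) :=
    (ExteriorAlgebra.map (F.compLeft (Fin n))).toLinearMap with hT
  set E : Set ℂ := {μ | ∃ (N : ℕ) (lam' : Fin N → ℂ) (s : Finset (Fin N)),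
    (∀ j, IsIntegral ℤ (lam' j) ∧ IsIntegral ℤ ((z.1 : ℂ) / lam' j)) ∧
    s.card = i - 2 * ν ∧ μ = (z.1 : ℂ) ^ ν * ∏ j ∈ s, lam' j} with hE
  have hx' : x ∈ Submodule.span ℂ {y | ∃ μ ∈ E, T y = μ • y} := by
    refine Submodule.span_le.2 ?_ hx
    rintro _ ⟨m, φ, hφ, y, hy, rfl⟩
    obtain ⟨N, e, B, hB⟩ := Pool.Agent.Helper60.GTC.power_basis F b lam hb m
    have hy' := Pool.Agent.Helper60.GTC.mem_span_of_mem_pow B hy
    have hbas : ∀ s : Finset (Fin N), s.card = i - 2 * ν →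
        B.ExteriorAlgebra s ∈ ⋀[ℂ]^(i - 2 * ν) (Fin m → Le d → ℂ) := by
      intro s hs
      rw [ExteriorAlgebra.basis_apply_ofCard B hs]
      exact (exteriorPower.ιMulti_family ℂ (i - 2 * ν) B _).2
    clear hy
    induction hy' using Submodule.span_induction with
    | mem w hw =>
      obtain ⟨s, hs, rfl⟩ := hw
      refine Submodule.subset_span ⟨_, ⟨N, fun j => lam (e.symm j).2, s,
        fun j => hlam _, hs, rfl⟩, ?_⟩
      rw [hT, AlgHom.toLinearMap_apply, hφ _ (hbas s hs),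
        Pool.Agent.Helper60.GTC.map_basis B _ (fun j => lam (e.symm j).2) hB, map_smul, smul_smul]
    | zero => rw [map_zero]; exact Submodule.zero_mem _
    | add x y _ _ hx hy => rw [map_add]; exact Submodule.add_mem _ hx hy
    | smul c x _ hx => rw [map_smul]; exact Submodule.smul_mem _ c hx
  obtain ⟨N, lam', s, hl', hs, hβs⟩ := Pool.Agent.Helper60.GTC.eig_of_span T E hx' hx0 hβ
  constructor
  · rw [hβs, mul_div_cancel_left₀ _ (pow_ne_zero _ hq0)]
    exact IsIntegral.prod _ fun j _ => (hl' j).1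
  · have h1 : (z.1 : ℂ) ^ (i - ν) / β = ∏ j ∈ s, ((z.1 : ℂ) / lam' j) := by
      rw [Finset.prod_div_distrib, Finset.prod_const, hs, hβs]
      have h3 : i - ν = ν + (i - 2 * ν) := by omega
      rw [h3, pow_add, mul_div_mul_left _ _ (pow_ne_zero _ hq0)]
    rw [h1]
    exact IsIntegral.prod _ fun j _ => (hl' j).2

end Pool.Agent.Helper48.WT
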