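import Pool.Agent.Helper48.WT.Basic
import Pool.Agent.Helper60.GTC.DivEff

/-!
# WT-EIG: adapted eigenbases

`exists_eig`. PROOF. The coordinate subspace `E = {v | v i = 0 for i ∈ tor}` is invariant under
`g`; the restriction is semisimple (`Module.End.IsSemisimple.restrict`), so `E` has a basis of
eigenvectors (`Pool.Agent.Helper60.GTC.eigenbasis`), indexed by the `i ∉ tor`
(`finrank E = |torᶜ|`; for instance `E ≃ (torᶜ → ℂ)`). Together with the standard vectors `e_i`,
`i ∈ tor`, which are eigenvectors with eigenvalue `g i i`, we get a matrix `Y0` (columns the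
eigenvectors, invertible, diagonal at `tor`) with `g * Y0 = Y0 * diagonal l`, and
`g.charpoly = (diagonal l).charpoly = ∏ (X - C (l i))` (similar matrices). For a permutation `π`
fixing `tor`: `Y1 = Y0` with permuted columns (`Y0.submatrix id π`), and `Y` = `Y1` with one
column divided by `det Y1` (if `d = 0` then `det = 1`). `det Y = 1 = 1 ^ p`.
-/

set_option autoImplicit false

namespace Pool.Agent.Helper48.WT

open Polynomial Pool.Agent.Helper48.GC8

variable {d p : ℕ} {tor : Finset (Fin d)}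

/-- extension by zero -/
private noncomputable def eigJ (tor : Finset (Fin d)) :
    ({i : Fin d // i ∉ tor} → ℂ) →ₗ[ℂ] (Fin d → ℂ) :=
  LinearMap.pi (fun i => if h : i ∉ tor then LinearMap.proj ⟨i, h⟩ else 0)

private lemma eigJ_of_not_mem (v : {i : Fin d // i ∉ tor} → ℂ) (i : Fin d) (h : i ∉ tor) :
    eigJ tor v i = v ⟨i, h⟩ := by
  unfold eigJ
  simp [h]

private lemma eigJ_of_mem (v : {i : Fin d // i ∉ tor} → ℂ) (i : Fin d) (h : i ∈ tor) :
    eigJ tor v i = 0 := by
  unfold eigJ
  simp [h]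

private lemma eigJ_inj : Function.Injective (eigJ tor) := by
  intro v w h
  funext i
  have := congrFun h i.1
  rwa [eigJ_of_not_mem v i.1 i.2, eigJ_of_not_mem w i.1 i.2] at this

private lemma eigJ_comm {c : ℂ} {g : Matrix (Fin d) (Fin d) ℂ} (hG : InG p tor c g)
    (v : {i : Fin d // i ∉ tor} → ℂ) :
    Matrix.toLin' g (eigJ tor v) =
      eigJ tor (Matrix.toLin' (g.submatrix Subtype.val Subtype.val) v) := by
  funext i
  rw [Matrix.toLin'_apply, Matrix.toLin'_apply]
  by_cases hi : i ∈ tor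
  · rw [eigJ_of_mem _ i hi]
    unfold Matrix.mulVec dotProduct
    refine Finset.sum_eq_zero fun j _ => ?_
    by_cases hij : i = j
    · subst hij
      rw [eigJ_of_mem _ i hi, mul_zero]
    · change g i j * _ = 0
      rw [hG.diag i j hij (Or.inl hi), zero_mul]
  · rw [eigJ_of_not_mem _ i hi]
    unfold Matrix.mulVec dotProduct
    rw [← Fintype.sum_subtype_add_sum_subtype (fun j : Fin d => j ∉ tor)]
    have h2 : ∑ j : {j : Fin d // ¬ (j ∉ tor)}, g i j.1 * eigJ tor v j.1 = 0 := by
      refine Finset.sum_eq_zero fun j _ => ?_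
      rw [eigJ_of_mem _ j.1 (not_not.1 j.2), mul_zero]
    rw [h2, add_zero]
    refine Finset.sum_congr rfl fun j _ => ?_
    rw [eigJ_of_not_mem _ j.1 j.2]
    rfl

private lemma eig_aeval {V W : Type} [AddCommGroup V] [Module ℂ V] [AddCommGroup W] [Module ℂ W]
    (F : Module.End ℂ V) (G : Module.End ℂ W) (J : W →ₗ[ℂ] V) (h : ∀ v, F (J v) = J (G v))
    (q : ℂ[X]) (v : W) : aeval F q (J v) = J (aeval G q v) := by
  induction q using Polynomial.induction_on' with
  | add a b ha hb => simp [ha, hb]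
  | monomial n a =>
    have hp : ∀ n : ℕ, ∀ v, (F ^ n) (J v) = J ((G ^ n) v) := by
      intro n
      induction n with
      | zero => intro v; simp
      | succ n ih =>
        intro v
        rw [pow_succ, pow_succ, Module.End.mul_apply, Module.End.mul_apply, h, ih]
    simp only [aeval_monomial, Module.End.mul_apply, hp n v]
    simp

private lemma eig_semisimple {c : ℂ} {g : Matrix (Fin d) (Fin d) ℂ} (hG : InG p tor c g)
    (hs : Module.End.IsSemisimple (Matrix.toLin' g)) :
    Module.End.IsSemisimple (Matrix.toLin' (g.submatrix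
      (Subtype.val : {i : Fin d // i ∉ tor} → Fin d) Subtype.val)) := by
  refine Module.End.isSemisimple_of_squarefree_aeval_eq_zero hs.minpoly_squarefree ?_
  ext1 v
  apply LinearMap.ext
  intro x
  apply eigJ_inj
  have h := eig_aeval (Matrix.toLin' g) _ (eigJ tor) (fun v => eigJ_comm hG v)
    (minpoly ℂ (Matrix.toLin' g))
  simp only [LinearMap.comp_apply]
  rw [← h, minpoly.aeval]
  simp

private lemma eig_basis (n : Type) [Fintype n] [DecidableEq n] (A : Matrix n n ℂ)
    (hA : Module.End.IsSemisimple (Matrix.toLin' A)) :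
    ∃ (b : Module.Basis n ℂ (n → ℂ)) (lam : n → ℂ), ∀ i, Matrix.toLin' A (b i) = lam i • b i := by
  obtain ⟨m, b, lam, hb⟩ := Pool.Agent.Helper60.GTC.eigenbasis (Matrix.toLin' A) hA
  have hm : m = Fintype.card n := by
    have h1 := Module.finrank_eq_card_basis b
    rw [Module.finrank_fintype_fun_eq_card, Fintype.card_fin] at h1
    exact h1.symm
  let e : Fin m ≃ n := Fintype.equivOfCardEq (by rw [Fintype.card_fin, hm])
  refine ⟨b.reindex e, fun i => lam (e.symm i), fun i => ?_⟩
  rw [Module.Basis.reindex_apply]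
  exact hb _

private lemma eig_one {c : ℂ} {g : Matrix (Fin d) (Fin d) ℂ} (hG : InG p tor c g)
    (hs : Module.End.IsSemisimple (Matrix.toLin' g)) :
    ∃ (l : Fin d → ℂ) (Y0 : Matrix (Fin d) (Fin d) ℂ), (∀ i ∈ tor, l i = g i i) ∧
      Y0.det ≠ 0 ∧ (∀ i j, i ≠ j → i ∈ tor ∨ j ∈ tor → Y0 i j = 0) ∧
      g * Y0 = Y0 * Matrix.diagonal l := by
  obtain ⟨b, lam, hb⟩ := eig_basis {i : Fin d // i ∉ tor} _ (eig_semisimple hG hs)
  set Y0 : Matrix (Fin d) (Fin d) ℂ := Matrix.of (fun i j =>
    if hj : j ∉ tor then eigJ tor (b ⟨j, hj⟩) i else if i = j then 1 else 0) with hY0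
  have hY1 : ∀ i j (hj : j ∉ tor), Y0 i j = eigJ tor (b ⟨j, hj⟩) i := by
    intro i j hj
    rw [hY0, Matrix.of_apply, dif_pos hj]
  have hY2 : ∀ i j, j ∈ tor → Y0 i j = if i = j then 1 else 0 := by
    intro i j hj
    rw [hY0, Matrix.of_apply, dif_neg (not_not.2 hj)]
  refine ⟨fun i => if h : i ∉ tor then lam ⟨i, h⟩ else g i i, Y0, ?_, ?_, ?_, ?_⟩
  · intro i hi
    simp [hi]
  · rw [Matrix.twoBlockTriangular_det' Y0 (fun i => i ∉ tor) (by
      intro i hi j hj
      rw [hY2 i j (not_not.1 hj), if_neg]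
      rintro rfl
      exact hj hi)]
    have h1 : Y0.toSquareBlockProp (fun i => ¬ i ∉ tor) = 1 := by
      ext i j
      rw [Matrix.toSquareBlockProp_def, Matrix.of_apply, hY2 _ _ (not_not.1 j.2), Matrix.one_apply]
      simp only [Subtype.ext_iff]
    have h2 : Y0.toSquareBlockProp (fun i => i ∉ tor) =
        (Pi.basisFun ℂ {i : Fin d // i ∉ tor}).toMatrix b := by
      ext i j
      rw [Matrix.toSquareBlockProp_def, Matrix.of_apply, hY1 _ _ j.2, Module.Basis.toMatrix_apply,
        Pi.basisFun_repr, eigJ_of_not_mem _ i.1 i.2]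
    rw [h1, h2, Matrix.det_one, mul_one, ← Module.Basis.det_apply]
    exact ((Pi.basisFun ℂ {i : Fin d // i ∉ tor}).isUnit_det b).ne_zero
  · intro i j hij ht
    by_cases hj : j ∈ tor
    · rw [hY2 i j hj, if_neg hij]
    · rw [hY1 i j hj, eigJ_of_mem _ i (ht.resolve_right hj)]
  · ext i j
    rw [Matrix.mul_diagonal]
    by_cases hj : j ∈ tor
    · rw [Matrix.mul_apply, Finset.sum_eq_single j]
      · rw [hY2 j j hj, if_pos rfl, mul_one, hY2 i j hj]
        by_cases hij : i = j
        · subst hij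
          simp [hj]
        · rw [if_neg hij, zero_mul, hG.diag i j hij (Or.inr hj)]
      · intro k _ hk
        rw [hY2 k j hj, if_neg hk, mul_zero]
      · intro h; exact absurd (Finset.mem_univ _) h
    · have h1 := congrFun (eigJ_comm hG (b ⟨j, hj⟩)) i
      rw [hb ⟨j, hj⟩, map_smul, Pi.smul_apply, smul_eq_mul, Matrix.toLin'_apply] at h1
      have h2 : (g * Y0) i j = (g.mulVec (eigJ tor (b ⟨j, hj⟩))) i := by
        rw [Matrix.mul_apply]
        unfold Matrix.mulVec dotProduct
        refine Finset.sum_congr rfl fun k _ => ?_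
        rw [hY1 k j hj]
      rw [h2, h1, hY1 i j hj]
      simp only [hj, not_false_eq_true, dif_pos]
      ring

theorem exists_eig {c : ℂ} {g : Matrix (Fin d) (Fin d) ℂ} (hG : InG p tor c g)
    (hs : Module.End.IsSemisimple (Matrix.toLin' g)) :
    ∃ l : Fin d → ℂ, (∀ i ∈ tor, l i = g i i) ∧ g.charpoly = ∏ i, (X - C (l i)) ∧
      ∀ π : Equiv.Perm (Fin d), (∀ i ∈ tor, π i = i) → ∃ Y : Matrix (Fin d) (Fin d) ℂ,
        InG p tor 1 Y ∧ g * Y = Y * Matrix.diagonal (fun i => l (π i)) := by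
  obtain ⟨l, Y0, hl, hdet, hdiag, hcomm⟩ := eig_one hG hs
  refine ⟨l, hl, ?_, ?_⟩
  · have hu : IsUnit Y0 := (Matrix.isUnit_iff_isUnit_det _).2 (isUnit_iff_ne_zero.2 hdet)
    have h1 : g = (hu.unit : Matrix (Fin d) (Fin d) ℂ) * Matrix.diagonal l *
        ((hu.unit⁻¹ : (Matrix (Fin d) (Fin d) ℂ)ˣ) : Matrix (Fin d) (Fin d) ℂ) := by
      rw [IsUnit.unit_spec, ← hcomm, mul_assoc, IsUnit.mul_val_inv, mul_one]
    rw [h1, Matrix.coe_units_inv, Matrix.charpoly_units_conj, Matrix.charpoly_diagonal]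
  · intro π hπ
    set Y1 : Matrix (Fin d) (Fin d) ℂ := Y0.submatrix id π with hY1
    have hdet1 : Y1.det ≠ 0 := by
      rw [hY1, Matrix.det_permute']
      have : ((Equiv.Perm.sign π : ℤ) : ℂ) ≠ 0 := by
        have h : ((Equiv.Perm.sign π : ℤˣ) : ℤ) ≠ 0 := Units.ne_zero _
        exact_mod_cast h
      exact mul_ne_zero this hdet
    have hcomm1 : g * Y1 = Y1 * Matrix.diagonal (fun i => l (π i)) := by
      ext i j
      rw [Matrix.mul_diagonal, hY1, Matrix.submatrix_apply, id]
      have h2 := congrFun (congrFun hcomm i) (π j)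
      rw [Matrix.mul_diagonal] at h2
      rw [← h2, Matrix.mul_apply, Matrix.mul_apply]
      rfl
    have hdiag1 : ∀ i j, i ≠ j → i ∈ tor ∨ j ∈ tor → Y1 i j = 0 := by
      intro i j hij ht
      rw [hY1, Matrix.submatrix_apply, id]
      rcases ht with ht | ht
      · refine hdiag i (π j) ?_ (Or.inl ht)
        intro h
        apply hij
        have h3 := hπ i ht
        rw [h] at h3
        have := π.injective h3
        rw [h, this]
      · rw [hπ j ht]
        exact hdiag i j hij (Or.inr ht)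
    rcases Nat.eq_zero_or_pos d with hd | hd
    · subst hd
      exact ⟨Y1, ⟨one_ne_zero, hdiag1, by rw [Matrix.det_isEmpty, one_pow]⟩, hcomm1⟩
    · set s : Fin d → ℂ := Function.update 1 ⟨0, hd⟩ (Y1.det)⁻¹ with hs'
      refine ⟨Y1 * Matrix.diagonal s, ⟨one_ne_zero, ?_, ?_⟩, ?_⟩
      · intro i j hij ht
        rw [Matrix.mul_diagonal, hdiag1 i j hij ht, zero_mul]
      · rw [Matrix.det_mul, Matrix.det_diagonal, hs', one_pow]
        have h4 : ∏ i, Function.update (1 : Fin d → ℂ) ⟨0, hd⟩ (Y1.det)⁻¹ i = (Y1.det)⁻¹ := by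
          rw [Finset.prod_update_of_mem (Finset.mem_univ _)]
          simp
        rw [h4]
        exact mul_inv_cancel₀ hdet1
      · rw [← mul_assoc, hcomm1, mul_assoc, mul_assoc, Matrix.diagonal_mul_diagonal,
          Matrix.diagonal_mul_diagonal]
        congr 2
        funext i
        ring

end Pool.Agent.Helper48.WT
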