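import Pool.Agent.Helper48.WT.Basic

/-!
# WT-FRAME: the induction

`claimT`. PROOF. Induction on `ν`, for all index types at once (compare
`Pool.Agent.Helper60.GC9.claimG`, the same argument with explicit contractions).
* `ν = 0`: `card ι - 2 * 0 = card ι`, take for `φ` the reindexing by `ι ≃ Fin (card ι)`
  (`LinearMap.funLeft`, it commutes with `rho univ X`), so `tt p tor ι 0 = ⊤`.
* `ν + 1`: `N := tt p tor ι (ν + 1)` is stable (`Equi` and `c ≠ 0`; `φ` of something).
  `U1 := (U ⊔ N) ⊓ perp N` is stable (`herm_rho`, `InG.conjTranspose`, `frob_conjTranspose`) and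
  `Good (ν + 1)` (as in `claimG`: if `Q` kills `U` then `Q(rho) v ∈ N ∩ perp N = 0`, with
  `aeval_mem`, `eq_zero_of_mem_perp`). It remains to see that every `u ∈ U1` is `Killed`; then
  `U1 = ⊥` by `HT` and `U ≤ N` by `exists_decomp`. Let `φ : Ten ι → Ten (Fin (card ι - 2))` be
  `CoEqui` and `ψ` its adjoint, `herm (φ u) v = herm u (ψ v)`
  (define `ψ v y = ∑ x, star (φ (Pi.single y 1) x) * v x`). Taking adjoints of `CoEqui`, using
  `InG.conjTranspose`, gives `Equi 1 ψ`: `rho X (ψ v) = c • ψ (rho X v)`. `U1.map φ` is stable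
  and `Good ν` (polynomial `Q.comp (C q * X)`, as in `claimG`, `aeval_smul_end`,
  `aeval_semiconj`), and `card (Fin (card ι - 2)) = w + 2 ν`, so `U1.map φ ≤ tt .. ν` by induction.
  For `v ∈ tt p tor (Fin (card ι - 2)) ν` one has `ψ v ∈ N` (compose the maps; the index types
  `Fin (card (Fin (card ι - 2)) - 2 ν)` and `Fin (card ι - 2 (ν + 1))` are equal, use `cast` or
  reindexing by `finCongr`), so `herm v (φ u) = 0` for `u ∈ U1`: `φ u ∈ tt ∩ perp tt = 0`.
-/

set_option autoImplicit false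

namespace Pool.Agent.Helper48.WT

open Polynomial Pool.Agent.Helper48.GC8

variable {d p : ℕ} {tor : Finset (Fin d)}

section Aux

variable {ι κ : Type} [Fintype ι] [DecidableEq ι] [Fintype κ] [DecidableEq κ]

private lemma h24_reindex {I : Type} [Fintype I] [DecidableEq I] (e : ι ≃ κ) (X : Matrix I I ℂ)
    (u : Ten κ I) :
    rho Finset.univ X ((LinearMap.funLeft ℂ ℂ (fun x : ι → I => x ∘ e.symm)) u) =
      (LinearMap.funLeft ℂ ℂ (fun x : ι → I => x ∘ e.symm)) (rho Finset.univ X u) := by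
  funext x
  rw [rho_apply, LinearMap.funLeft_apply, rho_apply]
  refine Fintype.sum_equiv (e.arrowCongr (Equiv.refl I)) _ _ fun y => ?_
  have h1 : (e.arrowCongr (Equiv.refl I)) y = y ∘ e.symm := rfl
  rw [h1, LinearMap.funLeft_apply]
  congr 1
  simp only [Finset.mem_univ, if_true, Function.comp]
  exact (Equiv.prod_comp e.symm (fun k => X (x k) (y k))).symm

private lemma h24_herm_smul {I : Type} [Fintype I] (c : ℂ) (u v : Ten κ I) :
    herm u (c • v) = c * herm u v := by
  unfold herm
  rw [Finset.mul_sum]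
  refine Finset.sum_congr rfl fun x _ => ?_
  rw [Pi.smul_apply, smul_eq_mul]
  ring

private lemma h24_herm_smul_left {I : Type} [Fintype I] (c : ℂ) (u v : Ten κ I) :
    herm (c • u) v = star c * herm u v := by
  unfold herm
  rw [Finset.mul_sum]
  refine Finset.sum_congr rfl fun x _ => ?_
  rw [Pi.smul_apply, smul_eq_mul, star_mul']
  ring

private lemma h24_herm_sub_left {I : Type} [Fintype I] (u u' v : Ten κ I) :
    herm (u - u') v = herm u v - herm u' v := by
  unfold herm
  rw [← Finset.sum_sub_distrib]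
  refine Finset.sum_congr rfl fun x _ => ?_
  rw [Pi.sub_apply, star_sub]
  ring

/-- The adjoint map. -/
private noncomputable def h24_adj {I : Type} [Fintype I] [DecidableEq I]
    (φ : Ten ι I →ₗ[ℂ] Ten κ I) : Ten κ I →ₗ[ℂ] Ten ι I where
  toFun v := fun y => ∑ x, star (φ (Pi.single y 1) x) * v x
  map_add' u v := by
    funext y
    simp [mul_add, Finset.sum_add_distrib]
  map_smul' c u := by
    funext y
    simp only [Pi.smul_apply, smul_eq_mul, RingHom.id_apply, Finset.mul_sum]
    exact Finset.sum_congr rfl fun x _ => by ring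

private lemma h24_adj_herm {I : Type} [Fintype I] [DecidableEq I]
    (φ : Ten ι I →ₗ[ℂ] Ten κ I) (n : Ten κ I) (u : Ten ι I) :
    herm n (φ u) = herm (h24_adj φ n) u := by
  have h1 : u = ∑ y, u y • (Pi.single y (1 : ℂ) : Ten ι I) := by
    rw [← Finset.univ_sum_single u]
    refine Finset.sum_congr rfl fun y _ => ?_
    rw [Finset.univ_sum_single u]
    funext x
    by_cases hx : x = y
    · subst hx; simp
    · simp [Pi.single_eq_of_ne hx]
  have h2 : ∀ x, φ u x = ∑ y, u y * φ (Pi.single y 1) x := by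
    intro x
    conv_lhs => rw [h1]
    rw [map_sum, Finset.sum_apply]
    refine Finset.sum_congr rfl fun y _ => ?_
    rw [map_smul, Pi.smul_apply, smul_eq_mul]
  unfold herm
  simp only [h2, Finset.mul_sum]
  rw [Finset.sum_comm]
  refine Finset.sum_congr rfl fun y _ => ?_
  change _ = star (∑ x, star (φ (Pi.single y 1) x) * n x) * u y
  rw [star_sum, Finset.sum_mul]
  refine Finset.sum_congr rfl fun x _ => ?_
  rw [star_mul', star_star]
  ring

private lemma h24_herm_rho' {I : Type} [Fintype I] [DecidableEq I]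
    (X : Matrix I I ℂ) (u v : Ten κ I) :
    herm (rho Finset.univ X u) v = herm u (rho Finset.univ X.conjTranspose v) := by
  rw [herm_rho, Matrix.conjTranspose_conjTranspose]

private lemma h24_adj_equi (φ : Ten ι (Le d) →ₗ[ℂ] Ten κ (Le d)) (h : CoEqui p tor φ) :
    Equi p tor 1 (h24_adj φ) := by
  intro c g hg v
  rw [pow_one, ← sub_eq_zero]
  set D := rho Finset.univ (frob c g) (h24_adj φ v) -
    c • h24_adj φ (rho Finset.univ (frob c g) v) with hD
  refine herm_self_eq_zero (u := D) ?_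
  have key : ∀ u, herm D u = 0 := by
    intro u
    have e1 := h (star c) g.conjTranspose hg.conjTranspose u
    rw [hD, h24_herm_sub_left, h24_herm_rho', h24_herm_smul_left, ← h24_adj_herm,
      ← h24_adj_herm, h24_herm_rho', frob_conjTranspose, e1, h24_herm_smul, sub_self]
  exact key D

private lemma h24_cast {n m : ℕ} (h : n = m) (t : ℕ)
    (φ : Ten (Fin n) (Le d) →ₗ[ℂ] Ten ι (Le d)) (hφ : Equi p tor t φ) (y : Ten (Fin n) (Le d)) :
    ∃ φ' : Ten (Fin m) (Le d) →ₗ[ℂ] Ten ι (Le d), Equi p tor t φ' ∧ ∃ y', φ y = φ' y' := by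
  subst h
  exact ⟨φ, hφ, y, rfl⟩

private lemma h24_tt_stab (ν : ℕ) : Stab p tor (tt p tor ι ν) := by
  intro c g hg u hu
  have h1 : tt p tor ι ν ≤ (tt p tor ι ν).comap (rho Finset.univ (frob c g)) := by
    conv_lhs => unfold tt
    refine Submodule.span_le.2 ?_
    rintro x ⟨φ, hφ, y, rfl⟩
    change rho Finset.univ (frob c g) (φ y) ∈ tt p tor ι ν
    rw [hφ c g hg y]
    exact Submodule.smul_mem _ _ (Submodule.subset_span ⟨φ, hφ, _, rfl⟩)
  exact h1 hu

private lemma h24_perp_stab {N : Submodule ℂ (Ten ι (Le d))} (h : Stab p tor N) :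
    Stab p tor (perp N) := by
  intro c g hg v hv n hn
  rw [herm_rho, frob_conjTranspose]
  exact hv _ (h (star c) g.conjTranspose hg.conjTranspose n hn)

private lemma h24_sup_stab {U N : Submodule ℂ (Ten ι (Le d))}
    (h1 : Stab p tor U) (h2 : Stab p tor N) : Stab p tor (U ⊔ N) := by
  intro c g hg v hv
  obtain ⟨u, hu, n, hn, rfl⟩ := Submodule.mem_sup.1 hv
  rw [map_add]
  exact Submodule.add_mem_sup (h1 c g hg u hu) (h2 c g hg n hn)

private lemma h24_zero (U : Submodule ℂ (Ten ι (Le d))) : U ≤ tt p tor ι 0 := by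
  intro u _
  refine Submodule.subset_span ?_
  have hc : Fintype.card ι = Fintype.card (Fin (Fintype.card ι - 2 * 0)) := by
    rw [Fintype.card_fin]
    omega
  have e : ι ≃ Fin (Fintype.card ι - 2 * 0) := Fintype.equivOfCardEq hc
  refine ⟨LinearMap.funLeft ℂ ℂ (fun x : ι → Le d => x ∘ e.symm), ?_, fun z => u (z ∘ e), ?_⟩
  · intro c g _ v
    rw [pow_zero, one_smul]
    exact h24_reindex e _ v
  · funext x
    rw [LinearMap.funLeft_apply]
    congr 1
    funext k
    simp

end Aux

theorem claimT {𝓕 : Set (ℕ × Matrix (Fin d) (Fin d) ℂ)}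
    (h𝓕 : ∀ z ∈ 𝓕, InG p tor (z.1 : ℂ) z.2) (w : ℕ)
    (HT : ∀ (ι : Type) [Fintype ι] [DecidableEq ι] (t : ℕ) (U : Submodule ℂ (Ten ι (Le d))),
      1 ≤ t → Fintype.card ι = w + 2 * t → Stab p tor U → Good 𝓕 t U →
      (∀ u ∈ U, Killed p tor u) → U = ⊥) :
    ∀ (ν : ℕ) (ι : Type) [Fintype ι] [DecidableEq ι] (U : Submodule ℂ (Ten ι (Le d))),
      Fintype.card ι = w + 2 * ν → Stab p tor U → Good 𝓕 ν U → U ≤ tt p tor ι ν := by
  intro ν
  induction ν with
  | zero =>
    intro ι _ _ U _ _ _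
    exact h24_zero U
  | succ ν ih =>
    intro ι _ _ U hR hst hgood
    set N := tt p tor ι (ν + 1) with hN
    have hNst : Stab p tor N := h24_tt_stab (ν + 1)
    set U1 := (U ⊔ N) ⊓ perp N with hU1
    have hU1st : Stab p tor U1 := by
      intro c g hg v hv
      exact ⟨h24_sup_stab hst hNst c g hg v hv.1, h24_perp_stab hNst c g hg v hv.2⟩
    have hU1good : Good 𝓕 (ν + 1) U1 := by
      intro z hz
      obtain ⟨Q, hQ1, hQ2⟩ := hgood z hz
      refine ⟨Q, hQ1, ?_⟩
      intro v hv
      obtain ⟨hv1, hv2⟩ := hv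
      have h1 : aeval (rho Finset.univ (frob (z.1 : ℂ) z.2)) Q v ∈ perp N :=
        aeval_mem _ _ (fun v hv => h24_perp_stab hNst _ _ (h𝓕 z hz) v hv) Q hv2
      obtain ⟨u, hu, n, hn, rfl⟩ := Submodule.mem_sup.1 hv1
      have h2 : aeval (rho Finset.univ (frob (z.1 : ℂ) z.2)) Q (u + n) ∈ N := by
        rw [map_add, hQ2 u hu, zero_add]
        exact aeval_mem _ _ (fun v hv => hNst _ _ (h𝓕 z hz) v hv) Q hn
      exact eq_zero_of_mem_perp h2 h1
    have hkill : ∀ u ∈ U1, Killed p tor u := by
      intro u hu φ hφ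
      have hcard : Fintype.card (Fin (Fintype.card ι - 2)) = w + 2 * ν := by
        rw [Fintype.card_fin]
        omega
      have h1 := ih (Fin (Fintype.card ι - 2)) (U1.map φ) hcard (by
          rintro c g hg _ ⟨v, hv, rfl⟩
          refine ⟨c⁻¹ • rho Finset.univ (frob c g) v, U1.smul_mem _ (hU1st c g hg v hv), ?_⟩
          rw [map_smul, hφ c g hg, smul_smul, inv_mul_cancel₀ hg.ne, one_smul]) (by
          intro z hz
          obtain ⟨Q, hQ1, hQ2⟩ := hU1good z hz
          refine ⟨Q.comp (C (z.1 : ℂ) * X), ?_, ?_⟩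
          · intro β hβ
            have h2 : Q.IsRoot ((z.1 : ℂ) * β) := by
              simpa [Polynomial.IsRoot, eval_comp] using hβ
            have h3 := hQ1 _ h2
            have h4 : (z.1 : ℂ) * β / (z.1 : ℂ) ^ (ν + 1) = β / (z.1 : ℂ) ^ ν := by
              have := (h𝓕 z hz).ne
              rw [pow_succ]
              field_simp
            rwa [h4] at h3
          · rintro _ ⟨v, hv, rfl⟩
            rw [← aeval_smul_end]
            rw [← aeval_semiconj φ (rho Finset.univ (frob (z.1 : ℂ) z.2)) _ (fun v => by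
              rw [hφ _ _ (h𝓕 z hz)]; rfl)]
            rw [hQ2 v hv, map_zero])
      have h2 : φ u ∈ tt p tor (Fin (Fintype.card ι - 2)) ν := h1 ⟨u, hu, rfl⟩
      refine eq_zero_of_mem_perp h2 ?_
      have h3 : tt p tor (Fin (Fintype.card ι - 2)) ν ≤ N.comap (h24_adj φ) := by
        conv_lhs => unfold tt
        refine Submodule.span_le.2 ?_
        rintro x ⟨φ', hφ', y, rfl⟩
        change h24_adj φ (φ' y) ∈ N
        have hcd : Fintype.card (Fin (Fintype.card ι - 2)) - 2 * ν =
            Fintype.card ι - 2 * (ν + 1) := by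
          rw [Fintype.card_fin]
          omega
        have hE : Equi p tor (ν + 1) ((h24_adj φ).comp φ') := by
          intro c g hg v
          rw [LinearMap.comp_apply, h24_adj_equi φ hφ c g hg, hφ' c g hg, map_smul, smul_smul,
            pow_one, LinearMap.comp_apply, ← pow_succ']
        obtain ⟨φ2, hφ2, y2, hy2⟩ := h24_cast hcd (ν + 1) ((h24_adj φ).comp φ') hE y
        have e1 : h24_adj φ (φ' y) = φ2 y2 := hy2
        rw [e1]
        exact Submodule.subset_span ⟨φ2, hφ2, y2, rfl⟩
      intro n hn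
      rw [h24_adj_herm]
      exact hu.2 _ (h3 hn)
    have hzero := HT ι (ν + 1) U1 (by omega) hR hU1st hU1good hkill
    intro u hu
    obtain ⟨n, hn, hun⟩ := exists_decomp N u
    have h1 : u - n ∈ U1 :=
      ⟨Submodule.sub_mem _ (Submodule.mem_sup_left hu) (Submodule.mem_sup_right hn), hun⟩
    rw [hzero, Submodule.mem_bot, sub_eq_zero] at h1
    rw [h1]; exact hn

end Pool.Agent.Helper48.WT
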