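import Pool.Agent.Helper48.WT.Frame
import Pool.Agent.Helper48.WT.Word
import Pool.Agent.Helper48.WT.Arith
import Pool.Agent.Helper48.WT.Link
import Pool.Agent.Helper48.WT.Dense
import Pool.Agent.Helper48.WT.Eff
import Pool.Agent.Helper48.WT.Auto

/-!
# The Galois coniveau filtration of all powers of abelian varieties of Weil type

`V = W ⊕ W'` is the first `ℓ`-adic cohomology (coefficients extended to `ℚ̄_ℓ ≅ ℂ`) of an abelian
variety `A` of dimension `2p` over a number field, with multiplication by an imaginary quadratic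
field `k`; `W` and `W'`, both of dimension `2p`, are the two eigenspaces of `k`, and `W'` is the
twisted dual of `W`.  Weil type `(p, p)` means that the determinants of the Frobenii on `W` are
`q ^ p` (after a finite extension of the base field): the lines `Λ^{2p} W`, `Λ^{2p} W'` consist of
Tate classes, the Weil classes.  The cohomology of `Aⁿ` is the exterior algebra of `Vⁿ`.  `𝓕` is the
set of the pairs (number `q` of elements of the residue field, Frobenius on `W`) for the places of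
good reduction prime to `ℓ`.
-/

set_option autoImplicit false

namespace Pool.Agent.Results.MP_8abef2_ag.WeilTypePowers

open Module Polynomial

variable {p : ℕ}

/-- Index set of the basis of `V = W ⊕ W'`, `dim W = dim W' = 2p`. -/
abbrev Ind (p : ℕ) : Type := Fin (2 * p) ⊕ Fin (2 * p)

/-- Square matrices of size `2p`: endomorphisms of `W`. -/
abbrev Mat (p : ℕ) : Type := Matrix (Fin (2 * p)) (Fin (2 * p)) ℂ

/-- The Frobenius `(q, g)` acts on `V = W ⊕ W'` by `g` on `W` and by `q (g⁻¹)ᵀ` on `W'`. -/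
noncomputable def frobenius (z : ℕ × Mat p) : Matrix (Ind p) (Ind p) ℂ :=
  Matrix.fromBlocks z.2 0 0 ((z.1 : ℂ) • (z.2⁻¹).transpose)

/-- The Frobenius on `Vⁿ`. -/
noncomputable def frobPower (n : ℕ) (z : ℕ × Mat p) :
    (Fin n → Ind p → ℂ) →ₗ[ℂ] (Fin n → Ind p → ℂ) :=
  (Matrix.toLin' (frobenius z)).compLeft (Fin n)

/-- The Frobenius on `Λ(Vⁿ)`. -/
noncomputable def frobExt (n : ℕ) (z : ℕ × Mat p) :
    ExteriorAlgebra ℂ (Fin n → Ind p → ℂ) →ₐ[ℂ] ExteriorAlgebra ℂ (Fin n → Ind p → ℂ) :=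
  ExteriorAlgebra.map (frobPower n z)

/-! ### The coniveau filtrations -/

/-- `U ⊆ Λⁱ(Vⁿ)` is a subrepresentation such that `U(ν)` is effective of weight `i - 2ν`:
`U` is stable under all Frobenii, and for every eigenvalue `β` of a Frobenius `(q, g)` on `U`
both `β / q ^ ν` and `q ^ (i - ν) / β = q ^ (i - 2ν) / (β / q ^ ν)` are algebraic integers. -/
structure IsEffective (𝓕 : Set (ℕ × Mat p)) (n i ν : ℕ)
    (U : Submodule ℂ (ExteriorAlgebra ℂ (Fin n → Ind p → ℂ))) : Prop where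
  le : U ≤ ⋀[ℂ]^i (Fin n → Ind p → ℂ)
  stable : ∀ z ∈ 𝓕, ∀ x ∈ U, frobExt n z x ∈ U
  integral : ∀ z ∈ 𝓕, ∀ x ∈ U, x ≠ 0 → ∀ β : ℂ, frobExt n z x = β • x →
    IsIntegral ℤ (β / (z.1 : ℂ) ^ ν) ∧ IsIntegral ℤ ((z.1 : ℂ) ^ (i - ν) / β)

/-- The Galois coniveau: the span of all subrepresentations `U` of `Λⁱ(Vⁿ)` such that `U(ν)` is
effective of weight `i - 2ν`. -/
noncomputable def galoisConiveau (𝓕 : Set (ℕ × Mat p)) (n i ν : ℕ) :
    Submodule ℂ (ExteriorAlgebra ℂ (Fin n → Ind p → ℂ)) :=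
  sSup {U | IsEffective 𝓕 n i ν U}

/-- `φ` maps `Λ^(i-2ν)(Vᵐ)` to `Λⁱ(Vⁿ)` and commutes with the Frobenii up to the factor `q ^ ν`:
the map given by a Tate class on `Aᵐ × Aⁿ`. -/
structure IsTateMap (𝓕 : Set (ℕ × Mat p)) (m n i ν : ℕ)
    (φ : ExteriorAlgebra ℂ (Fin m → Ind p → ℂ) →ₗ[ℂ]
      ExteriorAlgebra ℂ (Fin n → Ind p → ℂ)) : Prop where
  mem : ∀ y ∈ ⋀[ℂ]^(i - 2 * ν) (Fin m → Ind p → ℂ), φ y ∈ ⋀[ℂ]^i (Fin n → Ind p → ℂ)
  comm : ∀ z ∈ 𝓕, ∀ y ∈ ⋀[ℂ]^(i - 2 * ν) (Fin m → Ind p → ℂ),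
    frobExt n z (φ y) = (z.1 : ℂ) ^ ν • φ (frobExt m z y)

/-- The Tate coniveau: the span of the images of `Λ^(i-2ν)(Vᵐ)`, for all `m`, under all maps given
by Tate classes on `Aᵐ × Aⁿ`. -/
noncomputable def tateConiveau (𝓕 : Set (ℕ × Mat p)) (n i ν : ℕ) :
    Submodule ℂ (ExteriorAlgebra ℂ (Fin n → Ind p → ℂ)) :=
  Submodule.span ℂ {x | ∃ (m : ℕ) (φ : ExteriorAlgebra ℂ (Fin m → Ind p → ℂ) →ₗ[ℂ]
      ExteriorAlgebra ℂ (Fin n → Ind p → ℂ)),
    IsTateMap 𝓕 m n i ν φ ∧ ∃ y ∈ ⋀[ℂ]^(i - 2 * ν) (Fin m → Ind p → ℂ), x = φ y}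

/-! ### Systems of Frobenii of Weil type with big monodromy -/

/-- The group: `c ≠ 0`, `det g = c ^ p`, and `g` is diagonal at the indices in `tor`. -/
structure IsWeilType (tor : Finset (Fin (2 * p))) (c : ℂ) (g : Mat p) : Prop where
  ne : c ≠ 0
  diag : ∀ i j, i ≠ j → i ∈ tor ∨ j ∈ tor → g i j = 0
  det : g.det = c ^ p

/-- `g` is semisimple and its eigenvalues are algebraic integers of absolute value `√q`. -/
structure IsWeil (z : ℕ × Mat p) : Prop where
  two_le : 2 ≤ z.1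
  semisimple : Module.End.IsSemisimple (Matrix.toLin' z.2)
  integral : ∀ β : ℂ, z.2.charpoly.IsRoot β → IsIntegral ℤ β ∧ ‖β‖ = Real.sqrt z.1

/-- `𝓕` is Zariski dense in the group: every polynomial in `c` and the entries of `g` which
vanishes at all `(q, g) ∈ 𝓕` vanishes on the group. -/
def IsDense (tor : Finset (Fin (2 * p))) (𝓕 : Set (ℕ × Mat p)) : Prop :=
  ∀ f : MvPolynomial (Option (Fin (2 * p) × Fin (2 * p))) ℂ,
    (∀ z ∈ 𝓕, MvPolynomial.eval (fun o => o.elim (z.1 : ℂ) (fun k => z.2 k.1 k.2)) f = 0) →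
    ∀ (c : ℂ) (g : Mat p), IsWeilType tor c g →
      MvPolynomial.eval (fun o => o.elim c (fun k => g k.1 k.2)) f = 0

/-- A system of Frobenii of Weil type with big monodromy. -/
structure IsBig (tor : Finset (Fin (2 * p))) (𝓕 : Set (ℕ × Mat p)) : Prop where
  weil : ∀ z ∈ 𝓕, IsWeil z
  weilType : ∀ z ∈ 𝓕, IsWeilType tor (z.1 : ℂ) z.2
  dense : IsDense tor 𝓕

/-- The Frobenius is ordinary at the prime `P`: for every eigenvalue `β` of `g` one of `β`, `q / β`
is outside of `P`. -/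
def IsOrdinary (z : ℕ × Mat p) (P : Ideal (integralClosure ℤ ℂ)) : Prop :=
  ∀ β : ℂ, z.2.charpoly.IsRoot β → (∀ x ∈ P, (x : ℂ) ≠ β) ∨ ∀ x ∈ P, (x : ℂ) ≠ (z.1 : ℂ) / β

/-- For each set `S` of indices in `tor` such that `S` and its complement in `tor` have at most `p`
elements, some Frobenius `(q, g)` is ordinary at some prime over `q` which does not contain `g i i`
for `i ∈ S` and `q / g i i` for the other `i ∈ tor`. -/
def HasUnits (tor : Finset (Fin (2 * p))) (𝓕 : Set (ℕ × Mat p)) : Prop :=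
  ∀ S ⊆ tor, S.card ≤ p → (tor \ S).card ≤ p → ∃ z ∈ 𝓕,
    ∃ P : Ideal (integralClosure ℤ ℂ), P.IsPrime ∧ (z.1 : integralClosure ℤ ℂ) ∈ P ∧
      IsOrdinary z P ∧ (∀ i ∈ S, ∀ x ∈ P, (x : ℂ) ≠ z.2 i i) ∧
      ∀ i ∈ tor \ S, ∀ x ∈ P, (x : ℂ) ≠ (z.1 : ℂ) / z.2 i i

/-- The characteristic polynomials of the Frobenii on `W` have coefficients in `ℤ + ℤτ`, `τ` a fixed
nonreal number (a generator of an order of the imaginary quadratic field `k`). -/
def IsQuadratic (𝓕 : Set (ℕ × Mat p)) : Prop :=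
  ∃ τ : ℂ, τ.im ≠ 0 ∧ ∀ z ∈ 𝓕, ∀ k, ∃ a b : ℤ, z.2.charpoly.coeff k = a + b * τ

section Proof

open Pool.Agent.Helper48.WT Pool.Agent.Helper48.GC8 Pool.Agent.Helper60.GTC

variable {tor : Finset (Fin (2 * p))} {𝓕 : Set (ℕ × Mat p)}

lemma inG_iff {c : ℂ} {g : Mat p} : InG p tor c g ↔ IsWeilType tor c g :=
  ⟨fun h => ⟨h.ne, h.diag, h.det⟩, fun h => ⟨h.ne, h.diag, h.det⟩⟩

lemma conj_eq {q : ℕ} (hq : 2 ≤ q) {β : ℂ} (h : ‖β‖ = Real.sqrt q) :
    (q : ℂ) / β = (starRingEnd ℂ) β := by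
  have h0 : β ≠ 0 := by
    intro h1
    rw [h1, norm_zero] at h
    have h2 : (0 : ℝ) < Real.sqrt q := Real.sqrt_pos.2 (by
      have : 0 < q := by omega
      exact_mod_cast this)
    exact absurd h h2.ne
  rw [div_eq_iff h0, mul_comm, Complex.mul_conj, Complex.normSq_eq_norm_sq, h,
    Real.sq_sqrt (Nat.cast_nonneg q)]
  simp

lemma isFrob (h : IsBig tor 𝓕) {z : ℕ × Mat p} (hz : z ∈ 𝓕) : IsFrob p tor z := by
  refine ⟨(h.weil z hz).two_le, inG_iff.2 (h.weilType z hz), (h.weil z hz).semisimple,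
    fun β hβ => ⟨((h.weil z hz).integral β hβ).1, ?_⟩⟩
  rw [conj_eq (h.weil z hz).two_le ((h.weil z hz).integral β hβ).2]
  exact ((h.weil z hz).integral β hβ).1.map (RingHom.toIntAlgHom (starRingEnd ℂ))

lemma coeff_four (l : Fin 4 → ℂ) : (∏ i, (X - C (l i))).coeff 2 =
    l 0 * l 1 + l 0 * l 2 + l 0 * l 3 + l 1 * l 2 + l 1 * l 3 + l 2 * l 3 := by
  rw [Fin.prod_univ_four]
  have h : (X - C (l 0)) * (X - C (l 1)) * (X - C (l 2)) * (X - C (l 3)) =
      X ^ 4 + C (-(l 0 + l 1 + l 2 + l 3)) * X ^ 3 +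
        C (l 0 * l 1 + l 0 * l 2 + l 0 * l 3 + l 1 * l 2 + l 1 * l 3 + l 2 * l 3) * X ^ 2 +
        C (-(l 0 * l 1 * l 2 + l 0 * l 1 * l 3 + l 0 * l 2 * l 3 + l 1 * l 2 * l 3)) * X +
        C (l 0 * l 1 * l 2 * l 3) := by
    simp only [map_add, map_mul, map_neg]
    ring
  rw [h]
  simp only [coeff_add, coeff_C_mul, coeff_X_pow, coeff_X, coeff_C]
  norm_num

lemma real_mid (l : Fin 4 → ℂ) {q : ℂ} (hq : q ≠ 0) (h0 : ∏ i, l i = q ^ 2)
    (hc : ∀ i, (starRingEnd ℂ) (l i) = q / l i) :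
    (starRingEnd ℂ) ((∏ i, (X - C (l i))).coeff 2) = (∏ i, (X - C (l i))).coeff 2 := by
  rw [coeff_four]
  rw [Fin.prod_univ_four] at h0
  have hne : l 0 * l 1 * l 2 * l 3 ≠ 0 := by
    rw [h0]; exact pow_ne_zero _ hq
  have h0' : l 0 ≠ 0 := fun h => hne (by rw [h]; ring)
  have h1' : l 1 ≠ 0 := fun h => hne (by rw [h]; ring)
  have h2' : l 2 ≠ 0 := fun h => hne (by rw [h]; ring)
  have h3' : l 3 ≠ 0 := fun h => hne (by rw [h]; ring)
  simp only [map_add, map_mul, hc]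
  have e : ∀ a b c d : ℂ, a ≠ 0 → b ≠ 0 → a * b * c * d = q ^ 2 → q / a * (q / b) = c * d := by
    intro a b c d ha hb h
    rw [div_mul_div_comm, div_eq_iff (mul_ne_zero ha hb), ← sq, ← h]
    ring
  rw [e (l 0) (l 1) (l 2) (l 3) h0' h1' h0,
    e (l 0) (l 2) (l 1) (l 3) h0' h2' (by rw [← h0]; ring),
    e (l 0) (l 3) (l 1) (l 2) h0' h3' (by rw [← h0]; ring),
    e (l 1) (l 2) (l 0) (l 3) h1' h2' (by rw [← h0]; ring),
    e (l 1) (l 3) (l 0) (l 2) h1' h3' (by rw [← h0]; ring),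
    e (l 2) (l 3) (l 0) (l 1) h2' h3' (by rw [← h0]; ring)]
  ring

lemma units (hp : 1 ≤ p) (h : IsBig tor 𝓕) (hu : HasUnits tor 𝓕 ∨
    (p = 2 ∧ tor.card ≤ 1 ∧ IsQuadratic 𝓕 ∧ IsDense tor {z | z ∈ 𝓕 ∧ z.1.Prime})) :
    Units p tor 𝓕 := by
  rcases hu with hu | ⟨hp2, htor, ⟨τ, hτ, hq⟩, hd⟩
  · intro S hS h1 h2
    obtain ⟨z, hz, P, hP, hqP, hord, h3, h4⟩ := hu S hS h1 h2
    exact ⟨z, hz, P, hP, hqP, hord, h3, h4⟩
  · subst hp2
    refine units_auto (by norm_num) htor (fun z hz => isFrob h hz)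
      (fun z hz β hβ => ((h.weil z hz).integral β hβ).2) (fun z hz => ?_)
      (fun f hf c g hcg => hd f (fun z hz => hf z hz.1 hz.2) c g (inG_iff.1 hcg))
    -- the middle coefficient is real
    have hq0 : (z.1 : ℂ) ≠ 0 := by
      have h1 := (h.weil z hz).two_le
      have h2 : z.1 ≠ 0 := by omega
      exact_mod_cast h2
    obtain ⟨l, -, hl, -⟩ := exists_eig (isFrob h hz).inG (h.weil z hz).semisimple
    have hroot : ∀ i, z.2.charpoly.IsRoot (l i) := by
      intro i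
      rw [hl, Polynomial.IsRoot, Polynomial.eval_prod]
      exact Finset.prod_eq_zero (Finset.mem_univ i) (by simp)
    have hdet : ∏ i, l i = (z.1 : ℂ) ^ 2 := by
      rw [← (h.weilType z hz).det, Matrix.det_eq_sign_charpoly_coeff, hl,
        Polynomial.coeff_zero_eq_eval_zero, Polynomial.eval_prod]
      simp only [eval_sub, eval_X, eval_C, zero_sub, Finset.prod_neg]
      rw [← mul_assoc, Finset.card_univ, ← mul_pow]
      simp
    have h1 := real_mid l hq0 hdet (fun i =>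
      (conj_eq (h.weil z hz).two_le ((h.weil z hz).integral _ (hroot i)).2).symm)
    obtain ⟨a, b, hab⟩ := hq z hz 2
    change (starRingEnd ℂ) ((∏ i, (X - C (l i))).coeff 2) = (∏ i, (X - C (l i))).coeff 2 at h1
    rw [← hl, hab] at h1
    have h2 := congrArg Complex.im h1
    simp only [map_add, map_mul, map_intCast, Complex.add_im, Complex.mul_im, Complex.intCast_im,
      Complex.intCast_re, Complex.conj_im, Complex.conj_re, zero_mul, add_zero, zero_add] at h2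
    have h3 : (b : ℝ) = 0 := by
      have h4 : (b : ℝ) * τ.im = 0 := by linarith
      rcases mul_eq_zero.1 h4 with h5 | h5
      · exact h5
      · exact absurd h5 hτ
    refine ⟨a, ?_⟩
    have h4 : b = 0 := by exact_mod_cast h3
    rw [hab, h4]
    simp

/-- The Galois coniveau is contained in the Tate coniveau. -/
theorem galois_le (hp : 1 ≤ p) (h : IsBig tor 𝓕) (hun : Units p tor 𝓕) (n i ν : ℕ)
    (hi : 2 * ν ≤ i) : galoisConiveau 𝓕 n i ν ≤ tateConiveau 𝓕 n i ν := by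
  refine sSup_le fun U hU => ?_
  intro x hx
  have hcl : ∀ (ι : Type) [Fintype ι] [DecidableEq ι] (U : Submodule ℂ (Ten ι (Le (2 * p)))),
      Fintype.card ι = (i - 2 * ν) + 2 * ν → Stab p tor U → Good 𝓕 ν U → U ≤ tt p tor ι ν := by
    refine claimT (fun z hz => (isFrob h hz).inG) (i - 2 * ν) ?_ ν
    intro ι _ _ t U ht hc hst hgood hk
    by_contra hne
    obtain ⟨u, hu, y, hy, h1, h2, h3⟩ := exists_word rfl hp hst hne hk
    exact arith rfl (fun z hz => isFrob h hz) hun ht hst hgood hu hy h1 h2 h3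
  have hlink : x ∈ tateSpan p tor n i ν := by
    refine link hi (hU.le hx) fun c => ?_
    refine hcl (Fin i) (U.map (psi c)) (by rw [Fintype.card_fin]; omega) ?_ ?_ ⟨x, hx, rfl⟩
    · refine stab_of_dense (fun z hz => (isFrob h hz).inG)
        (fun f hf c g hcg => h.dense f hf c g (inG_iff.1 hcg)) ?_
      rintro z hz _ ⟨y, hy, rfl⟩
      rw [← psi_map _ c (hU.le hy)]
      exact ⟨_, hU.stable z hz y hy, rfl⟩
    · intro z hz
      have hfin : FiniteDimensional ℂ U := Submodule.finiteDimensional_of_le hU.le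
      let Φ : Module.End ℂ U :=
        (frobExt n z).toLinearMap.restrict (fun x hx => hU.stable _ hz x hx)
      refine ⟨minpoly ℂ Φ, ?_, ?_⟩
      · intro β hβ
        obtain ⟨v, hv⟩ := (Module.End.hasEigenvalue_of_isRoot hβ).exists_hasEigenvector
        have h1 : Φ v = β • v := hv.apply_eq_smul
        have h2 : frobExt n z v.1 = β • v.1 := congrArg Subtype.val h1
        exact (hU.integral _ hz v.1 v.2 (fun h0 => hv.2 (Subtype.ext h0)) β h2).1
      · rintro _ ⟨x, hx, rfl⟩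
        have h1 := aeval_semiconj ((psi c).comp U.subtype) Φ
          (rho Finset.univ (frob (z.1 : ℂ) z.2)) (fun v => by
          change psi c (frobExt n z v.1) = rho Finset.univ (frob (z.1 : ℂ) z.2) (psi c v.1)
          exact psi_map _ c (hU.le v.2)) (minpoly ℂ Φ) ⟨x, hx⟩
        have h0 : aeval Φ (minpoly ℂ Φ) = 0 := minpoly.aeval ℂ Φ
        rw [h0, LinearMap.zero_apply, map_zero] at h1
        exact h1.symm
  refine Submodule.span_mono ?_ hlink
  rintro _ ⟨m, φ, h1, h2, y, hy, rfl⟩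
  exact ⟨m, φ, ⟨h1, fun z hz y hy => h2 (z.1 : ℂ) z.2 (isFrob h hz).inG y hy⟩, y, hy, rfl⟩

/-- The Tate coniveau is effective. -/
theorem tate_effective (h : IsBig tor 𝓕) (n i ν : ℕ) (hi : 2 * ν ≤ i) :
    IsEffective 𝓕 n i ν (tateConiveau 𝓕 n i ν) where
  le := by
    refine Submodule.span_le.2 ?_
    rintro _ ⟨m, φ, hφ, y, hy, rfl⟩
    exact hφ.mem y hy
  stable := by
    intro z hz x hx
    have h1 : tateConiveau 𝓕 n i ν ≤ (tateConiveau 𝓕 n i ν).comap (frobExt n z).toLinearMap := by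
      refine Submodule.span_le.2 ?_
      rintro _ ⟨m, φ, hφ, y, hy, rfl⟩
      change frobExt n z (φ y) ∈ tateConiveau 𝓕 n i ν
      rw [hφ.comm z hz y hy]
      refine Submodule.smul_mem _ _ (Submodule.subset_span ⟨m, φ, hφ, frobExt m z y, ?_, rfl⟩)
      refine ext_induction (p := fun y => frobExt m z y ∈ ⋀[ℂ]^(i - 2 * ν) (Fin m → Ind p → ℂ))
        ?_ ?_ ?_ ?_ hy
      · intro v
        unfold frobExt
        rw [ExteriorAlgebra.map_apply_ιMulti, ← ExteriorAlgebra.ιMulti_span_fixedDegree]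
        exact Submodule.subset_span ⟨_, rfl⟩
      · rw [map_zero]; exact Submodule.zero_mem _
      · intro x y hx hy
        rw [map_add]; exact Submodule.add_mem _ hx hy
      · intro r x hx
        rw [map_smul]; exact Submodule.smul_mem _ _ hx
    exact h1 hx
  integral := by
    intro z hz x hx hx0 β hβ
    refine tate_integral (isFrob h hz) hi (Submodule.span_mono ?_ hx) hx0 hβ
    rintro _ ⟨m, φ, hφ, y, hy, rfl⟩
    exact ⟨m, φ, fun y hy => hφ.comm z hz y hy, y, hy, rfl⟩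

end Proof

/-- **The Galois coniveau filtration for all powers of abelian varieties of Weil type.**
Let `𝓕` be a system of Frobenii of Weil type `(p, p)` with big monodromy. Assume that it has
ordinary places (`HasUnits`); this is automatic if `p = 2`, there is at most one torus index, the
characteristic polynomials have coefficients in a quadratic order and the Frobenii over primes are
dense. Then for all `n`, `i`, `ν` the Galois coniveau `N^ν` of `Λⁱ(Vⁿ)` is the span of the images of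
`Λ^(i-2ν)(Vᵐ)`, `m ≥ 0`, under the maps given by Tate classes on `Aᵐ × Aⁿ`. -/
theorem result (hp : 1 ≤ p) (tor : Finset (Fin (2 * p))) (𝓕 : Set (ℕ × Mat p))
    (h : IsBig tor 𝓕) (hu : HasUnits tor 𝓕 ∨
      (p = 2 ∧ tor.card ≤ 1 ∧ IsQuadratic 𝓕 ∧ IsDense tor {z | z ∈ 𝓕 ∧ z.1.Prime}))
    (n i ν : ℕ) (hi : 2 * ν ≤ i) : galoisConiveau 𝓕 n i ν = tateConiveau 𝓕 n i ν :=
  le_antisymm (galois_le hp h (units hp h hu) n i ν hi) (le_sSup (tate_effective h n i ν hi))

end Pool.Agent.Results.MP_8abef2_ag.WeilTypePowers
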