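import Pool.Agent.Helper48.WT.Basic

/-!
# WT-TRACE: killed tensors are traceless

`tr_tor`, `tr_big`. PROOF. Let `B = {i}` (`i ∈ tor`) or `B = torᶜ`, and
`e : {k // k ≠ a ∧ k ≠ b} ≃ Fin (card ι - 2)` any equivalence. The linear map
`(φ u) y = ∑ i ∈ B, u (word with e_i at a, f_i at b and y ∘ e at the other places)` is `CoEqui`:
for `X = frob c g` the sum over the letters at `a`, `b` gives
`∑ i ∈ B, X (inl i) r * X (inr i) s`, which is `c` if `r = inl k`, `s = inr k` with the same
`k ∈ B` and `0` otherwise, because `g` is block diagonal (`InG.diag`) and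
`∑ i, g i k * (c (g⁻¹)ᵀ) i l = c * (g⁻¹ * g) l k = c * δ`.
So `Killed` gives `φ u = 0`; evaluate at `y = x ∘ (e.symm ..)`.
-/

set_option autoImplicit false

namespace Pool.Agent.Helper48.WT

open Polynomial Pool.Agent.Helper48.GC8

variable {d p : ℕ} {tor : Finset (Fin d)} {ι : Type} [Fintype ι] [DecidableEq ι]

/-- The word with `r0` at the places `a`, `b` and `y` at the other places. -/
private noncomputable def extw {a b : ι} (e : {k : ι // k ≠ a ∧ k ≠ b} ≃ Fin (Fintype.card ι - 2))
    (r0 : Le d) (y : Fin (Fintype.card ι - 2) → Le d) : ι → Le d :=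
  fun k => if h : k ≠ a ∧ k ≠ b then y (e ⟨k, h⟩) else r0

omit [DecidableEq ι] in
private lemma exists_e {a b : ι} [DecidableEq ι] (hab : a ≠ b) :
    Nonempty ({k : ι // k ≠ a ∧ k ≠ b} ≃ Fin (Fintype.card ι - 2)) := by
  refine ⟨Fintype.equivFinOfCardEq ?_⟩
  rw [Fintype.card_subtype]
  have h1 : (Finset.univ.filter (fun k : ι => k ≠ a ∧ k ≠ b)) = Finset.univ \ {a, b} := by
    ext k
    simp [not_or]
  rw [h1, Finset.card_sdiff_of_subset (Finset.subset_univ _), Finset.card_univ,
    Finset.card_pair hab]

private lemma rho_extw {a b : ι} (e : {k : ι // k ≠ a ∧ k ≠ b} ≃ Fin (Fintype.card ι - 2))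
    (r0 : Le d) (X : Matrix (Le d) (Le d) ℂ) (w : Ten ι (Le d))
    (y : Fin (Fintype.card ι - 2) → Le d) :
    rho (Finset.univ \ {a, b}) X w (extw e r0 y) =
      rho Finset.univ X (fun y' => w (extw e r0 y')) y := by
  rw [rho_apply, rho_apply]
  symm
  refine Fintype.sum_of_injective (fun y' => extw e r0 y') ?_ _ _ ?_ ?_
  · intro y1 y2 h
    funext j
    have h1 := congrFun h (e.symm j).1
    have h2 := (e.symm j).2
    simp only [extw] at h1
    rw [dif_pos h2, dif_pos h2] at h1
    simpa using h1
  · intro z hz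
    have h1 : ∃ k, (k = a ∨ k = b) ∧ z k ≠ r0 := by
      by_contra hcon
      push Not at hcon
      apply hz
      refine ⟨fun j => z (e.symm j).1, ?_⟩
      funext k
      simp only [extw]
      by_cases hk : k ≠ a ∧ k ≠ b
      · rw [dif_pos hk, Equiv.symm_apply_apply]
      · rw [dif_neg hk]
        have hk' : k = a ∨ k = b := by
          by_contra h3
          push Not at h3
          exact hk h3
        exact (hcon k hk').symm
    obtain ⟨k, hk, hzk⟩ := h1
    rw [Finset.prod_eq_zero (Finset.mem_univ k), zero_mul]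
    have h2 : k ∉ Finset.univ \ {a, b} := by
      rcases hk with rfl | rfl <;> simp
    have h3 : extw e r0 y k = r0 := by
      simp only [extw]
      rw [dif_neg]
      rintro ⟨h4, h5⟩
      rcases hk with hk | hk
      · exact h4 hk
      · exact h5 hk
    rw [if_neg h2, h3]
    exact Matrix.one_apply_ne (Ne.symm hzk)
  · intro y'
    congr 1
    rw [← Finset.prod_subset (Finset.subset_univ (Finset.univ.filter (fun k : ι => k ≠ a ∧ k ≠ b)))]
    · rw [← Finset.prod_subtype_of_mem (p := fun k : ι => k ≠ a ∧ k ≠ b)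
        (s := Finset.univ.filter (fun k : ι => k ≠ a ∧ k ≠ b))
        (fun k => (if k ∈ Finset.univ \ {a, b} then X else 1) (extw e r0 y k) (extw e r0 y' k))
        (fun k hk => (Finset.mem_filter.1 hk).2)]
      symm
      refine Finset.prod_bij (fun k _ => e k) (fun k _ => Finset.mem_univ _)
        (fun k1 _ k2 _ h => e.injective h) ?_ ?_
      · intro j _
        refine ⟨e.symm j, ?_, by simp⟩
        rw [Finset.mem_subtype, Finset.mem_filter]
        exact ⟨Finset.mem_univ _, (e.symm j).2⟩
      · intro k _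
        have h1 : k.1 ∈ Finset.univ \ {a, b} := by
          simp [k.2.1, k.2.2]
        rw [if_pos h1, if_pos (Finset.mem_univ _)]
        simp only [extw]
        rw [dif_pos k.2, dif_pos k.2]
    · intro k _ hk
      have h2 : ¬ (k ≠ a ∧ k ≠ b) := fun h => hk (Finset.mem_filter.2 ⟨Finset.mem_univ _, h⟩)
      have h1 : k ∉ Finset.univ \ {a, b} := by
        intro h3
        apply h2
        simpa [not_or] using h3
      have h3 : ∀ y : Fin (Fintype.card ι - 2) → Le d, extw e r0 y k = r0 := by
        intro y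
        simp only [extw]
        rw [dif_neg h2]
      rw [if_neg h1, h3, h3]
      exact Matrix.one_apply_eq _

private lemma killed_con {u : Ten ι (Le d)} (hu : Killed p tor u) (J : Matrix (Le d) (Le d) ℂ)
    (hJ : ∀ (c : ℂ) (g : Matrix (Fin d) (Fin d) ℂ), InG p tor c g →
      (frob c g).transpose * J * frob c g = c • J) {a b : ι} (hab : a ≠ b) (x : ι → Le d) :
    con J a b u x = 0 := by
  obtain ⟨e⟩ := exists_e hab
  let φ : Ten ι (Le d) →ₗ[ℂ] Ten (Fin (Fintype.card ι - 2)) (Le d) :=
    { toFun := fun v y => con J a b v (extw e (x a) y)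
      map_add' := by
        intro v w
        funext y
        rw [map_add]
        rfl
      map_smul' := by
        intro c v
        funext y
        rw [map_smul]
        rfl }
  have hφ : CoEqui p tor φ := by
    intro c g hg v
    funext y
    change con J a b (rho Finset.univ (frob c g) v) (extw e (x a) y) = _
    rw [con_rho Finset.univ J (frob c g) (hJ c g hg) (Finset.mem_univ a) (Finset.mem_univ b) hab,
      Pi.smul_apply, Pi.smul_apply, rho_extw]
    rfl
  have h1 := congrFun (hu φ hφ) (fun j => x (e.symm j).1)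
  change con J a b u (extw e (x a) (fun j => x (e.symm j).1)) = 0 at h1
  rw [← h1, con_apply, con_apply]
  refine Finset.sum_congr rfl fun r _ => Finset.sum_congr rfl fun s _ => ?_
  congr 2
  funext k
  by_cases hkb : k = b
  · subst hkb
    simp
  · rw [Function.update_of_ne hkb, Function.update_of_ne hkb]
    by_cases hka : k = a
    · subst hka
      simp
    · rw [Function.update_of_ne hka, Function.update_of_ne hka]
      simp only [extw]
      rw [dif_pos ⟨hka, hkb⟩, Equiv.symm_apply_apply]

/-- The form pairing `e_i` with `f_i` for `i ∈ B`. -/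
private noncomputable def JB (B : Finset (Fin d)) : Matrix (Le d) (Le d) ℂ :=
  Matrix.fromBlocks 0 (Matrix.diagonal fun i => if i ∈ B then 1 else 0) 0 0

private lemma JB_equi (B : Finset (Fin d)) (c : ℂ) (g : Matrix (Fin d) (Fin d) ℂ)
    (hg : InG p tor c g) (hB : ∀ i j, i ∈ B → j ∉ B → g i j = 0 ∧ g j i = 0) :
    (frob c g).transpose * JB B * frob c g = c • JB B := by
  have hcomm : g.transpose * (Matrix.diagonal fun i => if i ∈ B then (1 : ℂ) else 0) =
      (Matrix.diagonal fun i => if i ∈ B then (1 : ℂ) else 0) * g.transpose := by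
    ext i j
    rw [Matrix.mul_diagonal, Matrix.diagonal_mul, Matrix.transpose_apply]
    by_cases hi : i ∈ B <;> by_cases hj : j ∈ B
    · simp [hi, hj]
    · simp [hi, hj, (hB i j hi hj).2]
    · simp [hi, hj, (hB j i hj hi).1]
    · simp [hi, hj]
  unfold frob JB
  rw [Matrix.fromBlocks_transpose, Matrix.fromBlocks_multiply, Matrix.fromBlocks_multiply,
    Matrix.fromBlocks_smul]
  simp only [Matrix.transpose_zero, Matrix.zero_mul, Matrix.mul_zero, add_zero, zero_add,
    smul_zero]
  congr 1
  rw [hcomm, Matrix.mul_smul, Matrix.mul_assoc, ← Matrix.transpose_mul,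
    Matrix.nonsing_inv_mul _ hg.isUnit, Matrix.transpose_one, Matrix.mul_one]

omit [Fintype ι] in
private lemma con_JB (B : Finset (Fin d)) (a b : ι) (u : Ten ι (Le d)) (x : ι → Le d) :
    con (JB B) a b u x =
      ∑ i ∈ B, u (Function.update (Function.update x a (Sum.inl i)) b (Sum.inr i)) := by
  rw [con_apply]
  unfold JB
  simp only [Fintype.sum_sum_type, Matrix.fromBlocks_apply₁₁, Matrix.fromBlocks_apply₁₂,
    Matrix.fromBlocks_apply₂₁, Matrix.fromBlocks_apply₂₂, Matrix.zero_apply, zero_mul,
    Finset.sum_const_zero, add_zero, zero_add, Matrix.diagonal_apply]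
  rw [← Finset.sum_subset (Finset.subset_univ B)]
  · refine Finset.sum_congr rfl fun i hi => ?_
    rw [Finset.sum_eq_single i]
    · simp [hi]
    · intro j _ hj
      simp [Ne.symm hj]
    · simp
  · intro i _ hi
    refine Finset.sum_eq_zero fun j _ => ?_
    simp [hi]

theorem tr_tor {u : Ten ι (Le d)} (hu : Killed p tor u) {a b : ι} (hab : a ≠ b) {i : Fin d}
    (hi : i ∈ tor) (x : ι → Le d) :
    u (Function.update (Function.update x a (Sum.inl i)) b (Sum.inr i)) = 0 := by
  have h1 := killed_con hu (JB {i}) (fun c g hg => JB_equi {i} c g hg ?_) hab x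
  · rw [con_JB, Finset.sum_singleton] at h1
    exact h1
  · intro k l hk hl
    rw [Finset.mem_singleton] at hk hl
    subst hk
    exact ⟨hg.diag k l (Ne.symm hl) (Or.inl hi), hg.diag l k hl (Or.inr hi)⟩

theorem tr_big {u : Ten ι (Le d)} (hu : Killed p tor u) {a b : ι} (hab : a ≠ b)
    (x : ι → Le d) :
    ∑ i ∈ torᶜ, u (Function.update (Function.update x a (Sum.inl i)) b (Sum.inr i)) = 0 := by
  have h1 := killed_con hu (JB torᶜ) (fun c g hg => JB_equi torᶜ c g hg ?_) hab x
  · rw [con_JB] at h1
    exact h1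
  · intro k l hk hl
    rw [Finset.mem_compl] at hk
    have hl' : l ∈ tor := by
      by_contra h
      exact hl (Finset.mem_compl.2 h)
    have hkl : k ≠ l := by
      rintro rfl
      exact hk hl'
    exact ⟨hg.diag k l hkl (Or.inr hl'), hg.diag l k (Ne.symm hkl) (Or.inl hl')⟩

end Pool.Agent.Helper48.WT
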